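import Mathlib
set_option autoImplicit false
open scoped ENNReal Topology

namespace Pool.Agent.Helper55.TR

/-- A weighted square sum of countably many seminorms (after Helper76/TwoSepC). -/
theorem convexSem {X : Type*} [AddCommGroup X] [Module ℝ X] (q : ℕ → Seminorm ℝ X)
    (hq : ∀ n x, q n x ≤ q 0 x) :
    ∃ p : Seminorm ℝ X, (∀ x, q 0 x ≤ 2 * p x) ∧ (∀ x, p x ≤ q 0 x) ∧
      ∀ x y, p x = 1 → p y = 1 → 2 ≤ p (x - y) → ∀ n, q n x = q n y ∧ q n (x - y) = q n x + q n y := by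
  set w : ℕ → ℝ := fun n => (1 / 2 : ℝ) * (1 / 2) ^ n with hw
  have hw0 : ∀ n, 0 < w n := fun n => by positivity
  have hwsum : HasSum w 1 := by
    have h1 := hasSum_geometric_two.mul_left (1 / 2 : ℝ)
    have h2 : (1 / 2 : ℝ) * 2 = 1 := by norm_num
    rwa [h2] at h1
  have hq0 : ∀ n x, 0 ≤ q n x := fun n x => apply_nonneg (q n) x
  have hdom : ∀ x n, w n * (q n x) ^ 2 ≤ w n * q 0 x ^ 2 := fun x n =>
    mul_le_mul_of_nonneg_left (pow_le_pow_left₀ (hq0 n x) (hq n x) 2) (hw0 n).le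
  have hnn : ∀ x n, 0 ≤ w n * (q n x) ^ 2 := fun x n => mul_nonneg (hw0 n).le (sq_nonneg _)
  have hS : ∀ x, Summable fun n => w n * (q n x) ^ 2 := fun x =>
    Summable.of_nonneg_of_le (hnn x) (hdom x) (hwsum.summable.mul_right _)
  set S : X → ℝ := fun x => ∑' n, w n * (q n x) ^ 2 with hSdef
  have hS0 : ∀ x, 0 ≤ S x := fun x => tsum_nonneg (hnn x)
  have hSle : ∀ x, S x ≤ q 0 x ^ 2 := by
    intro x
    have h1 := (hS x).tsum_le_tsum (hdom x) (hwsum.summable.mul_right _)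
    rwa [tsum_mul_right, hwsum.tsum_eq, one_mul] at h1
  have hSge : ∀ x, q 0 x ^ 2 / 2 ≤ S x := by
    intro x
    have h1 := (hS x).le_tsum 0 (fun n _ => hnn x n)
    simp only [hw, pow_zero, mul_one] at h1
    calc q 0 x ^ 2 / 2 = 1 / 2 * q 0 x ^ 2 := by ring
      _ ≤ _ := h1
  -- Minkowski
  have hmink : ∀ x y, Real.sqrt (∑' n, w n * (q n x + q n y) ^ 2) ≤
      Real.sqrt (S x) + Real.sqrt (S y) ∧ Summable fun n => w n * (q n x + q n y) ^ 2 := by
    intro x y
    have e1 : ∀ (n : ℕ) (c : ℝ), (Real.sqrt (w n) * c) ^ (2 : ℝ) = w n * c ^ 2 := by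
      intro n c
      rw [Real.rpow_two, mul_pow, Real.sq_sqrt (hw0 n).le]
    have e2 : ∀ n : ℕ, (Real.sqrt (w n) * q n x + Real.sqrt (w n) * q n y) ^ (2 : ℝ) =
        w n * (q n x + q n y) ^ 2 := by
      intro n
      rw [← mul_add, e1]
    have h1 := Real.Lp_add_le_tsum_of_nonneg (p := 2) (by norm_num)
      (f := fun n => Real.sqrt (w n) * q n x) (g := fun n => Real.sqrt (w n) * q n y)
      (fun n => mul_nonneg (Real.sqrt_nonneg _) (hq0 n x))
      (fun n => mul_nonneg (Real.sqrt_nonneg _) (hq0 n y))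
      (by simpa only [e1] using hS x) (by simpa only [e1] using hS y)
    simp only [e1, e2] at h1
    rw [← Real.sqrt_eq_rpow, ← Real.sqrt_eq_rpow, ← Real.sqrt_eq_rpow] at h1
    exact ⟨h1.2, h1.1⟩
  have htri : ∀ x y, Real.sqrt (S (x + y)) ≤ Real.sqrt (S x) + Real.sqrt (S y) := by
    intro x y
    refine le_trans (Real.sqrt_le_sqrt ?_) (hmink x y).1
    refine (hS (x + y)).tsum_le_tsum (fun n => ?_) (hmink x y).2
    exact mul_le_mul_of_nonneg_left (pow_le_pow_left₀ (hq0 n _) (map_add_le_add (q n) x y) 2)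
      (hw0 n).le
  have hsmul : ∀ (a : ℝ) (x : X), Real.sqrt (S (a • x)) = ‖a‖ * Real.sqrt (S x) := by
    intro a x
    have h1 : S (a • x) = ‖a‖ ^ 2 * S x := by
      rw [hSdef]
      simp only
      rw [← tsum_mul_left]
      refine tsum_congr fun n => ?_
      rw [map_smul_eq_mul]
      ring
    rw [h1, Real.sqrt_mul (sq_nonneg _), Real.sqrt_sq (norm_nonneg _)]
  refine ⟨Seminorm.of (fun x => Real.sqrt (S x)) htri hsmul, ?_, ?_, ?_⟩
  · intro x
    change q 0 x ≤ 2 * Real.sqrt (S x)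
    have h1 := hSge x
    have h2 := Real.sqrt_nonneg (S x)
    have h3 := Real.sq_sqrt (hS0 x)
    nlinarith [hq0 0 x]
  · intro x
    change Real.sqrt (S x) ≤ q 0 x
    rw [← Real.sqrt_sq (hq0 0 x)]
    exact Real.sqrt_le_sqrt (hSle x)
  · intro x y hx hy hxy n
    change Real.sqrt (S x) = 1 at hx
    change Real.sqrt (S y) = 1 at hy
    change 2 ≤ Real.sqrt (S (x - y)) at hxy
    have hx1 : S x = 1 := by rw [← Real.sq_sqrt (hS0 x), hx, one_pow]
    have hy1 : S y = 1 := by rw [← Real.sq_sqrt (hS0 y), hy, one_pow]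
    have hxy1 : 4 ≤ S (x - y) := by
      rw [← Real.sq_sqrt (hS0 (x - y))]
      nlinarith
    have hle : ∀ n, q n (x - y) ≤ q n x + q n y := fun n => map_sub_le_add (q n) x y
    have hM := (hmink x y).2
    -- the two defects
    have hdiff1 : ∀ n, 0 ≤ w n * (q n x + q n y) ^ 2 - w n * (q n (x - y)) ^ 2 := by
      intro n
      rw [← mul_sub]
      refine mul_nonneg (hw0 n).le ?_
      nlinarith [hle n, hq0 n (x - y), hq0 n x, hq0 n y]
    have hdiff2 : ∀ n, w n * (q n x - q n y) ^ 2 =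
        2 * (w n * (q n x) ^ 2) + 2 * (w n * (q n y) ^ 2) - w n * (q n x + q n y) ^ 2 := by
      intro n
      ring
    have hs2 : HasSum (fun n => w n * (q n x - q n y) ^ 2)
        (2 * S x + 2 * S y - ∑' n, w n * (q n x + q n y) ^ 2) := by
      simp only [hdiff2]
      exact (((hS x).hasSum.mul_left 2).add ((hS y).hasSum.mul_left 2)).sub hM.hasSum
    have hs1 : HasSum (fun n => w n * (q n x + q n y) ^ 2 - w n * (q n (x - y)) ^ 2)
        ((∑' n, w n * (q n x + q n y) ^ 2) - S (x - y)) := hM.hasSum.sub (hS (x - y)).hasSum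
    have hn1 : 0 ≤ (∑' n, w n * (q n x + q n y) ^ 2) - S (x - y) := hs1.nonneg hdiff1
    have hn2 : 0 ≤ 2 * S x + 2 * S y - ∑' n, w n * (q n x + q n y) ^ 2 :=
      hs2.nonneg fun n => mul_nonneg (hw0 n).le (sq_nonneg _)
    have hz1 : (∑' n, w n * (q n x + q n y) ^ 2) - S (x - y) = 0 := by linarith
    have hz2 : 2 * S x + 2 * S y - ∑' n, w n * (q n x + q n y) ^ 2 = 0 := by linarith
    rw [hz1] at hs1
    rw [hz2] at hs2
    have hf1 := (hasSum_zero_iff_of_nonneg hdiff1).1 hs1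
    have hf2 := (hasSum_zero_iff_of_nonneg fun n => mul_nonneg (hw0 n).le (sq_nonneg _)).1 hs2
    have h3 : w n * (q n x - q n y) ^ 2 = 0 := congrFun hf2 n
    have h4 : w n * (q n x + q n y) ^ 2 - w n * (q n (x - y)) ^ 2 = 0 := congrFun hf1 n
    have h5 : q n x = q n y := by
      rcases mul_eq_zero.1 h3 with h | h
      · exact absurd h (hw0 n).ne'
      · exact sub_eq_zero.1 (pow_eq_zero_iff two_ne_zero |>.1 h)
    refine ⟨h5, ?_⟩
    rw [← mul_sub] at h4
    rcases mul_eq_zero.1 h4 with h | h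
    · exact absurd h (hw0 n).ne'
    · have h6 : q n (x - y) ^ 2 = (q n x + q n y) ^ 2 := by linarith
      exact (pow_left_inj₀ (hq0 n _) (add_nonneg (hq0 n _) (hq0 n _)) two_ne_zero).1 h6

end Pool.Agent.Helper55.TR
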