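import Pool.Agent.Helper55.TR.Transfer
set_option autoImplicit false

open scoped Topology BoundedContinuousFunction

namespace Pool.Agent.Helper55.TR

/-- With `NoFam` the index set is not empty. -/
theorem NoFam.nonempty {N X : Type*} [NormedAddCommGroup X] [NormedSpace ℝ X] (h : NoFam N X) :
    Nonempty N := by
  by_contra hN
  rw [not_nonempty_iff] at hN
  obtain ⟨p, c, C, -, -, -, h4⟩ := h
  exact h4 ⟨fun n => (hN.false n).elim, fun n => (hN.false n).elim, fun n => (hN.false n).elim⟩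

/-- The trivial space. -/
theorem NoFam.of_subsingleton {N X : Type*} [NormedAddCommGroup X] [NormedSpace ℝ X] [Nonempty N]
    (h : ∀ x : X, x = 0) : NoFam N X := by
  refine ⟨0, 1, 0, one_pos, fun x => by rw [h x]; simp, fun x => by simp, ?_⟩
  rintro ⟨f, hf, -⟩
  obtain ⟨n⟩ := ‹Nonempty N›
  have := hf n
  simp at this

/-- Normalised form. -/
theorem NoFam.normalise {N X : Type*} [NormedAddCommGroup X] [NormedSpace ℝ X] (h : NoFam N X) :
    ∃ p : Seminorm ℝ X, ∃ c : ℝ, 0 < c ∧ (∀ x, c * ‖x‖ ≤ p x) ∧ (∀ x, p x ≤ ‖x‖) ∧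
      ¬ ∃ f : N → X, (∀ n, p (f n) = 1) ∧ ∀ n m, n ≠ m → 2 ≤ p (f n - f m) := by
  obtain ⟨p, c, C, hc, h1, h2, h3⟩ := h
  set D : ℝ := max C 1 with hD
  have hD0 : 0 < D := lt_of_lt_of_le one_pos (le_max_right _ _)
  let s : NNReal := ⟨D⁻¹, (inv_pos.2 hD0).le⟩
  have hs : ∀ x, (s • p) x = D⁻¹ * p x := fun x => rfl
  refine ⟨s • p, D⁻¹ * c, by positivity, ?_, ?_, ?_⟩
  · intro x
    rw [hs, mul_assoc]
    exact mul_le_mul_of_nonneg_left (h1 x) (inv_pos.2 hD0).le
  · intro x
    rw [hs, inv_mul_le_iff₀ hD0]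
    exact (h2 x).trans (mul_le_mul_of_nonneg_right (le_max_left _ _) (norm_nonneg _))
  · rintro ⟨f, hf1, hf2⟩
    apply h3
    refine ⟨fun n => D⁻¹ • f n, ?_, ?_⟩
    · intro n
      rw [map_smul_eq_mul, Real.norm_of_nonneg (inv_pos.2 hD0).le, ← hs, hf1]
    · intro n m hnm
      rw [← smul_sub, map_smul_eq_mul, Real.norm_of_nonneg (inv_pos.2 hD0).le, ← hs]
      exact hf2 n m hnm

/-- Operator form. -/
theorem operators {N X I : Type*} {W : I → Type*} [NormedAddCommGroup X] [NormedSpace ℝ X]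
    [∀ i, NormedAddCommGroup (W i)] [∀ i, NormedSpace ℝ (W i)] (S : ∀ i, X →ₗ[ℝ] W i)
    (C : ℝ) (hC : ∀ i x, ‖S i x‖ ≤ C * ‖x‖) (hW : ∀ i, NoFam N (W i)) (J : ℕ → Set I)
    (hJ : ∀ i x, S i x ≠ 0 → ∃ n, i ∈ J n ∧ ∀ ε : ℝ, 0 < ε → {j ∈ J n | ε ≤ ‖S j x‖}.Finite)
    (K : Submodule ℝ X) (hK : ∀ x, (∀ i, S i x = 0) → x ∈ K) (hNK : NoFam N K) : NoFam N X := by
  choose p c hc h1 h2 h3 using fun i => (hW i).normalise
  have hz : ∀ i x, p i x = 0 ↔ x = 0 := by
    intro i x
    constructor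
    · intro h
      have := h1 i x
      rw [h] at this
      have h' : ‖x‖ ≤ 0 := by
        by_contra hcon
        have := mul_pos (hc i) (not_le.1 hcon)
        linarith
      exact norm_le_zero_iff.1 h'
    · rintro rfl
      exact map_zero _
  refine transfer (fun i => (p i).comp (S i)) C (fun i x => (h2 i _).trans (hC i x)) ?_ J ?_ K ?_ hNK
  · rintro i ⟨f, hf1, hf2⟩
    refine h3 i ⟨fun n => S i (f n), hf1, fun n m hnm => ?_⟩
    rw [← map_sub]
    exact hf2 n m hnm
  · intro i x hx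
    have hx' : p i (S i x) ≠ 0 := hx
    have hpos : 0 < p i (S i x) := lt_of_le_of_ne (apply_nonneg _ _) (_root_.Ne.symm hx')
    obtain ⟨n, hn, hfin⟩ := hJ i x (fun h => hx' ((hz i _).2 h))
    refine ⟨n, hn, (hfin _ hpos).subset ?_⟩
    rintro j ⟨hj1, hj2⟩
    exact ⟨hj1, le_trans hj2 (h2 j _)⟩
  · intro x hx
    exact hK x fun i => (hz i _).1 (hx i)

/-- Transport along an injective linear map bounded below. -/
theorem NoFam.of_embed {N X Y : Type*} [NormedAddCommGroup X] [NormedSpace ℝ X]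
    [NormedAddCommGroup Y] [NormedSpace ℝ Y] (T : X →ₗ[ℝ] Y) (a b : ℝ) (ha : 0 < a)
    (h1 : ∀ x, a * ‖x‖ ≤ ‖T x‖) (h2 : ∀ x, ‖T x‖ ≤ b * ‖x‖) (h : NoFam N Y) : NoFam N X := by
  obtain ⟨p, c, hc, g1, g2, g3⟩ := h.normalise
  refine ⟨p.comp T, c * a, b, by positivity, ?_, ?_, ?_⟩
  · intro x
    rw [mul_assoc]
    exact (mul_le_mul_of_nonneg_left (h1 x) hc.le).trans (g1 _)
  · intro x
    exact (g2 _).trans (h2 x)
  · rintro ⟨f, hf1, hf2⟩
    refine g3 ⟨fun n => T (f n), hf1, fun n m hnm => ?_⟩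
    rw [← map_sub]
    exact hf2 n m hnm

/-- Bounded continuous functions on a separable space. -/
theorem separable_bcf {N L W : Type*} [TopologicalSpace L] [TopologicalSpace.SeparableSpace L]
    [NormedAddCommGroup W] [NormedSpace ℝ W] (hW : NoFam N W) : NoFam N (L →ᵇ W) := by
  have hN : Nonempty N := hW.nonempty
  rcases isEmpty_or_nonempty L with hL | hL
  · exact NoFam.of_subsingleton fun f => by ext x; exact (hL.false x).elim
  · let d : ℕ → L := TopologicalSpace.denseSeq L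
    have hd : DenseRange d := TopologicalSpace.denseRange_denseSeq L
    let S : ℕ → ((L →ᵇ W) →ₗ[ℝ] W) := fun n =>
      { toFun := fun f => f (d n)
        map_add' := fun f g => rfl
        map_smul' := fun a f => rfl }
    refine operators (W := fun _ : ℕ => W) S 1 (fun n f => by rw [one_mul]; exact f.norm_coe_le_norm _)
      (fun _ => hW) (fun n => {n}) ?_ ⊥ ?_ ?_
    · intro i x _
      refine ⟨i, rfl, fun ε _ => (Set.finite_singleton i).subset ?_⟩
      rintro j ⟨hj, -⟩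
      exact hj
    · intro f hf
      rw [Submodule.mem_bot]
      have : (f : L → W) = (fun _ => (0 : W)) := by
        apply hd.equalizer f.continuous continuous_const
        funext n
        exact hf n
      ext x
      exact congrFun this x
    · exact NoFam.of_subsingleton fun x => Subsingleton.elim _ _

end Pool.Agent.Helper55.TR
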