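import Pool.Agent.Helper55.TR.Ord
set_option autoImplicit false

open scoped Topology BoundedContinuousFunction

namespace Pool.Agent.Helper55.TR

/-- Long Schauder decompositions: a well-ordered, pointwise continuous, bounded family of operators from
`P a0` to the identity `P a1`, all of whose jumps have good ranges. -/
theorem decomposition {N α X : Type*} [LinearOrder α] [TopologicalSpace α] [OrderTopology α]
    [WellFoundedLT α] [CompactSpace α] [NormedAddCommGroup X] [NormedSpace ℝ X]
    (P : α → X →ₗ[ℝ] X) (C : ℝ) (hC : ∀ a x, ‖P a x‖ ≤ C * ‖x‖)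
    (hcont : ∀ x, Continuous fun a => P a x) (a0 a1 : α) (h1 : ∀ x, P a1 x = x)
    (h0 : NoFam N (LinearMap.range (P a0)))
    (hW : ∀ a b, a ⋖ b → NoFam N (LinearMap.range (P b - P a))) : NoFam N X := by
  refine operators (I := {i : α × α // i.1 ⋖ i.2})
    (W := fun i => LinearMap.range (P i.1.2 - P i.1.1))
    (fun i => (P i.1.2 - P i.1.1).rangeRestrict) (C + C) ?_ (fun i => hW _ _ i.2)
    (fun _ => Set.univ) ?_ (LinearMap.range (P a0)) ?_ h0
  · intro i x
    change ‖P i.1.2 x - P i.1.1 x‖ ≤ (C + C) * ‖x‖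
    rw [add_mul]
    exact (norm_sub_le _ _).trans (add_le_add (hC _ _) (hC _ _))
  · intro i x _
    refine ⟨0, trivial, fun ε hε => (finite_jumps (⟨fun a => P a x, hcont x⟩ : C(α, X)) ε hε).subset ?_⟩
    rintro j ⟨-, hj⟩
    exact hj
  · intro x hx
    have key := const_of_no_jumps (⟨fun a => P a x, hcont x⟩ : C(α, X)) (fun a b hab => by
      have := congrArg Subtype.val (hx ⟨(a, b), hab⟩)
      change P b x - P a x = 0 at this
      exact sub_eq_zero.1 this) a1 a0
    change P a1 x = P a0 x at key
    rw [h1] at key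
    exact ⟨x, key.symm⟩

end Pool.Agent.Helper55.TR
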