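import Mathlib
set_option autoImplicit false

namespace Pool.Agent.Helper55.TR

/-- There is an equivalent norm without a family, indexed by `N`, of unit vectors at pairwise distances
at least 2. -/
def NoFam (N X : Type*) [NormedAddCommGroup X] [NormedSpace ℝ X] : Prop :=
  ∃ p : Seminorm ℝ X, ∃ c C : ℝ, 0 < c ∧ (∀ x, c * ‖x‖ ≤ p x) ∧ (∀ x, p x ≤ C * ‖x‖) ∧
    ¬ ∃ f : N → X, (∀ n, p (f n) = 1) ∧ ∀ n m, n ≠ m → 2 ≤ p (f n - f m)

/-- Compact spaces `K` such that `NoFam N` passes from `W` to `C(K, W)`, for all `W`. -/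
def GoodSpace.{v, u} (N : Type v) (K : Type u) [TopologicalSpace K] [CompactSpace K] : Prop :=
  ∀ (W : Type u) [NormedAddCommGroup W] [NormedSpace ℝ W], NoFam N W → NoFam N C(K, W)

/-- Valdivia compact spaces. -/
def IsValdivia.{u} (K : Type u) [TopologicalSpace K] : Prop :=
  ∃ (Γ : Type u) (e : K → Γ → ℝ), Continuous e ∧ Function.Injective e ∧
    Dense {x | {γ | e x γ ≠ 0}.Countable}

/-- Countably many sets `U n` of open half-spaces `{z | u.2 < u.1 z}` such that every family of nonzero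
vectors indexed by `N` has two different members `x a`, `x b` and an `n` for which `U n` covers `x a` or
`-x b`, while no half-space in `U n` contains both. -/
def Separating (N X : Type*) [NormedAddCommGroup X] [NormedSpace ℝ X] : Prop :=
  ∃ U : ℕ → Set ((X →L[ℝ] ℝ) × ℝ), ∀ x : N → X, (∀ a, x a ≠ 0) → ∃ (n : ℕ) (a b : N), a ≠ b ∧
    (∃ u ∈ U n, u.2 < u.1 (x a) ∨ u.2 < u.1 (-x b)) ∧
    ∀ u ∈ U n, ¬ (u.2 < u.1 (x a) ∧ u.2 < u.1 (-x b))

end Pool.Agent.Helper55.TR
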