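import Pool.Agent.Helper55.TR.Rank
set_option autoImplicit false

namespace Pool.Agent.Helper55.TR

open Topology

/-- The smallest class of compact spaces which contains the Valdivia, the separable and the
well-ordered compact spaces and those with a function to the rationals having a strict local maximum
at every point, and is closed under arbitrary products and under covers by images with isolated tops. -/
inductive GenSpace.{u} : (K : Type u) → TopologicalSpace K → Prop
  | valdivia (K : Type u) [t : TopologicalSpace K] [CompactSpace K] (h : IsValdivia K) :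
      GenSpace K t
  | separable (K : Type u) [t : TopologicalSpace K] [CompactSpace K]
      [TopologicalSpace.SeparableSpace K] : GenSpace K t
  | wellOrdered (K : Type u) [LinearOrder K] [t : TopologicalSpace K] [OrderTopology K]
      [WellFoundedLT K] [CompactSpace K] : GenSpace K t
  | localMax (K : Type u) [t : TopologicalSpace K] [CompactSpace K] (r : K → ℚ)
      (h : ∀ x, ∀ᶠ y in 𝓝[≠] x, r y < r x) : GenSpace K t
  | product (I : Type u) (K : I → Type u) [t : ∀ i, TopologicalSpace (K i)]
      [∀ i, CompactSpace (K i)] (h : ∀ i, GenSpace (K i) (t i)) :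
      GenSpace (∀ i, K i) Pi.topologicalSpace
  | images (L : Type u) [t : TopologicalSpace L] [CompactSpace L] (I : Type u) (K : I → Type u)
      [s : ∀ i, TopologicalSpace (K i)] [∀ i, CompactSpace (K i)] (g : ∀ i, C(K i, L))
      (J : ℕ → Set I) (h : ∀ i, GenSpace (K i) (s i))
      (hJ : ∀ h : C(L, ℝ), (∀ x, 0 ≤ h x) → h ≠ 0 → ∃ (n : ℕ) (η : ℝ), 0 ≤ η ∧
        {i ∈ J n | ∃ x, η < h (g i x)}.Finite ∧ {i ∈ J n | ∃ x, η < h (g i x)}.Nonempty) :
      GenSpace L t

theorem gen_good.{v, u} {N : Type v} (K : Type u) (t : TopologicalSpace K) (h : GenSpace K t) :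
    ∀ [CompactSpace K], GoodSpace N K := by
  induction h with
  | valdivia K h => exact Pool.Agent.Helper55.TR.valdivia K h
  | separable K => exact separable_good K
  | wellOrdered K =>
    intro _ W _ _ hW
    exact ordinal_space hW
  | localMax K r h => exact rank_good K r h
  | product I K h ih => exact Pool.Agent.Helper55.TR.product K fun i => ih i
  | images L I K g J h hJ ih => exact Pool.Agent.Helper55.TR.images L I K (fun i => ih i) g J hJ

end Pool.Agent.Helper55.TR
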