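import Pool.Agent.Helper55.TR.Dec
set_option autoImplicit false

open scoped Topology BoundedContinuousFunction

namespace Pool.Agent.Helper55.TR

section

variable {I : Type*} {K : I → Type*} [∀ i, TopologicalSpace (K i)]

/-- Continuous functions on a compact product depend, up to `ε`, on finitely many coordinates. -/
theorem finite_dep [∀ i, CompactSpace (K i)] {W : Type*} [NormedAddCommGroup W]
    (f : C(∀ i, K i, W)) (ε : ℝ) (hε : 0 < ε) :
    ∃ F : Set I, F.Finite ∧ ∀ x y : ∀ i, K i, (∀ i ∈ F, x i = y i) → ‖f x - f y‖ < ε := by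
  have h : ∀ x : ∀ i, K i, ∃ F : Set I, F.Finite ∧ ∃ t : ∀ i, Set (K i), (∀ i, t i ∈ 𝓝 (x i)) ∧
      F.pi t ⊆ {y | ‖f y - f x‖ < ε / 2} := by
    intro x
    have h1 : {y | ‖f y - f x‖ < ε / 2} ∈ 𝓝 x := by
      have := f.continuous.continuousAt.eventually (Metric.ball_mem_nhds (f x) (half_pos hε))
      filter_upwards [this] with y hy
      rwa [← dist_eq_norm]
    rw [nhds_pi, Filter.mem_pi] at h1
    obtain ⟨F, hF, t, ht, hs⟩ := h1
    exact ⟨F, hF, t, ht, hs⟩
  choose F hF t ht hs using h
  obtain ⟨T, hT⟩ := CompactSpace.elim_nhds_subcover (fun x => (F x).pi (t x))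
    (fun x => set_pi_mem_nhds (hF x) fun i _ => ht x i)
  refine ⟨⋃ x ∈ T, F x, T.finite_toSet.biUnion fun x _ => hF x, fun x y hxy => ?_⟩
  have hx : x ∈ ⋃ z ∈ T, (F z).pi (t z) := by rw [hT]; trivial
  simp only [Set.mem_iUnion] at hx
  obtain ⟨z, hz, hxz⟩ := hx
  have hyz : y ∈ (F z).pi (t z) := by
    intro i hi
    rw [← hxy i (Set.mem_biUnion hz hi)]
    exact hxz i hi
  have e1 : ‖f x - f z‖ < ε / 2 := hs z hxz
  have e2 : ‖f y - f z‖ < ε / 2 := hs z hyz
  have e3 : ‖f x - f y‖ ≤ ‖f x - f z‖ + ‖f y - f z‖ := by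
    have : f x - f y = (f x - f z) - (f y - f z) := by abel
    rw [this]
    exact norm_sub_le _ _
  linarith

open Classical in
/-- The retraction onto the points that agree with `b` off `A`. -/
noncomputable def ret (b : ∀ i, K i) (A : Set I) : C(∀ i, K i, ∀ i, K i) :=
  ⟨fun x i => if i ∈ A then x i else b i, by
    refine continuous_pi fun i => ?_
    by_cases h : i ∈ A
    · simp only [h, if_true]
      exact continuous_apply i
    · simp only [h, if_false]
      exact continuous_const⟩

theorem ret_of_mem (b : ∀ i, K i) (A : Set I) (x : ∀ i, K i) (i : I) (h : i ∈ A) :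
    ret b A x i = x i :=
  if_pos h

theorem ret_of_notMem (b : ∀ i, K i) (A : Set I) (x : ∀ i, K i) (i : I) (h : i ∉ A) :
    ret b A x i = b i :=
  if_neg h

theorem ret_ret (b : ∀ i, K i) (A B : Set I) (h : A ⊆ B) (x : ∀ i, K i) :
    ret b A (ret b B x) = ret b A x := by
  funext i
  by_cases hi : i ∈ A
  · rw [ret_of_mem b A _ i hi, ret_of_mem b A _ i hi, ret_of_mem b B _ i (h hi)]
  · rw [ret_of_notMem b A _ i hi, ret_of_notMem b A _ i hi]

variable {W : Type*} [NormedAddCommGroup W] [NormedSpace ℝ W]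

/-- The functions that depend only on the coordinates in `A`. -/
def XA (W : Type*) [NormedAddCommGroup W] [NormedSpace ℝ W] (b : ∀ i, K i) (A : Set I) :
    Submodule ℝ C(∀ i, K i, W) where
  carrier := {f | ∀ x, f (ret b A x) = f x}
  zero_mem' := fun _ => rfl
  add_mem' := fun {f g} hf hg x => by
    simp only [ContinuousMap.add_apply]
    rw [hf x, hg x]
  smul_mem' := fun a f hf x => by
    simp only [ContinuousMap.smul_apply]
    rw [hf x]

variable [LinearOrder I]

theorem const_of (b : ∀ i, K i) [∀ i, CompactSpace (K i)] (A : Set I) (hA : IsLowerSet A)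
    (f : C(∀ i, K i, W)) (h : ∀ j ∈ A, ∀ x, f (ret b (Set.Iic j) x) = f b) (x : ∀ i, K i) :
    f (ret b A x) = f b := by
  by_contra hne
  obtain ⟨F, hF, hdep⟩ := finite_dep f _ (norm_pos_iff.2 (sub_ne_zero.2 hne))
  rcases (F ∩ A).eq_empty_or_nonempty with he | he
  · refine lt_irrefl _ (hdep (ret b A x) b fun i hi => ?_)
    refine ret_of_notMem b A x i fun hiA => ?_
    have : i ∈ F ∩ A := ⟨hi, hiA⟩
    rw [he] at this
    exact this
  · obtain ⟨j, hj, hmax⟩ := Set.exists_max_image (F ∩ A) id (hF.subset Set.inter_subset_left) he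
    have := hdep (ret b A x) (ret b (Set.Iic j) x) fun i hi => by
      by_cases hiA : i ∈ A
      · rw [ret_of_mem b A x i hiA, ret_of_mem b _ x i (hmax i ⟨hi, hiA⟩)]
      · rw [ret_of_notMem b A x i hiA, ret_of_notMem b _ x i fun hij => hiA (hA (show i ≤ j from hij) hj.2)]
    rw [h j hj.2 x] at this
    exact lt_irrefl _ this

theorem const_of_jumps (b : ∀ i, K i) [∀ i, CompactSpace (K i)] [WellFoundedLT I] (A : Set I)
    (hA : IsLowerSet A) (f : C(∀ i, K i, W))
    (h : ∀ j ∈ A, ∀ x, f (ret b (Set.Iic j) x) = f (ret b (Set.Iio j) x)) (x : ∀ i, K i) :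
    f (ret b A x) = f b := by
  have key : ∀ j, j ∈ A → ∀ x, f (ret b (Set.Iic j) x) = f b := by
    intro j
    induction j using WellFoundedLT.induction with
    | ind j ih =>
      intro hj x
      rw [h j hj x]
      exact const_of b (Set.Iio j) (isLowerSet_Iio j) f
        (fun j' hj' x => ih j' hj' (hA (le_of_lt hj') hj) x) x
  exact const_of b A hA f key x

theorem finite_jumps' (b : ∀ i, K i) [∀ i, CompactSpace (K i)] (f : C(∀ i, K i, W)) (ε : ℝ)
    (hε : 0 < ε) :
    {j | ε ≤ ‖f.comp (ret b (Set.Iic j)) - f.comp (ret b (Set.Iio j))‖}.Finite := by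
  obtain ⟨F, hF, hdep⟩ := finite_dep f (ε / 2) (half_pos hε)
  refine hF.subset fun j hj => ?_
  by_contra hjF
  have h1 : ‖f.comp (ret b (Set.Iic j)) - f.comp (ret b (Set.Iio j))‖ ≤ ε / 2 := by
    rw [ContinuousMap.norm_le _ (half_pos hε).le]
    intro x
    refine (hdep (ret b (Set.Iic j) x) (ret b (Set.Iio j) x) fun i hi => ?_).le
    have hij : i ≠ j := fun h => hjF (h ▸ hi)
    by_cases h : i < j
    · rw [ret_of_mem b _ x i (show i ∈ Set.Iic j from h.le), ret_of_mem b _ x i (show i ∈ Set.Iio j from h)]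
    · rw [ret_of_notMem b _ x i (show i ∉ Set.Iic j from fun h' => h (lt_of_le_of_ne h' hij)),
        ret_of_notMem b _ x i (show i ∉ Set.Iio j from h)]
  have h2 : ε ≤ ‖f.comp (ret b (Set.Iic j)) - f.comp (ret b (Set.Iio j))‖ := hj
  linarith

/-- The limit step. -/
theorem step_limit {N : Type*} (b : ∀ i, K i) [∀ i, CompactSpace (K i)] [WellFoundedLT I]
    (hW : NoFam N W) (A : Set I) (hA : IsLowerSet A) (hQ : ∀ j ∈ A, NoFam N (XA W b (Set.Iic j))) :
    NoFam N (XA W b A) := by
  have hmem : ∀ (j : I) (f : C(∀ i, K i, W)),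
      f.comp (ret b (Set.Iic j)) - f.comp (ret b (Set.Iio j)) ∈ XA W b (Set.Iic j) := by
    intro j f x
    simp only [ContinuousMap.sub_apply, ContinuousMap.comp_apply]
    rw [ret_ret b _ _ subset_rfl, ret_ret b _ _ Set.Iio_subset_Iic_self]
  let S : ∀ j : A, (XA W b A →ₗ[ℝ] XA W b (Set.Iic (j : I))) := fun j =>
    { toFun := fun f => ⟨_, hmem j f.1⟩
      map_add' := fun f g => by
        ext x
        change (f.1 + g.1) _ - (f.1 + g.1) _ = _
        simp only [ContinuousMap.add_apply]
        change _ = (f.1 _ - f.1 _) + (g.1 _ - g.1 _)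
        abel
      map_smul' := fun a f => by
        ext x
        change (a • f.1) _ - (a • f.1) _ = _
        simp only [ContinuousMap.smul_apply]
        change _ = a • (f.1 _ - f.1 _)
        rw [smul_sub] }
  let K0 : Submodule ℝ (XA W b A) :=
    { carrier := {f | ∀ x, f.1 x = f.1 b}
      zero_mem' := fun x => rfl
      add_mem' := fun {f g} hf hg x => by
        change f.1 x + g.1 x = f.1 b + g.1 b
        rw [hf x, hg x]
      smul_mem' := fun a f hf x => by
        change a • f.1 x = a • f.1 b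
        rw [hf x] }
  refine operators (W := fun j : A => XA W b (Set.Iic (j : I))) S 2 ?_ (fun j => hQ j j.2)
    (fun _ => Set.univ) ?_ K0 ?_ ?_
  · intro j f
    have h1 : ∀ B : Set I, ‖f.1.comp (ret b B)‖ ≤ ‖f.1‖ := by
      intro B
      rw [ContinuousMap.norm_le _ (norm_nonneg _)]
      intro x
      exact f.1.norm_coe_le_norm _
    calc ‖S j f‖ = ‖f.1.comp (ret b (Set.Iic (j : I))) - f.1.comp (ret b (Set.Iio (j : I)))‖ := rfl
      _ ≤ ‖f.1.comp (ret b (Set.Iic (j : I)))‖ + ‖f.1.comp (ret b (Set.Iio (j : I)))‖ := norm_sub_le _ _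
      _ ≤ ‖f.1‖ + ‖f.1‖ := add_le_add (h1 _) (h1 _)
      _ = 2 * ‖f‖ := by rw [two_mul]; rfl
  · intro i f _
    refine ⟨0, trivial, fun ε hε => ?_⟩
    refine Set.Finite.of_finite_image (f := fun j : A => (j : I))
      ((finite_jumps' b f.1 ε hε).subset ?_) Subtype.val_injective.injOn
    rintro _ ⟨j, ⟨-, hj⟩, rfl⟩
    exact hj
  · intro f hf x
    have h1 := const_of_jumps b A hA f.1 (fun j hj x => by
      have := congrArg (fun g : XA W b (Set.Iic j) => g.1 x) (hf ⟨j, hj⟩)
      change f.1 (ret b (Set.Iic j) x) - f.1 (ret b (Set.Iio j) x) = 0 at this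
      exact sub_eq_zero.1 this) x
    rw [← h1]
    exact (f.2 x).symm
  · let T : K0 →ₗ[ℝ] W :=
      { toFun := fun f => (f.1.1 : C(∀ i, K i, W)) b
        map_add' := fun f g => rfl
        map_smul' := fun a f => rfl }
    have hT : ∀ f : K0, ‖T f‖ = ‖f‖ := by
      intro f
      apply le_antisymm
      · exact f.1.1.norm_coe_le_norm b
      · change ‖f.1.1‖ ≤ ‖f.1.1 b‖
        rw [ContinuousMap.norm_le _ (norm_nonneg _)]
        intro x
        rw [f.2 x]
    exact NoFam.of_embed T 1 1 one_pos (fun x => by rw [hT, one_mul]) (fun x => by rw [hT, one_mul]) hW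

end

section

variable {I : Type*} {K : I → Type*} [∀ i, TopologicalSpace (K i)] {W : Type*}
  [NormedAddCommGroup W] [NormedSpace ℝ W] [LinearOrder I]

/-- The successor step. -/
theorem step_succ {N : Type*} (b : ∀ i, K i) [∀ i, CompactSpace (K i)] (j : I)
    (h : NoFam N C(K j, XA W b (Set.Iio j))) : NoFam N (XA W b (Set.Iic j)) := by
  let φ : C(K j × (∀ i, K i), ∀ i, K i) := ⟨fun p => Function.update (ret b (Set.Iio j) p.2) j p.1,
    ((ret b (Set.Iio j)).continuous.comp continuous_snd).update j continuous_fst⟩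
  have hφ : ∀ k x, φ (k, ret b (Set.Iio j) x) = φ (k, x) := by
    intro k x
    change Function.update (ret b (Set.Iio j) (ret b (Set.Iio j) x)) j k = _
    rw [ret_ret b _ _ subset_rfl]
    rfl
  have hφ2 : ∀ x, φ (x j, x) = ret b (Set.Iic j) x := by
    intro x
    funext i
    change Function.update (ret b (Set.Iio j) x) j (x j) i = _
    by_cases hij : i = j
    · subst hij
      rw [Function.update_self, ret_of_mem b _ x i (show i ∈ Set.Iic i from le_rfl)]
    · rw [Function.update_of_ne hij]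
      by_cases hi : i < j
      · rw [ret_of_mem b _ x i (show i ∈ Set.Iio j from hi), ret_of_mem b _ x i (show i ∈ Set.Iic j from hi.le)]
      · rw [ret_of_notMem b _ x i (show i ∉ Set.Iio j from hi),
          ret_of_notMem b _ x i (show i ∉ Set.Iic j from fun h' => hi (lt_of_le_of_ne h' hij))]
  have hmem : ∀ (f : C(∀ i, K i, W)) (k : K j), (f.comp φ).curry k ∈ XA W b (Set.Iio j) := by
    intro f k x
    change f (φ (k, ret b (Set.Iio j) x)) = f (φ (k, x))
    rw [hφ]
  let T : XA W b (Set.Iic j) →ₗ[ℝ] C(K j, XA W b (Set.Iio j)) :=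
    { toFun := fun f => ⟨fun k => ⟨(f.1.comp φ).curry k, hmem f.1 k⟩,
        ((f.1.comp φ).curry.continuous).subtype_mk _⟩
      map_add' := fun f g => rfl
      map_smul' := fun a f => rfl }
  refine NoFam.of_embed T 1 1 one_pos ?_ ?_ h
  · intro f
    rw [one_mul]
    refine (ContinuousMap.norm_le (f : C(∀ i, K i, W)) (norm_nonneg (T f))).2 fun x => ?_
    have e1 : f.1 x = (T f (x j)).1 x := by
      change f.1 x = f.1 (φ (x j, x))
      rw [hφ2]
      exact (f.2 x).symm
    rw [e1]
    exact ((T f (x j)).1.norm_coe_le_norm x).trans ((T f).norm_coe_le_norm (x j))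
  · intro f
    rw [one_mul, ContinuousMap.norm_le _ (norm_nonneg _)]
    intro k
    change ‖(f.1.comp φ).curry k‖ ≤ ‖f.1‖
    rw [ContinuousMap.norm_le _ (norm_nonneg _)]
    intro x
    exact f.1.norm_coe_le_norm _

end

/-- Arbitrary products. -/
theorem product.{v, u} {N : Type v} {I : Type u} (K : I → Type u) [∀ i, TopologicalSpace (K i)]
    [∀ i, CompactSpace (K i)] (hK : ∀ i, GoodSpace N (K i)) : GoodSpace N (∀ i, K i) := by
  intro W _ _ hW
  have hN : Nonempty N := hW.nonempty
  rcases isEmpty_or_nonempty (∀ i, K i) with hL | ⟨⟨b⟩⟩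
  · exact NoFam.of_subsingleton fun f => by ext x; exact (hL.false x).elim
  · obtain ⟨_, hwf⟩ := exists_wellFoundedLT (α := I)
    have key : ∀ j, NoFam N (XA W b (Set.Iic j)) := by
      intro j
      induction j using WellFoundedLT.induction with
      | ind j ih =>
        apply step_succ b j
        apply hK j
        exact step_limit b hW (Set.Iio j) (isLowerSet_Iio j) fun j' hj' => ih j' hj'
    have h1 := step_limit b hW Set.univ isLowerSet_univ fun j _ => key j
    let T : C(∀ i, K i, W) →ₗ[ℝ] XA W b Set.univ :=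
      { toFun := fun f => ⟨f, fun x => by
          congr 1
          funext i
          exact ret_of_mem b _ x i trivial⟩
        map_add' := fun f g => rfl
        map_smul' := fun a f => rfl }
    exact NoFam.of_embed T 1 1 one_pos (fun x => by rw [one_mul]; rfl)
      (fun x => by rw [one_mul]; rfl) h1

/-- Dense countable unions of continuous images. -/
theorem dense_images.{v, u} {N : Type v} (L : Type u) [TopologicalSpace L] [CompactSpace L]
    (K : ℕ → Type u) [∀ n, TopologicalSpace (K n)] [∀ n, CompactSpace (K n)]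
    (hK : ∀ n, GoodSpace N (K n)) (g : ∀ n, C(K n, L)) (hd : Dense (⋃ n, Set.range (g n))) :
    GoodSpace N L := by
  intro W _ _ hW
  have hN : Nonempty N := hW.nonempty
  let S : ∀ n, (C(L, W) →ₗ[ℝ] C(K n, W)) := fun n =>
    { toFun := fun f => f.comp (g n)
      map_add' := fun f f' => rfl
      map_smul' := fun a f => rfl }
  refine operators S 1 ?_ (fun n => hK n W hW) (fun n => {n}) ?_ ⊥ ?_ ?_
  · intro n f
    rw [one_mul]
    change ‖f.comp (g n)‖ ≤ _
    rw [ContinuousMap.norm_le _ (norm_nonneg _)]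
    intro x
    exact f.norm_coe_le_norm _
  · intro i x _
    refine ⟨i, rfl, fun ε _ => (Set.finite_singleton i).subset ?_⟩
    rintro j ⟨hj, -⟩
    exact hj
  · intro f hf
    rw [Submodule.mem_bot]
    ext x
    have h1 : Set.EqOn f (fun _ => (0 : W)) (⋃ n, Set.range (g n)) := by
      intro y hy
      rw [Set.mem_iUnion] at hy
      obtain ⟨n, z, rfl⟩ := hy
      exact congrArg (fun h : C(K n, W) => h z) (hf n)
    exact congrFun (Continuous.ext_on hd f.continuous continuous_const h1) x
  · exact NoFam.of_subsingleton fun x => Subsingleton.elim _ _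

end Pool.Agent.Helper55.TR
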