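import Pool.Agent.Helper55.TR.Transfer2
import Pool.Agent.Helper55.TR.Prod
set_option autoImplicit false

open scoped Topology BoundedContinuousFunction

namespace Pool.Agent.Helper55.TR

open Pool.Agent.TwoSep

/-- Norms without families are dense among the equivalent norms. -/
theorem NoFam.close {N X : Type*} [NormedAddCommGroup X] [NormedSpace ℝ X] (h : NoFam N X)
    (ε : ℝ) (hε : 0 < ε) :
    ∃ r : Seminorm ℝ X, (∀ x, ‖x‖ ≤ r x) ∧ (∀ x, r x ≤ (1 + ε) * ‖x‖) ∧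
      ¬ ∃ f : N → X, (∀ n, r (f n) = 1) ∧ ∀ n m, n ≠ m → 2 ≤ r (f n - f m) := by
  obtain ⟨⟨n0⟩⟩ := (⟨h.nonempty⟩ : Nonempty (Nonempty N))
  obtain ⟨p, c, hc, h1, h2, h3⟩ := h.normalise
  have hp0 : ∀ x, 0 ≤ p x := fun x => apply_nonneg _ _
  let F : X → ℝ := fun x => √(‖x‖ ^ 2 + (ε * p x) ^ 2)
  have htri : ∀ x y, F (x + y) ≤ F x + F y := by
    intro x y
    refine le_trans (Real.sqrt_le_sqrt ?_) (mink ‖x‖ (ε * p x) ‖y‖ (ε * p y))
    have e1 : ‖x + y‖ ^ 2 ≤ (‖x‖ + ‖y‖) ^ 2 :=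
      pow_le_pow_left₀ (norm_nonneg _) (norm_add_le x y) 2
    have e2 : (ε * p (x + y)) ^ 2 ≤ (ε * p x + ε * p y) ^ 2 := by
      refine pow_le_pow_left₀ (mul_nonneg hε.le (hp0 _)) ?_ 2
      rw [← mul_add]
      exact mul_le_mul_of_nonneg_left (map_add_le_add p x y) hε.le
    linarith
  have hsmul : ∀ (a : ℝ) (x : X), F (a • x) = ‖a‖ * F x := by
    intro a x
    have e1 : ‖a • x‖ ^ 2 + (ε * p (a • x)) ^ 2 = ‖a‖ ^ 2 * (‖x‖ ^ 2 + (ε * p x) ^ 2) := by
      rw [norm_smul, map_smul_eq_mul]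
      ring
    change √(‖a • x‖ ^ 2 + (ε * p (a • x)) ^ 2) = _
    rw [e1, Real.sqrt_mul (sq_nonneg _), Real.sqrt_sq (norm_nonneg _)]
  refine ⟨Seminorm.of F htri hsmul, ?_, ?_, ?_⟩
  · intro x
    change ‖x‖ ≤ √(‖x‖ ^ 2 + (ε * p x) ^ 2)
    refine Real.le_sqrt_of_sq_le ?_
    nlinarith [sq_nonneg (ε * p x)]
  · intro x
    change √(‖x‖ ^ 2 + (ε * p x) ^ 2) ≤ (1 + ε) * ‖x‖
    refine Real.sqrt_le_iff.2 ⟨by positivity, ?_⟩
    have e1 : (ε * p x) ^ 2 ≤ (ε * ‖x‖) ^ 2 :=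
      pow_le_pow_left₀ (mul_nonneg hε.le (hp0 _)) (mul_le_mul_of_nonneg_left (h2 x) hε.le) 2
    nlinarith [norm_nonneg x, mul_nonneg hε.le (mul_nonneg (norm_nonneg x) (norm_nonneg x))]
  · rintro ⟨f, hf1, hf2⟩
    have hsq : ∀ n, ‖f n‖ ^ 2 + (ε * p (f n)) ^ 2 = 1 := by
      intro n
      have e1 : √(‖f n‖ ^ 2 + (ε * p (f n)) ^ 2) = 1 := hf1 n
      have e2 : (0 : ℝ) ≤ ‖f n‖ ^ 2 + (ε * p (f n)) ^ 2 := by positivity
      rw [← Real.sq_sqrt e2, e1, one_pow]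
    have hpair : ∀ n m, n ≠ m → ε * p (f n) = ε * p (f m) ∧ ε * p (f n - f m) = 2 * (ε * p (f n)) := by
      intro n m hnm
      have e1 : 2 ≤ √(‖f n - f m‖ ^ 2 + (ε * p (f n - f m)) ^ 2) := hf2 n m hnm
      have e2 : (0 : ℝ) ≤ ‖f n - f m‖ ^ 2 + (ε * p (f n - f m)) ^ 2 := by positivity
      have e3 : 4 ≤ ‖f n - f m‖ ^ 2 + (ε * p (f n - f m)) ^ 2 := by
        rw [← Real.sq_sqrt e2]
        nlinarith
      obtain ⟨g1, g2, g3, g4⟩ := eq_case (norm_nonneg (f n)) (mul_nonneg hε.le (hp0 (f n)))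
        (norm_nonneg (f m)) (mul_nonneg hε.le (hp0 (f m))) (norm_nonneg (f n - f m))
        (mul_nonneg hε.le (hp0 (f n - f m))) (hsq n) (hsq m) (norm_sub_le _ _)
        (by rw [← mul_add]; exact mul_le_mul_of_nonneg_left (map_sub_le_add p _ _) hε.le) e3
      exact ⟨g2, g4⟩
    have hb : ∀ n, p (f n) = p (f n0) := by
      intro n
      by_cases h : n = n0
      · rw [h]
      · exact mul_left_cancel₀ hε.ne' (hpair n n0 h).1
    have hpos : 0 < p (f n0) := by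
      refine lt_of_le_of_ne (hp0 _) fun h0 => ?_
      have e1 := h1 (f n0)
      rw [← h0] at e1
      have e2 : ‖f n0‖ = 0 := by
        refine le_antisymm ?_ (norm_nonneg _)
        by_contra hcon
        have := mul_pos hc (not_le.1 hcon)
        linarith
      have e3 := hsq n0
      rw [e2, ← h0] at e3
      norm_num at e3
    apply h3
    refine ⟨fun n => (p (f n0))⁻¹ • f n, ?_, ?_⟩
    · intro n
      rw [map_smul_eq_mul, hb n, norm_inv, Real.norm_of_nonneg hpos.le, inv_mul_cancel₀ hpos.ne']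
    · intro n m hnm
      have e1 : p (f n - f m) = 2 * p (f n0) := by
        have := (hpair n m hnm).2
        rw [hb n] at this
        apply mul_left_cancel₀ hε.ne'
        rw [this]
        ring
      rw [← smul_sub, map_smul_eq_mul, e1, norm_inv, Real.norm_of_nonneg hpos.le]
      have : (p (f n0))⁻¹ * (2 * p (f n0)) = 2 := by field_simp
      rw [this]

/-- Operator form of the transfer theorem: one isolated top. -/
theorem operators2 {N X I : Type*} {W : I → Type*} [NormedAddCommGroup X] [NormedSpace ℝ X]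
    [∀ i, NormedAddCommGroup (W i)] [∀ i, NormedSpace ℝ (W i)] (S : ∀ i, X →ₗ[ℝ] W i)
    (C : ℝ) (hC : ∀ i x, ‖S i x‖ ≤ C * ‖x‖) (hW : ∀ i, NoFam N (W i)) (J : ℕ → Set I)
    (K : Submodule ℝ X)
    (hJ : ∀ x, x ∉ K → ∃ (n : ℕ) (η : ℝ), 0 ≤ η ∧ {j ∈ J n | η < ‖S j x‖}.Finite ∧
      {j ∈ J n | η < ‖S j x‖}.Nonempty)
    (hNK : NoFam N K) : NoFam N X := by
  choose r h1 h2 h3 using fun (t : I × ℕ) => (hW t.1).close (1 / ((t.2 : ℝ) + 1)) (by positivity)
  have hC' : ∀ i x, ‖S i x‖ ≤ |C| * ‖x‖ := fun i x =>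
    (hC i x).trans (mul_le_mul_of_nonneg_right (le_abs_self _) (norm_nonneg _))
  refine transfer2 (fun t : I × ℕ => (r t).comp (S t.1)) (2 * |C|) ?_ ?_
    (fun n => {t | t.1 ∈ J (Nat.unpair n).1 ∧ t.2 = (Nat.unpair n).2}) K ?_ hNK
  · intro t x
    refine (h2 t _).trans ?_
    have e1 : 1 / ((t.2 : ℝ) + 1) ≤ 1 := by
      rw [div_le_one (by positivity)]
      have : (0 : ℝ) ≤ t.2 := by positivity
      linarith
    have e2 := hC' t.1 x
    nlinarith [norm_nonneg (S t.1 x)]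
  · rintro t ⟨f, hf1, hf2⟩
    refine h3 t ⟨fun n => S t.1 (f n), hf1, fun n m hnm => ?_⟩
    rw [← map_sub]
    exact hf2 n m hnm
  · intro x hx
    obtain ⟨n, η, hη, hfin, hne⟩ := hJ x hx
    obtain ⟨j0, hj0, hmax⟩ := hfin.exists_maximalFor (fun j => ‖S j x‖) _ hne
    have hgap : η < ‖S j0 x‖ := hj0.2
    obtain ⟨m, hm⟩ := exists_nat_gt (η / (‖S j0 x‖ - η))
    have hd : 0 < ‖S j0 x‖ - η := sub_pos.2 hgap
    rw [div_lt_iff₀ hd] at hm
    have hm1 : (0 : ℝ) < (m : ℝ) + 1 := by positivity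
    have hη' : (1 + 1 / ((m : ℝ) + 1)) * η < ‖S j0 x‖ := by
      have e1 : η < ((m : ℝ) + 1) * (‖S j0 x‖ - η) := by nlinarith
      have e2 : 1 / ((m : ℝ) + 1) * η < ‖S j0 x‖ - η := by
        rw [one_div, inv_mul_lt_iff₀ hm1]
        exact e1
      linarith
    refine ⟨Nat.pair n m, (1 + 1 / ((m : ℝ) + 1)) * η, by positivity, ?_, ?_⟩
    · rw [Nat.unpair_pair]
      refine (hfin.image (fun j => (j, m))).subset ?_
      rintro ⟨j, k⟩ ⟨⟨hj1, hj2⟩, hj3⟩
      dsimp only at hj1 hj2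
      subst hj2
      refine ⟨j, ⟨hj1, ?_⟩, rfl⟩
      change (1 + 1 / ((k : ℝ) + 1)) * η < r (j, k) (S j x) at hj3
      have e1 : r (j, k) (S j x) ≤ (1 + 1 / ((k : ℝ) + 1)) * ‖S j x‖ := h2 (j, k) (S j x)
      have e2 : (0 : ℝ) < 1 + 1 / ((k : ℝ) + 1) := by positivity
      exact lt_of_mul_lt_mul_left (lt_of_lt_of_le hj3 e1) e2.le
    · rw [Nat.unpair_pair]
      refine ⟨(j0, m), ⟨hj0.1, rfl⟩, ?_⟩
      change (1 + 1 / ((m : ℝ) + 1)) * η < r (j0, m) (S j0 x)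
      exact lt_of_lt_of_le hη' (h1 (j0, m) _)

/-- The general closure theorem for compact spaces. -/
theorem images.{v, u} {N : Type v} (L : Type u) [TopologicalSpace L] [CompactSpace L] (I : Type u)
    (K : I → Type u) [∀ i, TopologicalSpace (K i)] [∀ i, CompactSpace (K i)]
    (hK : ∀ i, GoodSpace N (K i)) (g : ∀ i, C(K i, L)) (J : ℕ → Set I)
    (hJ : ∀ h : C(L, ℝ), (∀ x, 0 ≤ h x) → h ≠ 0 → ∃ (n : ℕ) (η : ℝ), 0 ≤ η ∧
      {i ∈ J n | ∃ x, η < h (g i x)}.Finite ∧ {i ∈ J n | ∃ x, η < h (g i x)}.Nonempty) :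
    GoodSpace N L := by
  intro W _ _ hW
  have hN : Nonempty N := hW.nonempty
  let S : ∀ i, (C(L, W) →ₗ[ℝ] C(K i, W)) := fun i =>
    { toFun := fun f => f.comp (g i)
      map_add' := fun f f' => rfl
      map_smul' := fun a f => rfl }
  refine operators2 S 1 ?_ (fun n => hK n W hW) J ⊥ ?_ (NoFam.of_subsingleton fun x => Subsingleton.elim _ _)
  · intro n f
    rw [one_mul]
    change ‖f.comp (g n)‖ ≤ _
    rw [ContinuousMap.norm_le _ (norm_nonneg _)]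
    intro x
    exact f.norm_coe_le_norm _
  · intro f hf
    let h : C(L, ℝ) := ⟨fun x => ‖f x‖, continuous_norm.comp f.continuous⟩
    have hh : h ≠ 0 := by
      intro h0
      apply hf
      rw [Submodule.mem_bot]
      ext x
      have : ‖f x‖ = 0 := congrArg (fun k : C(L, ℝ) => k x) h0
      exact norm_eq_zero.1 this
    obtain ⟨n, η, hη, hfin, hne⟩ := hJ h (fun x => norm_nonneg (f x)) hh
    have heq : {j ∈ J n | η < ‖S j f‖} = {i ∈ J n | ∃ x, η < h (g i x)} := by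
      ext i
      simp only [Set.mem_setOf_eq]
      refine and_congr_right fun _ => ?_
      change η < ‖f.comp (g i)‖ ↔ ∃ x, η < ‖f (g i x)‖
      constructor
      · intro hlt
        by_contra hcon
        push Not at hcon
        exact absurd ((ContinuousMap.norm_le (f.comp (g i)) hη).2 hcon) (not_le.2 hlt)
      · rintro ⟨x, hx⟩
        exact lt_of_lt_of_le hx ((f.comp (g i)).norm_coe_le_norm x)
    exact ⟨n, η, hη, by rw [heq]; exact hfin, by rw [heq]; exact hne⟩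

end Pool.Agent.Helper55.TR
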