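import Pool.Agent.Helper55.TR.Cor
set_option autoImplicit false

open scoped Topology BoundedContinuousFunction

namespace Pool.Agent.Helper55.TR

variable {α W : Type*} [LinearOrder α] [TopologicalSpace α] [OrderTopology α] [WellFoundedLT α]
  [NormedAddCommGroup W] [NormedSpace ℝ W]

theorem iic_mem_nhds (x : α) : Set.Iic x ∈ 𝓝 x := by
  by_cases h : ∃ y, x < y
  · set y := WellFounded.min (wellFounded_lt (α := α)) {y | x < y} h with hy
    have hxy : x < y := WellFounded.min_mem wellFounded_lt {y | x < y} h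
    refine Filter.mem_of_superset (Iio_mem_nhds hxy) ?_
    intro z hz
    by_contra hcon
    exact WellFounded.not_lt_min wellFounded_lt {y | x < y} (not_le.1 hcon) hz
  · push Not at h
    exact Filter.mem_of_superset Filter.univ_mem fun z _ => h z

/-- Left neighbourhoods on which a continuous function varies little. -/
theorem left_nhds (f : C(α, W)) (x : α) (ε : ℝ) (hε : 0 < ε) :
    {z | z ≤ x ∧ ∀ y, z ≤ y → y ≤ x → ‖f y - f x‖ < ε} ∈ 𝓝 x := by
  have h1 : {y | ‖f y - f x‖ < ε} ∈ 𝓝 x := by
    have := f.continuous.continuousAt.eventually (Metric.ball_mem_nhds (f x) hε)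
    filter_upwards [this] with y hy
    rwa [← dist_eq_norm]
  by_cases h : ∃ l, l < x
  · obtain ⟨l, hl, hs⟩ := exists_Ioc_subset_of_mem_nhds h1 h
    filter_upwards [iic_mem_nhds x, Ioi_mem_nhds hl] with z hz1 hz2
    exact ⟨hz1, fun y hy1 hy2 => hs ⟨lt_of_lt_of_le hz2 hy1, hy2⟩⟩
  · push Not at h
    filter_upwards [iic_mem_nhds x] with z hz1
    refine ⟨hz1, fun y _ hy2 => ?_⟩
    rw [le_antisymm hy2 (h y), sub_self, norm_zero]
    exact hε

/-- Only finitely many large jumps. -/
theorem finite_jumps [CompactSpace α] (f : C(α, W)) (ε : ℝ) (hε : 0 < ε) :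
    {i : {i : α × α // i.1 ⋖ i.2} | ε ≤ ‖f i.1.2 - f i.1.1‖}.Finite := by
  obtain ⟨t, ht⟩ := CompactSpace.elim_nhds_subcover _
    (fun x => left_nhds f x (ε / 2) (half_pos hε))
  have hinj : Set.InjOn (fun i : {i : α × α // i.1 ⋖ i.2} => i.1.1)
      {i : {i : α × α // i.1 ⋖ i.2} | ε ≤ ‖f i.1.2 - f i.1.1‖} := by
    rintro ⟨⟨a, b⟩, h1⟩ - ⟨⟨a', b'⟩, h2⟩ - h
    dsimp only at h h1 h2
    subst h
    have : b = b' := h1.unique_right h2
    subst this
    rfl
  refine Set.Finite.of_finite_image (t.finite_toSet.subset ?_) hinj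
  rintro _ ⟨⟨⟨a, b⟩, hab⟩, hi, rfl⟩
  dsimp only at hi ⊢
  have ha : a ∈ ⋃ x ∈ t, {z | z ≤ x ∧ ∀ y, z ≤ y → y ≤ x → ‖f y - f x‖ < ε / 2} := by
    rw [ht]; trivial
  simp only [Set.mem_iUnion] at ha
  obtain ⟨x, hx, hax, hy⟩ := ha
  rcases eq_or_lt_of_le hax with h | h
  · rw [h]; exact hx
  · exfalso
    have hbx : b ≤ x := hab.ge_of_gt h
    have e1 := hy a le_rfl hax
    have e2 := hy b hab.lt.le hbx
    have e3 : ‖f b - f a‖ ≤ ‖f b - f x‖ + ‖f a - f x‖ := by
      have : f b - f a = (f b - f x) - (f a - f x) := by abel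
      rw [this]
      exact norm_sub_le _ _
    have hi' : ε ≤ ‖f b - f a‖ := hi
    linarith

/-- A continuous function without jumps is constant. -/
theorem const_of_no_jumps (f : C(α, W)) (h : ∀ a b, a ⋖ b → f b = f a) (x y : α) : f x = f y := by
  have key : ∀ x, ∀ y, y ≤ x → f x = f y := by
    intro x
    induction x using WellFoundedLT.induction with
    | ind x ih =>
      intro y hy
      rcases eq_or_lt_of_le hy with h1 | h1
      · rw [h1]
      · by_contra hne
        have hpos : 0 < ‖f y - f x‖ := norm_pos_iff.2 (sub_ne_zero.2 (_root_.Ne.symm hne))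
        obtain ⟨l, hl, hs⟩ := exists_Ioc_subset_of_mem_nhds
          (Filter.inter_mem (left_nhds f x _ hpos) (Ioi_mem_nhds h1)) ⟨y, h1⟩
        -- is there a point strictly between `max l y` and `x`?
        by_cases hz : ∃ z, max l y < z ∧ z < x
        · obtain ⟨z, hz1, hz2⟩ := hz
          have e1 := (hs ⟨lt_of_le_of_lt (le_max_left _ _) hz1, hz2.le⟩).1.2 z le_rfl hz2.le
          have e2 := ih z hz2 y (lt_of_le_of_lt (le_max_right _ _) hz1).le
          rw [e2] at e1
          exact lt_irrefl _ e1
        · push Not at hz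
          have hcov : max l y ⋖ x := by
            refine ⟨max_lt hl h1, fun z hz1 hz2 => ?_⟩
            exact absurd hz2 (not_lt.2 (hz z hz1))
          have e1 := h _ _ hcov
          have e2 := ih (max l y) hcov.lt y (le_max_right _ _)
          exact hne (e1.trans e2)
  rcases le_total y x with h1 | h1
  · exact key x y h1
  · exact (key y x h1).symm

/-- Continuous functions on a compact well-ordered space. -/
theorem ordinal_space {N : Type*} [CompactSpace α] (hW : NoFam N W) : NoFam N C(α, W) := by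
  have hN : Nonempty N := hW.nonempty
  rcases isEmpty_or_nonempty α with hL | ⟨⟨x0⟩⟩
  · exact NoFam.of_subsingleton fun f => by ext x; exact (hL.false x).elim
  · let S : {i : α × α // i.1 ⋖ i.2} → (C(α, W) →ₗ[ℝ] W) := fun i =>
      { toFun := fun f => f i.1.2 - f i.1.1
        map_add' := fun f g => by simp only [ContinuousMap.add_apply]; abel
        map_smul' := fun a f => by
          simp only [ContinuousMap.smul_apply, RingHom.id_apply, smul_sub] }
    let K : Submodule ℝ C(α, W) :=
      { carrier := {f | ∀ x, f x = f x0}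
        zero_mem' := fun x => rfl
        add_mem' := fun {f g} hf hg x => by
          simp only [ContinuousMap.add_apply]
          rw [hf x, hg x]
        smul_mem' := fun a f hf x => by
          simp only [ContinuousMap.smul_apply]
          rw [hf x] }
    refine operators (W := fun _ => W) S 2 ?_ (fun _ => hW) (fun _ => Set.univ) ?_ K ?_ ?_
    · intro i f
      calc ‖f i.1.2 - f i.1.1‖ ≤ ‖f i.1.2‖ + ‖f i.1.1‖ := norm_sub_le _ _
        _ ≤ ‖f‖ + ‖f‖ := add_le_add (f.norm_coe_le_norm _) (f.norm_coe_le_norm _)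
        _ = 2 * ‖f‖ := by ring
    · intro i f _
      refine ⟨0, trivial, fun ε hε => (finite_jumps f ε hε).subset ?_⟩
      rintro j ⟨-, hj⟩
      exact hj
    · intro f hf x
      refine const_of_no_jumps f (fun a b hab => ?_) x x0
      exact sub_eq_zero.1 (hf ⟨(a, b), hab⟩)
    · let T : K →ₗ[ℝ] W :=
        { toFun := fun f => (f : C(α, W)) x0
          map_add' := fun f g => rfl
          map_smul' := fun a f => rfl }
      have hT : ∀ f : K, ‖T f‖ = ‖f‖ := by
        intro f
        apply le_antisymm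
        · exact (f : C(α, W)).norm_coe_le_norm x0
        · change ‖(f : C(α, W))‖ ≤ ‖(f : C(α, W)) x0‖
          rw [ContinuousMap.norm_le _ (norm_nonneg _)]
          intro x
          rw [f.2 x]
      exact NoFam.of_embed T 1 1 one_pos (fun x => by rw [hT, one_mul]) (fun x => by rw [hT, one_mul]) hW

end Pool.Agent.Helper55.TR
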