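import Pool.Agent.Helper55.TR.Val2
set_option autoImplicit false

open scoped Topology BoundedContinuousFunction

namespace Pool.Agent.Helper55.TR

/-- Separable compact spaces. -/
theorem separable_good.{v, u} {N : Type v} (K : Type u) [TopologicalSpace K] [CompactSpace K]
    [TopologicalSpace.SeparableSpace K] : GoodSpace N K := by
  intro W _ _ hW
  let T : C(K, W) →ₗ[ℝ] (K →ᵇ W) :=
    { toFun := fun f => BoundedContinuousFunction.mkOfCompact f
      map_add' := fun f g => rfl
      map_smul' := fun a f => rfl }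
  have hT : ∀ f, ‖T f‖ = ‖f‖ := fun f => BoundedContinuousFunction.norm_mkOfCompact f
  exact NoFam.of_embed T 1 1 one_pos (fun x => by rw [hT, one_mul]) (fun x => by rw [hT, one_mul])
    (separable_bcf hW)

/-- Compact spaces with a function to the rationals which has a strict local maximum at every point
(scattered spaces of countable height, special trees with a point at infinity). -/
theorem rank_good.{v, u} {N : Type v} (K : Type u) [TopologicalSpace K] [CompactSpace K]
    (r : K → ℚ) (hr : ∀ x, ∀ᶠ y in 𝓝[≠] x, r y < r x) : GoodSpace N K := by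
  classical
  have hpt : GoodSpace N PUnit.{u + 1} := separable_good _
  obtain ⟨e, he⟩ := exists_injective_nat ℚ
  refine images K K (fun _ => PUnit.{u + 1}) (fun _ => hpt)
    (fun x => ⟨fun _ => x, continuous_const⟩) (fun n => {x | e (r x) = n}) ?_
  intro h h0 hne
  have hKne : Nonempty K := by
    by_contra hcon
    rw [not_nonempty_iff] at hcon
    exact hne (by ext x; exact (hcon.false x).elim)
  obtain ⟨xm, -, hxm⟩ := isCompact_univ.exists_isMaxOn (f := h) Set.univ_nonempty
    h.continuous.continuousOn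
  have hmax : ∀ x, h x ≤ h xm := fun x => hxm (Set.mem_univ x)
  have hpos : 0 < h xm := by
    refine lt_of_le_of_ne (h0 xm) fun h1 => hne ?_
    ext x
    exact le_antisymm (by change h x ≤ (0 : ℝ); rw [h1]; exact hmax x) (h0 x)
  -- the neighbourhoods
  have hU : ∀ x : K, ∃ U : Set K, IsOpen U ∧ x ∈ U ∧ ∀ y ∈ U, y ≠ x → r y < r x := by
    intro x
    have h1 := hr x
    rw [eventually_nhdsWithin_iff, eventually_nhds_iff] at h1
    obtain ⟨U, h2, h3, h4⟩ := h1
    exact ⟨U, h3, h4, fun y hy hyx => h2 y hy hyx⟩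
  choose U hU1 hU2 hU3 using hU
  set H : Set K := {x | h x = h xm} with hH
  have hHc : IsCompact H := (isClosed_eq h.continuous continuous_const).isCompact
  obtain ⟨T, hTH, hTcov⟩ := hHc.elim_nhds_subcover U fun x _ => (hU1 x).mem_nhds (hU2 x)
  have hTne : T.Nonempty := by
    have : xm ∈ ⋃ x ∈ T, U x := hTcov (show h xm = h xm from rfl)
    simp only [Set.mem_iUnion] at this
    obtain ⟨x, hx, -⟩ := this
    exact ⟨x, hx⟩
  obtain ⟨x1, hx1, hx1max⟩ := T.exists_max_image r hTne
  have hx1H : h x1 = h xm := hTH x1 hx1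
  set V : Set K := ⋃ x ∈ T, U x with hV
  have hVo : IsOpen V := isOpen_biUnion fun x _ => hU1 x
  -- the second value
  obtain ⟨η, hη0, hη1, hη2⟩ : ∃ η, 0 ≤ η ∧ η < h xm ∧ ∀ x, x ∉ V → h x ≤ η := by
    by_cases hVc : (Vᶜ).Nonempty
    · obtain ⟨z, hz, hzm⟩ := hVo.isClosed_compl.isCompact.exists_isMaxOn (f := h) hVc
        h.continuous.continuousOn
      refine ⟨h z, h0 z, lt_of_le_of_ne (hmax z) fun h1 => hz (hTcov h1), fun x hx => hzm hx⟩
    · refine ⟨0, le_rfl, hpos, fun x hx => absurd ⟨x, hx⟩ hVc⟩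
  refine ⟨e (r x1), η, hη0, ?_, ?_⟩
  · refine (T.finite_toSet).subset ?_
    rintro y ⟨hy1, x', hy2⟩
    change η < h y at hy2
    have hyr : r y = r x1 := he hy1
    have hyV : y ∈ V := by
      by_contra hcon
      exact absurd (hη2 y hcon) (not_le.2 hy2)
    rw [hV] at hyV
    simp only [Set.mem_iUnion] at hyV
    obtain ⟨x, hx, hyx⟩ := hyV
    by_cases hyx' : y = x
    · rw [hyx']; exact hx
    · have h2 := hU3 x y hyx hyx'
      have h3 := hx1max x hx
      rw [hyr] at h2
      exact absurd h3 (not_le.2 h2)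
  · exact ⟨x1, rfl, PUnit.unit, by change η < h x1; rw [hx1H]; exact hη1⟩

end Pool.Agent.Helper55.TR
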