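import Pool.Agent.Helper55.TR.Defs
set_option autoImplicit false

open scoped Topology Pointwise

/-! A norm-free characterisation of `NoFam`, by countably many families of open half-spaces. -/

namespace Pool.Agent.Helper55.TR

section gauge

variable {X : Type*} [NormedAddCommGroup X] [NormedSpace ℝ X]

/-- From an even convex function to an equivalent norm. -/
theorem gauge_norm (θ : X → ℝ) (hconv : ∀ (a b : ℝ) (x y : X), 0 ≤ a → 0 ≤ b → a + b = 1 →
      θ (a • x + b • y) ≤ a * θ x + b * θ y)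
    (heven : ∀ x, θ (-x) = θ x) (hlow : ∀ x, ‖x‖ ^ 2 ≤ θ x) (B : ℝ) (hB : ∀ x, ‖x‖ ≤ 1 → θ x ≤ B) :
    ∃ (p : Seminorm ℝ X) (c C R : ℝ), 0 < c ∧ (∀ x, c * ‖x‖ ≤ p x) ∧ (∀ x, p x ≤ C * ‖x‖) ∧
      (∀ x, p x = 1 → θ x = R) ∧ ∀ x, 1 ≤ p x → R ≤ θ x := by
  set R : ℝ := θ 0 + 1 with hR
  have h00 : 0 ≤ θ 0 := by
    have := hlow 0
    simpa using this
  have hB0 : 0 ≤ B := h00.trans (hB 0 (by simp))
  have hR0 : 0 < R := by linarith
  set s : Set X := {x | θ x ≤ R} with hs
  have hsconv : Convex ℝ s := by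
    intro x hx y hy a b ha hb hab
    change θ (a • x + b • y) ≤ R
    have h1 : θ x ≤ R := hx
    have h2 : θ y ≤ R := hy
    refine (hconv a b x y ha hb hab).trans ?_
    nlinarith
  have hsbal : Balanced ℝ s := by
    intro a ha
    rintro _ ⟨x, hx, rfl⟩
    change θ (a • x) ≤ R
    have hx' : θ x ≤ R := hx
    have hab := abs_le.1 (show |a| ≤ 1 from ha)
    have h1 := hconv ((1 + a) / 2) ((1 - a) / 2) x (-x) (by linarith) (by linarith) (by ring)
    have h2 : ((1 + a) / 2) • x + ((1 - a) / 2) • (-x) = a • x := by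
      rw [smul_neg, ← sub_eq_add_neg, ← sub_smul]
      congr 1
      ring
    rw [h2, heven] at h1
    refine h1.trans ?_
    have h3 : (1 + a) / 2 * θ x + (1 - a) / 2 * θ x = θ x := by ring
    rw [h3]
    exact hx'
  -- a ball inside
  set δ : ℝ := 1 / (B + 1) with hδ
  have hδ0 : 0 < δ := by positivity
  have hδ1 : δ ≤ 1 := by
    rw [hδ, div_le_one (by linarith)]
    linarith
  have hball : ∀ x, ‖x‖ ≤ δ → θ x ≤ R := by
    intro x hx
    by_cases h0 : x = 0
    · rw [h0, hR]
      linarith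
    have hn : 0 < ‖x‖ := norm_pos_iff.2 h0
    have h1 := hconv (1 - ‖x‖) ‖x‖ 0 (‖x‖⁻¹ • x) (by linarith) hn.le (by ring)
    have h2 : (1 - ‖x‖) • (0 : X) + ‖x‖ • (‖x‖⁻¹ • x) = x := by
      rw [smul_zero, zero_add, smul_smul, mul_inv_cancel₀ hn.ne', one_smul]
    rw [h2] at h1
    have h3 : θ (‖x‖⁻¹ • x) ≤ B := by
      apply hB
      rw [norm_smul, norm_inv, norm_norm, inv_mul_cancel₀ hn.ne']
    have h4 : ‖x‖ * B ≤ 1 := by
      have : ‖x‖ * (B + 1) ≤ 1 := by
        have := mul_le_mul_of_nonneg_right hx (show (0 : ℝ) ≤ B + 1 by linarith)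
        rwa [hδ, one_div, inv_mul_cancel₀ (by linarith)] at this
      nlinarith
    have h5 : ‖x‖ * θ (‖x‖⁻¹ • x) ≤ ‖x‖ * B := mul_le_mul_of_nonneg_left h3 hn.le
    have h6 : (1 - ‖x‖) * θ 0 ≤ θ 0 := by nlinarith
    linarith
  have hsnhds : s ∈ 𝓝 (0 : X) := by
    refine Filter.mem_of_superset (Metric.closedBall_mem_nhds 0 hδ0) fun x hx => ?_
    exact hball x (by simpa using hx)
  have habs : Absorbent ℝ s := absorbent_nhds_zero hsnhds
  set p : Seminorm ℝ X := gaugeSeminorm hsbal hsconv habs with hp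
  have hpg : ∀ x, p x = gauge s x := fun x => rfl
  -- inside
  have hin : ∀ x, θ x < R → p x < 1 := by
    intro x hx
    -- find `t > 1` with `θ (t x) ≤ R`
    obtain ⟨t, ht1, ht2, ht3⟩ : ∃ t : ℝ, 1 < t ∧ t ≤ 2 ∧ θ (t • x) ≤ R := by
      set D : ℝ := |θ ((2 : ℝ) • x)| + 1 with hD
      have hD0 : 0 < D := by positivity
      set e : ℝ := min 1 ((R - θ x) / D) with he
      have he0 : 0 < e := lt_min one_pos (div_pos (by linarith) hD0)
      have he1 : e ≤ 1 := min_le_left _ _
      have he2 : e * D ≤ R - θ x := by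
        have : e ≤ (R - θ x) / D := min_le_right _ _
        rwa [le_div_iff₀ hD0] at this
      refine ⟨1 + e, by linarith, by linarith, ?_⟩
      have h1 := hconv (1 - e) e x ((2 : ℝ) • x) (by linarith) he0.le (by ring)
      have h2 : (1 - e) • x + e • ((2 : ℝ) • x) = (1 + e) • x := by
        rw [smul_smul, ← add_smul]
        congr 1
        ring
      rw [h2] at h1
      have h3 : e * θ ((2 : ℝ) • x) ≤ e * D := by
        apply mul_le_mul_of_nonneg_left _ he0.le
        rw [hD]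
        have := le_abs_self (θ ((2 : ℝ) • x))
        linarith
      have h4 : 0 ≤ θ x := (sq_nonneg _).trans (hlow x)
      nlinarith
    have ht0 : 0 < t := by linarith
    have h1 : x ∈ t⁻¹ • s := by
      refine ⟨t • x, ht3, ?_⟩
      change t⁻¹ • t • x = x
      rw [smul_smul, inv_mul_cancel₀ ht0.ne', one_smul]
    have h2 : gauge s x ≤ t⁻¹ := gauge_le_of_mem (inv_pos.2 ht0).le h1
    rw [hpg]
    exact lt_of_le_of_lt h2 (inv_lt_one_of_one_lt₀ ht1)
  have hout : ∀ x, p x ≤ 1 → θ x ≤ R := by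
    intro x hx
    rw [hpg] at hx
    -- for all `a > 1`, `θ (x / a) ≤ R`
    have h1 : ∀ a : ℝ, 1 < a → θ (a⁻¹ • x) ≤ R := by
      intro a ha
      obtain ⟨b, hb0, hba, y, hy, hyx⟩ := exists_lt_of_gauge_lt habs (lt_of_le_of_lt hx ha)
      have hyx' : b • y = x := hyx
      have h2 : a⁻¹ • x = (b / a) • y := by
        rw [← hyx', smul_smul]
        congr 1
        field_simp
      rw [h2]
      have hba' : b / a ≤ 1 := by
        rw [div_le_one (by linarith)]
        exact hba.le
      have hba0 : 0 ≤ b / a := div_nonneg hb0.le (by linarith)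
      exact hsbal (b / a) (by rw [Real.norm_of_nonneg hba0]; exact hba') ⟨y, hy, rfl⟩
    by_contra hcon
    push Not at hcon
    set D : ℝ := |θ ((2 : ℝ) • x)| + 1 with hD
    have hD0 : 0 < D := by positivity
    -- `e` small
    set e : ℝ := min (1 / 2) ((θ x - R) / (2 * D)) with he
    have he0 : 0 < e := lt_min (by norm_num) (div_pos (by linarith) (by linarith))
    have he1 : e ≤ 1 / 2 := min_le_left _ _
    have he2 : e * (2 * D) ≤ θ x - R := by
      have : e ≤ (θ x - R) / (2 * D) := min_le_right _ _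
      rwa [le_div_iff₀ (by linarith)] at this
    -- `x = (1 - e) • (a⁻¹ • x) + e • (2 • x)` with `(1 - e) / a = 1 - 2 e`
    have ha : 1 < (1 - e) / (1 - 2 * e + e ^ 2) := by
      rw [lt_div_iff₀ (by nlinarith)]
      nlinarith
    have h3 := h1 _ ha
    set a : ℝ := (1 - e) / (1 - 2 * e + e ^ 2) with hadef
    have ha1 : a⁻¹ = 1 - e := by
      rw [hadef, inv_div]
      have : (1 : ℝ) - 2 * e + e ^ 2 = (1 - e) ^ 2 := by ring
      rw [this, pow_two, mul_div_assoc, div_self (by linarith), mul_one]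
    rw [ha1] at h3
    -- coefficients: x = α (1-e) x + (1-α) 2 x, α = 1/(1+e)
    have h4 := hconv (1 / (1 + e)) (e / (1 + e)) ((1 - e) • x) ((2 : ℝ) • x) (by positivity)
      (by positivity) (by field_simp)
    have h5 : (1 / (1 + e)) • ((1 - e) • x) + (e / (1 + e)) • ((2 : ℝ) • x) = x := by
      rw [smul_smul, smul_smul, ← add_smul]
      have : 1 / (1 + e) * (1 - e) + e / (1 + e) * 2 = 1 := by
        field_simp
        ring
      rw [this, one_smul]
    rw [h5] at h4
    have h6 : θ ((2 : ℝ) • x) ≤ D := by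
      rw [hD]
      have := le_abs_self (θ ((2 : ℝ) • x))
      linarith
    have h7 : (1 + e) * θ x ≤ R + e * D := by
      have h8 : (1 + e) * θ x ≤ (1 + e) * (1 / (1 + e) * θ ((1 - e) • x) +
          e / (1 + e) * θ ((2 : ℝ) • x)) := mul_le_mul_of_nonneg_left h4 (by linarith)
      have h9 : (1 + e) * (1 / (1 + e) * θ ((1 - e) • x) + e / (1 + e) * θ ((2 : ℝ) • x)) =
          θ ((1 - e) • x) + e * θ ((2 : ℝ) • x) := by
        field_simp
      rw [h9] at h8
      nlinarith
    have h10 : 0 ≤ θ x := (sq_nonneg _).trans (hlow x)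
    have h11 : 0 < e * D := by positivity
    nlinarith
  refine ⟨p, (√R)⁻¹, δ⁻¹, R, by positivity, ?_, ?_, ?_, ?_⟩
  · intro x
    by_cases hx0 : p x = 0
    · -- then `x = 0`
      have h1 : ∀ t : ℝ, ‖t • x‖ ^ 2 ≤ R := by
        intro t
        refine (hlow _).trans (hout _ ?_)
        rw [map_smul_eq_mul, hx0, mul_zero]
        exact zero_le_one
      have h2 : ‖x‖ = 0 := by
        by_contra hne
        have hpos : 0 < ‖x‖ := lt_of_le_of_ne (norm_nonneg _) (Ne.symm hne)
        have h3 := h1 ((R + 1) / ‖x‖)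
        rw [norm_smul, Real.norm_of_nonneg (by positivity), div_mul_cancel₀ _ hpos.ne'] at h3
        nlinarith
      rw [h2, hx0, mul_zero]
    · have hpos : 0 < p x := lt_of_le_of_ne (apply_nonneg _ _) (Ne.symm hx0)
      have h1 : ‖(p x)⁻¹ • x‖ ^ 2 ≤ R := by
        refine (hlow _).trans (hout _ ?_)
        rw [map_smul_eq_mul, norm_inv, Real.norm_of_nonneg hpos.le, inv_mul_cancel₀ hpos.ne']
      have h2 : ‖(p x)⁻¹ • x‖ ≤ √R := Real.le_sqrt_of_sq_le h1
      rw [norm_smul, norm_inv, Real.norm_of_nonneg hpos.le, inv_mul_le_iff₀ hpos] at h2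
      rw [inv_mul_le_iff₀ (Real.sqrt_pos.2 hR0)]
      linarith
  · intro x
    by_cases h0 : x = 0
    · rw [h0, map_zero, norm_zero, mul_zero]
    have hn : 0 < ‖x‖ := norm_pos_iff.2 h0
    have h1 : x ∈ (‖x‖ / δ) • s := by
      refine ⟨(δ / ‖x‖) • x, hball _ ?_, ?_⟩
      · rw [norm_smul, Real.norm_of_nonneg (by positivity), div_mul_cancel₀ _ hn.ne']
      · change (‖x‖ / δ) • ((δ / ‖x‖) • x) = x
        rw [smul_smul]
        have : ‖x‖ / δ * (δ / ‖x‖) = 1 := by field_simp
        rw [this, one_smul]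
    have h2 := gauge_le_of_mem (by positivity) h1
    rw [hpg, inv_mul_eq_div]
    exact h2
  · intro x hx
    refine le_antisymm (hout x hx.le) ?_
    by_contra hcon
    exact absurd hx (hin x (not_le.1 hcon)).ne
  · intro x hx
    by_contra hcon
    exact absurd hx (not_le.2 (hin x (not_le.1 hcon)))

end gauge

end Pool.Agent.Helper55.TR
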