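import Pool.Agent.Helper55.TR.Slice
set_option autoImplicit false

open scoped Topology

namespace Pool.Agent.Helper55.TR

section

variable {X : Type*} [NormedAddCommGroup X] [NormedSpace ℝ X]

/-- The affine functions, with the zero function added. -/
def aff (V : Set ((X →L[ℝ] ℝ) × ℝ)) (o : Option V) (x : X) : ℝ :=
  o.elim 0 fun u => u.1.1 x - u.1.2

/-- The supremum of the affine functions. -/
noncomputable def phi (V : Set ((X →L[ℝ] ℝ) × ℝ)) (x : X) : ℝ := ⨆ o : Option V, aff V o x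

variable {V : Set ((X →L[ℝ] ℝ) × ℝ)} {m : ℝ}

theorem aff_comb (o : Option V) (a b : ℝ) (hab : a + b = 1) (x y : X) :
    aff V o (a • x + b • y) = a * aff V o x + b * aff V o y := by
  rcases o with _ | u
  · change (0 : ℝ) = a * 0 + b * 0
    ring
  · change u.1.1 (a • x + b • y) - u.1.2 = a * (u.1.1 x - u.1.2) + b * (u.1.1 y - u.1.2)
    rw [map_add, map_smul, map_smul, smul_eq_mul, smul_eq_mul]
    have : b = 1 - a := by linarith
    rw [this]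
    ring

theorem aff_le (hm0 : 0 ≤ m) (hV : ∀ u ∈ V, ‖u.1‖ ≤ m ∧ |u.2| ≤ m) (o : Option V) (x : X) :
    aff V o x ≤ m * (‖x‖ + 1) := by
  rcases o with _ | u
  · change (0 : ℝ) ≤ _
    positivity
  · change u.1.1 x - u.1.2 ≤ _
    obtain ⟨h1, h2⟩ := hV u.1 u.2
    have h3 := u.1.1.le_opNorm x
    have h4 : u.1.1 x ≤ ‖u.1.1 x‖ := le_abs_self _
    have h5 : ‖u.1.1‖ * ‖x‖ ≤ m * ‖x‖ := mul_le_mul_of_nonneg_right h1 (norm_nonneg _)
    have h6 := neg_abs_le u.1.2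
    linarith

theorem aff_bdd (hm0 : 0 ≤ m) (hV : ∀ u ∈ V, ‖u.1‖ ≤ m ∧ |u.2| ≤ m) (x : X) :
    BddAbove (Set.range fun o : Option V => aff V o x) :=
  ⟨_, by rintro _ ⟨o, rfl⟩; exact aff_le hm0 hV o x⟩

theorem phi_nonneg (hm0 : 0 ≤ m) (hV : ∀ u ∈ V, ‖u.1‖ ≤ m ∧ |u.2| ≤ m) (x : X) : 0 ≤ phi V x :=
  le_ciSup (aff_bdd hm0 hV x) none

theorem phi_le (hm0 : 0 ≤ m) (hV : ∀ u ∈ V, ‖u.1‖ ≤ m ∧ |u.2| ≤ m) (x : X) :
    phi V x ≤ m * (‖x‖ + 1) := ciSup_le fun o => aff_le hm0 hV o x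

theorem phi_conv (hm0 : 0 ≤ m) (hV : ∀ u ∈ V, ‖u.1‖ ≤ m ∧ |u.2| ≤ m) (a b : ℝ) (ha : 0 ≤ a)
    (hb : 0 ≤ b) (hab : a + b = 1) (x y : X) :
    phi V (a • x + b • y) ≤ a * phi V x + b * phi V y := by
  refine ciSup_le fun o => ?_
  rw [aff_comb o a b hab]
  exact add_le_add (mul_le_mul_of_nonneg_left (le_ciSup (aff_bdd hm0 hV x) o) ha)
    (mul_le_mul_of_nonneg_left (le_ciSup (aff_bdd hm0 hV y) o) hb)

theorem sq_conv {a b s t r : ℝ} (ha : 0 ≤ a) (hb : 0 ≤ b) (hab : a + b = 1) (hr0 : 0 ≤ r)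
    (hr : r ≤ a * s + b * t) : r ^ 2 ≤ a * s ^ 2 + b * t ^ 2 := by
  have h1 : r ^ 2 ≤ (a * s + b * t) ^ 2 := pow_le_pow_left₀ hr0 hr 2
  have h2 : a * s ^ 2 + b * t ^ 2 - (a * s + b * t) ^ 2 = a * b * (s - t) ^ 2 := by
    have : b = 1 - a := by linarith
    rw [this]
    ring
  have h3 : 0 ≤ a * b * (s - t) ^ 2 := by positivity
  linarith

/-- Members common to both points. -/
theorem common (hm0 : 0 ≤ m) (hV : ∀ u ∈ V, ‖u.1‖ ≤ m ∧ |u.2| ≤ m) (x w : X)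
    (h1 : phi V x = phi V w) (h2 : phi V ((1 / 2 : ℝ) • x + (1 / 2 : ℝ) • w) = phi V x)
    (h3 : ∃ u ∈ V, u.2 < u.1 x ∨ u.2 < u.1 w) : ∃ u ∈ V, u.2 < u.1 x ∧ u.2 < u.1 w := by
  have hpos : 0 < phi V x := by
    obtain ⟨u, hu, h | h⟩ := h3
    · have := le_ciSup (aff_bdd hm0 hV x) (some ⟨u, hu⟩)
      change u.1 x - u.2 ≤ phi V x at this
      linarith
    · have := le_ciSup (aff_bdd hm0 hV w) (some ⟨u, hu⟩)
      change u.1 w - u.2 ≤ phi V w at this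
      linarith
  have h4 : 3 / 4 * phi V x < phi V ((1 / 2 : ℝ) • x + (1 / 2 : ℝ) • w) := by
    rw [h2]
    linarith
  obtain ⟨o, ho⟩ := exists_lt_of_lt_ciSup h4
  rw [aff_comb o _ _ (by norm_num)] at ho
  have h5 := le_ciSup (aff_bdd hm0 hV x) o
  have h6 := le_ciSup (aff_bdd hm0 hV w) o
  change aff V o x ≤ phi V x at h5
  change aff V o w ≤ phi V w at h6
  have h7 : 0 < aff V o x := by linarith
  have h8 : 0 < aff V o w := by linarith
  rcases o with _ | u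
  · exact absurd h7 (lt_irrefl _)
  · exact ⟨u.1, u.2, sub_pos.1 h7, sub_pos.1 h8⟩

end

section

variable {X : Type*} [NormedAddCommGroup X] [NormedSpace ℝ X]

/-- The norm built from countably many bounded sets of half-spaces. -/
theorem slice_norm (V : ℕ → Set ((X →L[ℝ] ℝ) × ℝ)) (m : ℕ → ℝ) (hm0 : ∀ k, 0 ≤ m k)
    (hV : ∀ k, ∀ u ∈ V k, ‖u.1‖ ≤ m k ∧ |u.2| ≤ m k) :
    ∃ (p : Seminorm ℝ X) (c C : ℝ), 0 < c ∧ (∀ x, c * ‖x‖ ≤ p x) ∧ (∀ x, p x ≤ C * ‖x‖) ∧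
      ∀ x y, p x = 1 → p y = 1 → 2 ≤ p (x - y) → ∀ k,
        (∃ u ∈ V k, u.2 < u.1 x ∨ u.2 < u.1 (-y)) → ∃ u ∈ V k, u.2 < u.1 x ∧ u.2 < u.1 (-y) := by
  set c : ℕ → ℝ := fun k => (1 / 2) ^ k / (1 + m k) ^ 2 with hc
  have hc0 : ∀ k, 0 < c k := fun k => by
    have := hm0 k
    positivity
  set ψ : ℕ → X → ℝ := fun k x => c k * (phi (V k) x ^ 2 + phi (V k) (-x) ^ 2) with hψ
  have hψ0 : ∀ k x, 0 ≤ ψ k x := fun k x => by
    have := hc0 k
    positivity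
  have hψle : ∀ k x, ψ k x ≤ (1 / 2) ^ k * (2 * (‖x‖ + 1) ^ 2) := by
    intro k x
    have h1 := phi_le (hm0 k) (hV k) x
    have h2 := phi_le (hm0 k) (hV k) (-x)
    rw [norm_neg] at h2
    have h3 := phi_nonneg (hm0 k) (hV k) x
    have h4 := phi_nonneg (hm0 k) (hV k) (-x)
    have h5 : phi (V k) x ^ 2 ≤ (m k * (‖x‖ + 1)) ^ 2 := pow_le_pow_left₀ h3 h1 2
    have h6 : phi (V k) (-x) ^ 2 ≤ (m k * (‖x‖ + 1)) ^ 2 := pow_le_pow_left₀ h4 h2 2
    have h7 : m k ^ 2 ≤ (1 + m k) ^ 2 := by nlinarith [hm0 k]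
    have h8 : 0 < (1 + m k) ^ 2 := by
      have := hm0 k
      positivity
    calc ψ k x ≤ c k * (2 * (m k ^ 2 * (‖x‖ + 1) ^ 2)) := by
          apply mul_le_mul_of_nonneg_left _ (hc0 k).le
          rw [mul_pow] at h5 h6
          linarith
      _ ≤ c k * (2 * ((1 + m k) ^ 2 * (‖x‖ + 1) ^ 2)) := by
          apply mul_le_mul_of_nonneg_left _ (hc0 k).le
          have := mul_le_mul_of_nonneg_right h7 (sq_nonneg (‖x‖ + 1))
          linarith
      _ = (1 / 2) ^ k * (2 * (‖x‖ + 1) ^ 2) := by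
          rw [hc]
          dsimp only
          rw [div_mul_eq_mul_div, div_eq_iff h8.ne']
          ring
  have hgeo : Summable fun k : ℕ => (1 / 2 : ℝ) ^ k := summable_geometric_two
  have hsum : ∀ x, Summable fun k => ψ k x := fun x =>
    Summable.of_nonneg_of_le (fun k => hψ0 k x) (fun k => hψle k x) (hgeo.mul_right _)
  have hψconv : ∀ k (a b : ℝ) (x y : X), 0 ≤ a → 0 ≤ b → a + b = 1 →
      ψ k (a • x + b • y) ≤ a * ψ k x + b * ψ k y := by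
    intro k a b x y ha hb hab
    have h1 := sq_conv ha hb hab (phi_nonneg (hm0 k) (hV k) _) (phi_conv (hm0 k) (hV k) a b ha hb hab x y)
    have h2 : -(a • x + b • y) = a • (-x) + b • (-y) := by
      rw [smul_neg, smul_neg, neg_add]
    have h3 := sq_conv ha hb hab (phi_nonneg (hm0 k) (hV k) _)
      (phi_conv (hm0 k) (hV k) a b ha hb hab (-x) (-y))
    rw [← h2] at h3
    have h4 : a * ψ k x + b * ψ k y = c k * ((a * phi (V k) x ^ 2 + b * phi (V k) y ^ 2) +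
        (a * phi (V k) (-x) ^ 2 + b * phi (V k) (-y) ^ 2)) := by
      rw [hψ]
      ring
    rw [h4]
    exact mul_le_mul_of_nonneg_left (add_le_add h1 h3) (hc0 k).le
  set θ : X → ℝ := fun x => ‖x‖ ^ 2 + ∑' k, ψ k x with hθ
  have hnconv : ∀ (a b : ℝ) (x y : X), 0 ≤ a → 0 ≤ b → a + b = 1 →
      ‖a • x + b • y‖ ^ 2 ≤ a * ‖x‖ ^ 2 + b * ‖y‖ ^ 2 := by
    intro a b x y ha hb hab
    refine sq_conv ha hb hab (norm_nonneg _) ((norm_add_le _ _).trans ?_)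
    rw [norm_smul, norm_smul, Real.norm_of_nonneg ha, Real.norm_of_nonneg hb]
  have hconv : ∀ (a b : ℝ) (x y : X), 0 ≤ a → 0 ≤ b → a + b = 1 →
      θ (a • x + b • y) ≤ a * θ x + b * θ y := by
    intro a b x y ha hb hab
    have h1 : ∑' k, ψ k (a • x + b • y) ≤ a * ∑' k, ψ k x + b * ∑' k, ψ k y := by
      rw [← tsum_mul_left, ← tsum_mul_left, ← ((hsum x).mul_left a).tsum_add ((hsum y).mul_left b)]
      exact (hsum _).tsum_le_tsum (fun k => hψconv k a b x y ha hb hab)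
        (((hsum x).mul_left a).add ((hsum y).mul_left b))
    have h2 := hnconv a b x y ha hb hab
    change ‖a • x + b • y‖ ^ 2 + ∑' k, ψ k (a • x + b • y) ≤
      a * (‖x‖ ^ 2 + ∑' k, ψ k x) + b * (‖y‖ ^ 2 + ∑' k, ψ k y)
    linarith
  have heven : ∀ x, θ (-x) = θ x := by
    intro x
    change ‖-x‖ ^ 2 + ∑' k, ψ k (-x) = ‖x‖ ^ 2 + ∑' k, ψ k x
    rw [norm_neg]
    congr 1
    refine tsum_congr fun k => ?_
    change c k * (phi (V k) (-x) ^ 2 + phi (V k) (- -x) ^ 2) = c k * (phi (V k) x ^ 2 + phi (V k) (-x) ^ 2)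
    rw [neg_neg, add_comm]
  have hlow : ∀ x, ‖x‖ ^ 2 ≤ θ x := by
    intro x
    have h1 : 0 ≤ ∑' k, ψ k x := tsum_nonneg (fun k => hψ0 k x)
    change ‖x‖ ^ 2 ≤ ‖x‖ ^ 2 + ∑' k, ψ k x
    linarith
  have hB : ∀ x, ‖x‖ ≤ 1 → θ x ≤ 1 + ∑' k : ℕ, (1 / 2 : ℝ) ^ k * 8 := by
    intro x hx
    have h1 : ∑' k, ψ k x ≤ ∑' k : ℕ, (1 / 2 : ℝ) ^ k * 8 := by
      refine (hsum x).tsum_le_tsum (fun k => (hψle k x).trans ?_) (hgeo.mul_right _)
      apply mul_le_mul_of_nonneg_left _ (by positivity)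
      nlinarith [norm_nonneg x]
    have h2 : ‖x‖ ^ 2 ≤ 1 := by nlinarith [norm_nonneg x]
    change ‖x‖ ^ 2 + ∑' k, ψ k x ≤ _
    linarith
  obtain ⟨p, c', C', R, hc', g1, g2, g3, g4⟩ := gauge_norm θ hconv heven hlow _ hB
  refine ⟨p, c', C', hc', g1, g2, ?_⟩
  intro x y hx hy hxy k hex
  set w : X := -y with hw
  set z : X := (1 / 2 : ℝ) • x + (1 / 2 : ℝ) • w with hz
  have hpw : p w = 1 := by rw [hw, map_neg_eq_map, hy]
  have hpz : 1 ≤ p z := by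
    have : z = (1 / 2 : ℝ) • (x - y) := by
      rw [hz, hw, smul_neg, ← sub_eq_add_neg, ← smul_sub]
    rw [this, map_smul_eq_mul, Real.norm_of_nonneg (by norm_num)]
    linarith
  have hθx := g3 x hx
  have hθw := g3 w hpw
  have hθz := g4 z hpz
  have hD0 : ∀ j, 0 ≤ (1 / 2) * ψ j x + (1 / 2) * ψ j w - ψ j z := by
    intro j
    have := hψconv j (1 / 2) (1 / 2) x w (by norm_num) (by norm_num) (by norm_num)
    rw [← hz] at this
    linarith
  have hDs : Summable fun j => (1 / 2) * ψ j x + (1 / 2) * ψ j w - ψ j z :=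
    (((hsum x).mul_left _).add ((hsum w).mul_left _)).sub (hsum z)
  have hDt : ∑' j, ((1 / 2) * ψ j x + (1 / 2) * ψ j w - ψ j z) =
      (1 / 2) * ∑' j, ψ j x + (1 / 2) * ∑' j, ψ j w - ∑' j, ψ j z := by
    rw [(((hsum x).mul_left _).add ((hsum w).mul_left _)).tsum_sub (hsum z),
      ((hsum x).mul_left _).tsum_add ((hsum w).mul_left _), tsum_mul_left, tsum_mul_left]
  have hDle : ∑' j, ((1 / 2) * ψ j x + (1 / 2) * ψ j w - ψ j z) ≤ 0 := by
    rw [hDt]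
    have h1 := hnconv (1 / 2) (1 / 2) x w (by norm_num) (by norm_num) (by norm_num)
    rw [← hz] at h1
    change ‖x‖ ^ 2 + ∑' j, ψ j x = R at hθx
    change ‖w‖ ^ 2 + ∑' j, ψ j w = R at hθw
    change R ≤ ‖z‖ ^ 2 + ∑' j, ψ j z at hθz
    linarith
  have hDk : (1 / 2) * ψ k x + (1 / 2) * ψ k w - ψ k z ≤ 0 :=
    (hDs.le_tsum k fun j _ => hD0 j).trans hDle
  -- the summand
  have e1 := sq_conv (by norm_num) (by norm_num) (by norm_num) (phi_nonneg (hm0 k) (hV k) _)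
    (phi_conv (hm0 k) (hV k) (1 / 2) (1 / 2) (by norm_num) (by norm_num) (by norm_num) x w)
  have e2 : -z = (1 / 2 : ℝ) • (-x) + (1 / 2 : ℝ) • (-w) := by
    rw [hz]
    module
  have e3 := sq_conv (by norm_num) (by norm_num) (by norm_num) (phi_nonneg (hm0 k) (hV k) _)
    (phi_conv (hm0 k) (hV k) (1 / 2) (1 / 2) (by norm_num) (by norm_num) (by norm_num) (-x) (-w))
  rw [← e2] at e3
  rw [← hz] at e1
  have e4 : c k * ((1 / 2 * phi (V k) x ^ 2 + 1 / 2 * phi (V k) w ^ 2 - phi (V k) z ^ 2) +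
      (1 / 2 * phi (V k) (-x) ^ 2 + 1 / 2 * phi (V k) (-w) ^ 2 - phi (V k) (-z) ^ 2)) ≤ 0 := by
    have : c k * ((1 / 2 * phi (V k) x ^ 2 + 1 / 2 * phi (V k) w ^ 2 - phi (V k) z ^ 2) +
      (1 / 2 * phi (V k) (-x) ^ 2 + 1 / 2 * phi (V k) (-w) ^ 2 - phi (V k) (-z) ^ 2)) =
      (1 / 2) * ψ k x + (1 / 2) * ψ k w - ψ k z := by
      rw [hψ]
      ring
    rw [this]
    exact hDk
  have e5 : (1 / 2 * phi (V k) x ^ 2 + 1 / 2 * phi (V k) w ^ 2 - phi (V k) z ^ 2) +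
      (1 / 2 * phi (V k) (-x) ^ 2 + 1 / 2 * phi (V k) (-w) ^ 2 - phi (V k) (-z) ^ 2) ≤ 0 := by
    by_contra hcon
    exact absurd e4 (not_le.2 (mul_pos (hc0 k) (not_le.1 hcon)))
  have e6 := phi_conv (hm0 k) (hV k) (1 / 2) (1 / 2) (by norm_num) (by norm_num) (by norm_num) x w
  rw [← hz] at e6
  have e7 := phi_nonneg (hm0 k) (hV k) z
  have e8 : phi (V k) z ^ 2 ≤ (1 / 2 * phi (V k) x + 1 / 2 * phi (V k) w) ^ 2 :=
    pow_le_pow_left₀ e7 e6 2
  have e9 : phi (V k) x = phi (V k) w := by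
    have h1 : (phi (V k) x - phi (V k) w) ^ 2 ≤ 0 := by nlinarith
    have h2 : (phi (V k) x - phi (V k) w) ^ 2 = 0 := le_antisymm h1 (sq_nonneg _)
    exact sub_eq_zero.1 (pow_eq_zero_iff two_ne_zero |>.1 h2)
  have e10 : phi (V k) z = phi (V k) x := by
    have h1 : phi (V k) z ^ 2 = phi (V k) x ^ 2 := by
      rw [← e9] at e1 e5 e8
      nlinarith
    exact (pow_left_inj₀ e7 (phi_nonneg (hm0 k) (hV k) x) two_ne_zero).1 h1
  exact common (hm0 k) (hV k) x w e9 e10 hex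

/-- Norming functionals for an equivalent norm. -/
theorem norming (p : Seminorm ℝ X) (C : ℝ) (hC : ∀ x, p x ≤ C * ‖x‖) (x : X) (hx : 0 < p x) :
    ∃ f : X →L[ℝ] ℝ, f x = p x ∧ ∀ z, f z ≤ p z := by
  have hx0 : x ≠ 0 := by
    rintro rfl
    rw [map_zero] at hx
    exact lt_irrefl _ hx
  let f0 : X →ₗ.[ℝ] ℝ := LinearPMap.mkSpanSingleton x (p x) hx0
  obtain ⟨g, hg1, hg2⟩ := exists_extension_of_le_sublinear f0 p
    (fun c hc y => by rw [map_smul_eq_mul, Real.norm_of_nonneg hc.le])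
    (fun y z => map_add_le_add p y z) (by
      rintro ⟨y, hy⟩
      obtain ⟨a, rfl⟩ := Submodule.mem_span_singleton.1 hy
      have h1 : f0 ⟨a • x, hy⟩ = a • p x := LinearPMap.mkSpanSingleton'_apply _ _ _ _ _
      rw [h1, smul_eq_mul, map_smul_eq_mul]
      exact mul_le_mul_of_nonneg_right (le_abs_self a) hx.le)
  have hgC : ∀ z, ‖g z‖ ≤ C * ‖z‖ := by
    intro z
    rw [Real.norm_eq_abs, abs_le]
    constructor
    · have h1 := (hg2 (-z)).trans (hC (-z))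
      rw [map_neg, norm_neg] at h1
      linarith
    · exact (hg2 z).trans (hC z)
  refine ⟨g.mkContinuous C hgC, ?_, fun z => hg2 z⟩
  change g x = p x
  have hmem : x ∈ f0.domain := Submodule.mem_span_singleton_self x
  have h1 := hg1 ⟨x, hmem⟩
  change g x = f0 ⟨x, hmem⟩ at h1
  rw [h1]
  exact LinearPMap.mkSpanSingleton'_apply_self _ _ _ _

/-- The characterisation. -/
theorem criterion {N : Type*} : NoFam N X ↔ Separating N X := by
  constructor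
  · rintro ⟨p, c, C, hc, h1, h2, h3⟩
    obtain ⟨e, he⟩ := exists_surjective_nat ℚ
    refine ⟨fun n => {u | u.2 = (e n : ℝ) ∧ ∀ z, u.1 z ≤ p z}, fun x hx => ?_⟩
    have hppos : ∀ a, 0 < p (x a) := fun a =>
      lt_of_lt_of_le (mul_pos hc (norm_pos_iff.2 (hx a))) (h1 _)
    -- a useful step
    have key : ∀ a b : N, a ≠ b → ∀ t : ℝ, t < p (x a) → (∀ f : X →L[ℝ] ℝ, (∀ z, f z ≤ p z) →
        ∀ r : ℝ, t < r → ¬ (r < f (x a) ∧ r < f (-x b))) →
        ∃ (n : ℕ) (a b : N), a ≠ b ∧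
          (∃ u ∈ (fun n => {u : (X →L[ℝ] ℝ) × ℝ | u.2 = (e n : ℝ) ∧ ∀ z, u.1 z ≤ p z}) n,
            u.2 < u.1 (x a) ∨ u.2 < u.1 (-x b)) ∧
          ∀ u ∈ (fun n => {u : (X →L[ℝ] ℝ) × ℝ | u.2 = (e n : ℝ) ∧ ∀ z, u.1 z ≤ p z}) n,
            ¬ (u.2 < u.1 (x a) ∧ u.2 < u.1 (-x b)) := by
      intro a b hab t ht hno
      obtain ⟨q, hq1, hq2⟩ := exists_rat_btwn ht
      obtain ⟨n, hn⟩ := he q
      obtain ⟨f, hf1, hf2⟩ := norming p C h2 (x a) (hppos a)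
      refine ⟨n, a, b, hab, ⟨(f, (q : ℝ)), ⟨by rw [hn], hf2⟩, Or.inl ?_⟩, ?_⟩
      · change (q : ℝ) < f (x a)
        rw [hf1]
        exact hq2
      · rintro ⟨f', r⟩ ⟨hr, hf'⟩
        dsimp only at hr hf' ⊢
        rw [hn] at hr
        rw [hr]
        exact hno f' hf' q hq1
    by_cases heq : ∀ a b, p (x a) = p (x b)
    · -- all norms equal
      rcases isEmpty_or_nonempty N with hN | ⟨⟨a0⟩⟩
      · exact absurd ⟨fun n => (hN.false n).elim, fun n => (hN.false n).elim,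
          fun n => (hN.false n).elim⟩ h3
      set r := p (x a0) with hr
      have hr0 : 0 < r := hppos a0
      have hex : ∃ a b, a ≠ b ∧ p (x a - x b) < 2 * r := by
        by_contra hcon
        push Not at hcon
        apply h3
        refine ⟨fun a => r⁻¹ • x a, fun a => ?_, fun a b hab => ?_⟩
        · rw [map_smul_eq_mul, norm_inv, Real.norm_of_nonneg hr0.le, heq a a0,
            inv_mul_cancel₀ hr0.ne']
        · rw [← smul_sub, map_smul_eq_mul, norm_inv, Real.norm_of_nonneg hr0.le]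
          have := hcon a b hab
          rw [le_inv_mul_iff₀ hr0]
          linarith
      obtain ⟨a, b, hab, hlt⟩ := hex
      refine key a b hab (p (x a - x b) / 2) (by rw [heq a a0]; linarith) ?_
      rintro f hf s hs ⟨hs1, hs2⟩
      have h4 := hf (x a - x b)
      rw [map_sub] at h4
      rw [map_neg] at hs2
      linarith
    · push Not at heq
      obtain ⟨a, b, hab⟩ := heq
      have hne : a ≠ b := fun h => hab (by rw [h])
      rcases lt_or_gt_of_ne hab with h | h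
      · refine key b a (Ne.symm hne) (p (x a)) h ?_
        rintro f hf s hs ⟨hs1, hs2⟩
        have h4 := hf (-x a)
        rw [map_neg_eq_map p] at h4
        linarith
      · refine key a b hne (p (x b)) h ?_
        rintro f hf s hs ⟨hs1, hs2⟩
        have h4 := hf (-x b)
        rw [map_neg_eq_map p] at h4
        linarith
  · rintro ⟨U, hU⟩
    let V : ℕ → Set ((X →L[ℝ] ℝ) × ℝ) := fun k =>
      {u | u ∈ U (Nat.unpair k).1 ∧ ‖u.1‖ ≤ (Nat.unpair k).2 ∧ |u.2| ≤ (Nat.unpair k).2}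
    obtain ⟨p, c, C, hc, h1, h2, h3⟩ := slice_norm V (fun k => ((Nat.unpair k).2 : ℝ))
      (fun k => Nat.cast_nonneg _) (fun k u hu => hu.2)
    refine ⟨p, c, C, hc, h1, h2, ?_⟩
    rintro ⟨x, hx1, hx2⟩
    obtain ⟨n, a, b, hab, ⟨u, hu, hcov⟩, hno⟩ := hU x (fun a h0 => by
      have := hx1 a
      rw [h0, map_zero] at this
      exact zero_ne_one this)
    obtain ⟨m, hm⟩ := exists_nat_ge (max ‖u.1‖ |u.2|)
    have hum : u ∈ V (Nat.pair n m) := by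
      change u ∈ U (Nat.unpair (Nat.pair n m)).1 ∧ ‖u.1‖ ≤ (Nat.unpair (Nat.pair n m)).2 ∧
        |u.2| ≤ (Nat.unpair (Nat.pair n m)).2
      rw [Nat.unpair_pair]
      exact ⟨hu, (le_max_left _ _).trans hm, (le_max_right _ _).trans hm⟩
    obtain ⟨u', hu', hboth⟩ := h3 (x a) (x b) (hx1 a) (hx1 b) (hx2 a b hab) (Nat.pair n m)
      ⟨u, hum, hcov⟩
    have hu'' : u' ∈ U n := by
      have : u' ∈ U (Nat.unpair (Nat.pair n m)).1 := hu'.1
      rwa [Nat.unpair_pair] at this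
    exact hno u' hu'' hboth

end

end Pool.Agent.Helper55.TR
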