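import Mathlib
set_option autoImplicit false

/-! Sums over the `k` largest members of a family of seminorms. -/

namespace Pool.Agent.Helper55.TR

/-- Top sets carry the largest sums. -/
theorem top_sum {I : Type*} (J : Set I) (c : I → ℝ) (t : ℝ) (ht : 0 ≤ t) (A B : Finset I)
    (hA : ∀ j ∈ A, t ≤ c j) (hJ : ∀ j ∈ J, j ∉ A → c j ≤ t) (hB : (B : Set I) ⊆ J)
    (hcard : B.card ≤ A.card) : ∑ j ∈ B, c j ≤ ∑ j ∈ A, c j := by
  classical
  have h1 : ∑ j ∈ B, c j = ∑ j ∈ B ∩ A, c j + ∑ j ∈ B \ A, c j := by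
    rw [← Finset.sum_union]
    · congr 1
      ext j
      simp only [Finset.mem_union, Finset.mem_inter, Finset.mem_sdiff]
      tauto
    · rw [Finset.disjoint_left]
      intro j hj hj'
      exact (Finset.mem_sdiff.1 hj').2 (Finset.mem_inter.1 hj).2
  have h2 : ∑ j ∈ A, c j = ∑ j ∈ B ∩ A, c j + ∑ j ∈ A \ B, c j := by
    rw [← Finset.sum_union]
    · congr 1
      ext j
      simp only [Finset.mem_union, Finset.mem_inter, Finset.mem_sdiff]
      tauto
    · rw [Finset.disjoint_left]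
      intro j hj hj'
      exact (Finset.mem_sdiff.1 hj').2 (Finset.mem_inter.1 hj).1
  have h3 : ∑ j ∈ B \ A, c j ≤ (B \ A).card • t := by
    apply Finset.sum_le_card_nsmul
    intro j hj
    exact hJ j (hB (Finset.mem_sdiff.1 hj).1) (Finset.mem_sdiff.1 hj).2
  have h4 : (A \ B).card • t ≤ ∑ j ∈ A \ B, c j := by
    apply Finset.card_nsmul_le_sum
    intro j hj
    exact hA j (Finset.mem_sdiff.1 hj).1
  have h5 : (B \ A).card ≤ (A \ B).card := by
    have e1 := Finset.card_sdiff_add_card_inter B A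
    have e2 := Finset.card_sdiff_add_card_inter A B
    rw [Finset.inter_comm A B] at e2
    omega
  have h6 : (B \ A).card • t ≤ (A \ B).card • t := by
    rw [nsmul_eq_mul, nsmul_eq_mul]
    exact mul_le_mul_of_nonneg_right (by exact_mod_cast h5) ht
  rw [h1, h2]
  linarith

variable {X : Type*} [AddCommGroup X] [Module ℝ X] {I : Type*}

/-- The supremum of the sums of at most `k` of the values `p j x`, `j ∈ J`. -/
noncomputable def Dk (p : I → Seminorm ℝ X) (J : Set I) (k : ℕ) : Seminorm ℝ X :=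
  ⨆ A : {A : Finset I // (A : Set I) ⊆ J ∧ A.card ≤ k}, ∑ j ∈ A.1, p j

theorem sum_sem (p : I → Seminorm ℝ X) (A : Finset I) (x : X) : (∑ j ∈ A, p j) x = ∑ j ∈ A, p j x := by
  classical
  induction A using Finset.induction_on with
  | empty => simp
  | insert a s ha ih => rw [Finset.sum_insert ha, Finset.sum_insert ha, add_apply, ih]

theorem bddR (p : I → Seminorm ℝ X) (J : Set I) (k : ℕ) (M : X → ℝ) (hM0 : ∀ x, 0 ≤ M x)
    (hM : ∀ j x, p j x ≤ M x) :
    BddAbove (Set.range fun A : {A : Finset I // (A : Set I) ⊆ J ∧ A.card ≤ k} => ∑ j ∈ A.1, p j) := by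
  rw [Seminorm.bddAbove_range_iff]
  intro x
  refine ⟨k * M x, ?_⟩
  rintro _ ⟨A, rfl⟩
  dsimp only
  rw [sum_sem]
  calc ∑ j ∈ A.1, p j x ≤ A.1.card • M x := Finset.sum_le_card_nsmul _ _ _ fun j _ => hM j x
    _ = (A.1.card : ℝ) * M x := by rw [nsmul_eq_mul]
    _ ≤ k * M x := mul_le_mul_of_nonneg_right (by exact_mod_cast A.2.2) (hM0 x)

theorem Dk_apply (p : I → Seminorm ℝ X) (J : Set I) (k : ℕ) (M : X → ℝ) (hM0 : ∀ x, 0 ≤ M x)
    (hM : ∀ j x, p j x ≤ M x) (x : X) :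
    Dk p J k x = ⨆ A : {A : Finset I // (A : Set I) ⊆ J ∧ A.card ≤ k}, ∑ j ∈ A.1, p j x := by
  unfold Dk
  rw [Seminorm.iSup_apply (bddR p J k M hM0 hM)]
  simp only [sum_sem]

theorem Dk_le (p : I → Seminorm ℝ X) (J : Set I) (k : ℕ) (M : X → ℝ) (hM0 : ∀ x, 0 ≤ M x)
    (hM : ∀ j x, p j x ≤ M x) (x : X) : Dk p J k x ≤ k * M x := by
  rw [Dk_apply p J k M hM0 hM]
  have : Nonempty {A : Finset I // (A : Set I) ⊆ J ∧ A.card ≤ k} := ⟨⟨∅, by simp, by simp⟩⟩
  apply ciSup_le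
  intro A
  calc ∑ j ∈ A.1, p j x ≤ A.1.card • M x := Finset.sum_le_card_nsmul _ _ _ fun j _ => hM j x
    _ = (A.1.card : ℝ) * M x := by rw [nsmul_eq_mul]
    _ ≤ k * M x := mul_le_mul_of_nonneg_right (by exact_mod_cast A.2.2) (hM0 x)

theorem le_Dk (p : I → Seminorm ℝ X) (J : Set I) (k : ℕ) (M : X → ℝ) (hM0 : ∀ x, 0 ≤ M x)
    (hM : ∀ j x, p j x ≤ M x) (x : X) (A : Finset I) (hA : (A : Set I) ⊆ J) (hk : A.card ≤ k) :
    ∑ j ∈ A, p j x ≤ Dk p J k x := by
  have h := Seminorm.bddAbove_range_iff.1 (bddR p J k M hM0 hM) x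
  rw [Dk_apply p J k M hM0 hM]
  have h2 : BddAbove (Set.range fun A : {A : Finset I // (A : Set I) ⊆ J ∧ A.card ≤ k} =>
      ∑ j ∈ A.1, p j x) := by
    obtain ⟨b, hb⟩ := h
    refine ⟨b, ?_⟩
    rintro _ ⟨A, rfl⟩
    have := hb ⟨A, rfl⟩
    dsimp only at this
    rwa [sum_sem] at this
  exact le_ciSup h2 ⟨A, hA, hk⟩

/-- The value at a vector for which `A` is a top set. -/
theorem Dk_top (p : I → Seminorm ℝ X) (J : Set I) (M : X → ℝ) (hM0 : ∀ x, 0 ≤ M x)
    (hM : ∀ j x, p j x ≤ M x) (x : X) (A : Finset I) (hA : (A : Set I) ⊆ J) (t : ℝ) (ht : 0 ≤ t)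
    (h1 : ∀ j ∈ A, t ≤ p j x) (h2 : ∀ j ∈ J, j ∉ A → p j x ≤ t) :
    Dk p J A.card x = ∑ j ∈ A, p j x := by
  apply le_antisymm
  · rw [Dk_apply p J _ M hM0 hM]
    have : Nonempty {B : Finset I // (B : Set I) ⊆ J ∧ B.card ≤ A.card} := ⟨⟨∅, by simp, by simp⟩⟩
    apply ciSup_le
    intro B
    exact top_sum J (fun j => p j x) t ht A B.1 h1 h2 B.2.1 B.2.2
  · exact le_Dk p J _ M hM0 hM x A hA le_rfl

/-- Equality case: if all `Dk` are additive at `x`, `-y` and equal at `x` and `y`, then so is `p i` for every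
`i` with `p i (x - y) ≠ 0`. -/
theorem eq_case1 (p : I → Seminorm ℝ X) (J : Set I) (M : X → ℝ) (hM0 : ∀ x, 0 ≤ M x)
    (hM : ∀ j x, p j x ≤ M x) (x y : X)
    (hD : ∀ k, Dk p J k x = Dk p J k y ∧ Dk p J k (x - y) = Dk p J k x + Dk p J k y) (i : I)
    (hi : i ∈ J) (hfin : {j ∈ J | p i (x - y) ≤ p j (x - y)}.Finite) :
    p i x = p i y ∧ p i (x - y) = 2 * p i x := by
  classical
  set A : Finset I := hfin.toFinset with hAdef
  have hAm : ∀ j, j ∈ A ↔ j ∈ J ∧ p i (x - y) ≤ p j (x - y) := by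
    intro j
    rw [hAdef, Set.Finite.mem_toFinset]
    rfl
  have hiA : i ∈ A := (hAm i).2 ⟨hi, le_rfl⟩
  have hAJ : (A : Set I) ⊆ J := fun j hj => ((hAm j).1 (Finset.mem_coe.1 hj)).1
  have ht : 0 ≤ p i (x - y) := apply_nonneg _ _
  -- a set which is top for `x - y` is top for `x` and `y`
  have key : ∀ B : Finset I, (B : Set I) ⊆ J → (∀ j ∈ B, p i (x - y) ≤ p j (x - y)) →
      (∀ j ∈ J, j ∉ B → p j (x - y) ≤ p i (x - y)) →
      Dk p J B.card x = ∑ j ∈ B, p j x ∧ Dk p J B.card y = ∑ j ∈ B, p j y ∧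
        ∀ j ∈ B, p j (x - y) = p j x + p j y := by
    intro B hBJ h1 h2
    have e0 := Dk_top p J M hM0 hM (x - y) B hBJ _ ht h1 h2
    have e1 := le_Dk p J B.card M hM0 hM x B hBJ le_rfl
    have e2 := le_Dk p J B.card M hM0 hM y B hBJ le_rfl
    have e3 := (hD B.card).2
    have e4 : ∀ j ∈ B, p j (x - y) ≤ p j x + p j y := fun j _ => map_sub_le_add (p j) x y
    have e5 : ∑ j ∈ B, p j (x - y) ≤ ∑ j ∈ B, (p j x + p j y) := Finset.sum_le_sum e4
    rw [Finset.sum_add_distrib] at e5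
    refine ⟨by linarith, by linarith, ?_⟩
    have e6 : ∑ j ∈ B, p j (x - y) = ∑ j ∈ B, (p j x + p j y) := by
      rw [Finset.sum_add_distrib]
      linarith
    exact (Finset.sum_eq_sum_iff_of_le e4).1 e6
  have hA1 := key A hAJ (fun j hj => ((hAm j).1 hj).2) (fun j hj hjA => by
    by_contra hcon
    exact hjA ((hAm j).2 ⟨hj, (not_le.1 hcon).le⟩))
  have hB1 := key (A.erase i) (fun j hj => hAJ (Finset.mem_coe.2 (Finset.mem_of_mem_erase
    (Finset.mem_coe.1 hj)))) (fun j hj => ((hAm j).1 (Finset.mem_of_mem_erase hj)).2)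
    (fun j hj hjA => by
      by_cases hji : j = i
      · rw [hji]
      · by_contra hcon
        exact hjA (Finset.mem_erase.2 ⟨hji, (hAm j).2 ⟨hj, (not_le.1 hcon).le⟩⟩))
  have s1 := Finset.add_sum_erase A (fun j => p j x) hiA
  have s2 := Finset.add_sum_erase A (fun j => p j y) hiA
  have d1 := (hD A.card).1
  have d2 := (hD (A.erase i).card).1
  have f1 : p i x = p i y := by
    have a1 := hA1.1
    have a2 := hA1.2.1
    have b1 := hB1.1
    have b2 := hB1.2.1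
    linarith
  refine ⟨f1, ?_⟩
  rw [hA1.2.2 i hiA, ← f1]
  ring

end Pool.Agent.Helper55.TR
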