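import Pool.Agent.Helper55.TR.Top
set_option autoImplicit false

/-! Isolated top values of a family of seminorms. -/

namespace Pool.Agent.Helper55.TR

variable {X : Type*} [AddCommGroup X] [Module ℝ X] {I : Type*}

theorem exists_lt_Dk (p : I → Seminorm ℝ X) (J : Set I) (k : ℕ) (M : X → ℝ) (hM0 : ∀ x, 0 ≤ M x)
    (hM : ∀ j x, p j x ≤ M x) (x : X) (r : ℝ) (hr : r < Dk p J k x) :
    ∃ A : Finset I, (A : Set I) ⊆ J ∧ A.card ≤ k ∧ r < ∑ j ∈ A, p j x := by
  rw [Dk_apply p J k M hM0 hM] at hr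
  have : Nonempty {A : Finset I // (A : Set I) ⊆ J ∧ A.card ≤ k} := ⟨⟨∅, by simp, by simp⟩⟩
  obtain ⟨A, hA⟩ := exists_lt_of_lt_ciSup hr
  exact ⟨A.1, A.2.1, A.2.2, hA⟩

theorem Dk_le_of (p : I → Seminorm ℝ X) (J : Set I) (k : ℕ) (M : X → ℝ) (hM0 : ∀ x, 0 ≤ M x)
    (hM : ∀ j x, p j x ≤ M x) (x : X) (r : ℝ)
    (h : ∀ A : Finset I, (A : Set I) ⊆ J → A.card ≤ k → ∑ j ∈ A, p j x ≤ r) : Dk p J k x ≤ r := by
  rw [Dk_apply p J k M hM0 hM]
  have : Nonempty {A : Finset I // (A : Set I) ⊆ J ∧ A.card ≤ k} := ⟨⟨∅, by simp, by simp⟩⟩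
  exact ciSup_le fun A => h A.1 A.2.1 A.2.2

/-- If a sum of at most `s` terms, each at most `m`, exceeds `s m - e` with `e ≤ m`, then there are exactly
`s` terms and each exceeds `m - e`. -/
theorem terms_large (A : Finset I) (c : I → ℝ) (s : ℕ) (m e : ℝ) (hcard : A.card ≤ s)
    (hc : ∀ j ∈ A, c j ≤ m) (he : e ≤ m) (hm : 0 ≤ m) (hsum : s * m - e < ∑ j ∈ A, c j) :
    A.card = s ∧ ∀ j ∈ A, m - e < c j := by
  classical
  constructor
  · by_contra hne
    have hlt : A.card + 1 ≤ s := by omega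
    have h1 : ∑ j ∈ A, c j ≤ A.card * m := by
      have := Finset.sum_le_card_nsmul A c m hc
      rwa [nsmul_eq_mul] at this
    have h2 : (A.card : ℝ) + 1 ≤ s := by exact_mod_cast hlt
    nlinarith
  · intro j hj
    have h1 : ∑ i ∈ A.erase j, c i ≤ (A.erase j).card * m := by
      have := Finset.sum_le_card_nsmul (A.erase j) c m fun i hi => hc i (Finset.mem_of_mem_erase hi)
      rwa [nsmul_eq_mul] at this
    have h2 : ∑ i ∈ A, c i = c j + ∑ i ∈ A.erase j, c i := (Finset.add_sum_erase A c hj).symm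
    have h3 : (A.erase j).card + 1 = A.card := Finset.card_erase_add_one hj
    have h4 : ((A.erase j).card : ℝ) + 1 ≤ s := by
      have : (A.erase j).card + 1 ≤ s := by omega
      exact_mod_cast this
    nlinarith

/-- The top set. -/
theorem top_set (p : I → Seminorm ℝ X) (J : Set I) (M : X → ℝ) (hM0 : ∀ x, 0 ≤ M x)
    (hM : ∀ j x, p j x ≤ M x) (x : X) (s : ℕ) (m : ℝ) (hm : 0 < m) (h1 : ∀ j ∈ J, p j x ≤ m)
    (h2 : s * m ≤ Dk p J s x) (h3 : Dk p J (s + 1) x < (s + 1) * m) :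
    ∃ R : Finset I, (R : Set I) ⊆ J ∧ R.card = s ∧ (∀ j ∈ R, p j x = m) ∧
      ∀ j ∈ J, p j x = m → j ∈ R := by
  classical
  set e0 : ℝ := min m (((s + 1) * m - Dk p J (s + 1) x) / (s + 1)) with he0
  have hs1 : (0 : ℝ) < (s : ℝ) + 1 := by positivity
  have he0pos : 0 < e0 := lt_min hm (div_pos (by linarith) hs1)
  have he0m : e0 ≤ m := min_le_left _ _
  have he0D : Dk p J (s + 1) x ≤ (s + 1) * (m - e0) := by
    have : e0 ≤ ((s + 1) * m - Dk p J (s + 1) x) / (s + 1) := min_le_right _ _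
    rw [le_div_iff₀ hs1] at this
    nlinarith
  have hex : ∀ e, 0 < e → e ≤ e0 → ∃ A : Finset I, (A : Set I) ⊆ J ∧ A.card = s ∧
      ∀ j ∈ A, m - e < p j x := by
    intro e he hee
    obtain ⟨A, hA1, hA2, hA3⟩ := exists_lt_Dk p J s M hM0 hM x (s * m - e) (by linarith)
    obtain ⟨h4, h5⟩ := terms_large A (fun j => p j x) s m e hA2 (fun j hj => h1 j (hA1 hj))
      (hee.trans he0m) hm.le hA3
    exact ⟨A, hA1, h4, h5⟩
  obtain ⟨R, hR1, hR2, hR3⟩ := hex e0 he0pos le_rfl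
  have huniq : ∀ j ∈ J, m - e0 < p j x → j ∈ R := by
    intro j hj hjm
    by_contra hjR
    have h4 := le_Dk p J (s + 1) M hM0 hM x (insert j R) (by
      intro i hi
      rcases Finset.mem_insert.1 (Finset.mem_coe.1 hi) with h | h
      · rw [h]; exact hj
      · exact hR1 h) (by rw [Finset.card_insert_of_notMem hjR, hR2])
    have h5 : ((insert j R).card : ℝ) * (m - e0) < ∑ i ∈ insert j R, p i x := by
      have : ∑ i ∈ insert j R, (m - e0) < ∑ i ∈ insert j R, p i x := by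
        refine Finset.sum_lt_sum_of_nonempty ⟨j, Finset.mem_insert_self _ _⟩ fun i hi => ?_
        rcases Finset.mem_insert.1 hi with h | h
        · rw [h]; exact hjm
        · exact hR3 i h
      rwa [Finset.sum_const, nsmul_eq_mul] at this
    rw [Finset.card_insert_of_notMem hjR, hR2] at h5
    push_cast at h5
    linarith
  refine ⟨R, hR1, hR2, fun j hj => ?_, fun j hj h => huniq j hj (by rw [h]; linarith)⟩
  refine le_antisymm (h1 j (hR1 hj)) (le_of_forall_pos_lt_add fun e he => ?_)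
  obtain ⟨A, hA1, hA2, hA3⟩ := hex (min e e0) (lt_min he he0pos) (min_le_right _ _)
  have hAR : A ⊆ R := fun i hi => huniq i (hA1 hi) (by
    have := hA3 i hi
    have h4 : min e e0 ≤ e0 := min_le_right _ _
    linarith)
  have hAR' : A = R := Finset.eq_of_subset_of_card_le hAR (by rw [hA2, hR2])
  rw [← hAR'] at hj
  have h4 := hA3 j hj
  have h5 : min e e0 ≤ e := min_le_left _ _
  linarith

/-- A finite nonempty set `{j ∈ J | η < p j x}` gives an isolated top value. -/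
theorem isolated (p : I → Seminorm ℝ X) (J : Set I) (M : X → ℝ) (hM0 : ∀ x, 0 ≤ M x)
    (hM : ∀ j x, p j x ≤ M x) (x : X) (η : ℝ) (hη : 0 ≤ η) (hfin : {j ∈ J | η < p j x}.Finite)
    (hne : {j ∈ J | η < p j x}.Nonempty) :
    ∃ (s : ℕ) (m : ℝ), 0 < s ∧ 0 < m ∧ (∀ j ∈ J, p j x ≤ m) ∧ s * m ≤ Dk p J s x ∧
      Dk p J (s + 1) x < (s + 1) * m := by
  classical
  set F : Finset I := hfin.toFinset with hF
  have hFm : ∀ j, j ∈ F ↔ j ∈ J ∧ η < p j x := by
    intro j
    rw [hF, Set.Finite.mem_toFinset]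
    rfl
  have hFne : F.Nonempty := by
    obtain ⟨j, hj⟩ := hne
    exact ⟨j, (hFm j).2 hj⟩
  obtain ⟨j0, hj0, hmax⟩ := F.exists_max_image (fun j => p j x) hFne
  set m := p j0 x with hm
  have hmη : η < m := ((hFm j0).1 hj0).2
  set T : Finset I := F.filter fun j => p j x = m with hT
  have hTm : ∀ j, j ∈ T ↔ j ∈ F ∧ p j x = m := by
    intro j
    rw [hT, Finset.mem_filter]
  have hj0T : j0 ∈ T := (hTm j0).2 ⟨hj0, rfl⟩
  -- the second value
  obtain ⟨m', hm'1, hm'2, hm'3⟩ : ∃ m', m' < m ∧ 0 ≤ m' ∧ ∀ j ∈ J, j ∉ T → p j x ≤ m' := by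
    by_cases hFT : (F \ T).Nonempty
    · obtain ⟨j1, hj1, hmax1⟩ := (F \ T).exists_max_image (fun j => p j x) hFT
      have h1 : p j1 x < m := lt_of_le_of_ne (hmax j1 (Finset.mem_sdiff.1 hj1).1) fun h =>
        (Finset.mem_sdiff.1 hj1).2 ((hTm j1).2 ⟨(Finset.mem_sdiff.1 hj1).1, h⟩)
      refine ⟨max η (p j1 x), max_lt hmη h1, hη.trans (le_max_left _ _), fun j hj hjT => ?_⟩
      by_cases hjF : j ∈ F
      · exact (hmax1 j (Finset.mem_sdiff.2 ⟨hjF, hjT⟩)).trans (le_max_right _ _)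
      · refine le_trans ?_ (le_max_left _ _)
        by_contra hcon
        exact hjF ((hFm j).2 ⟨hj, not_le.1 hcon⟩)
    · refine ⟨η, hmη, hη, fun j hj hjT => ?_⟩
      by_contra hcon
      exact hFT ⟨j, Finset.mem_sdiff.2 ⟨(hFm j).2 ⟨hj, not_le.1 hcon⟩, hjT⟩⟩
  have hTJ : (T : Set I) ⊆ J := fun j hj => ((hFm j).1 ((hTm j).1 (Finset.mem_coe.1 hj)).1).1
  have hle : ∀ j ∈ J, p j x ≤ m := by
    intro j hj
    by_cases hjT : j ∈ T
    · exact ((hTm j).1 hjT).2.le
    · exact (hm'3 j hj hjT).trans hm'1.le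
  refine ⟨T.card, m, Finset.card_pos.2 ⟨j0, hj0T⟩, lt_of_le_of_lt hη hmη, hle, ?_, ?_⟩
  · have h1 := le_Dk p J T.card M hM0 hM x T hTJ le_rfl
    have h2 : ∑ j ∈ T, p j x = T.card * m := by
      rw [Finset.sum_congr rfl fun j hj => ((hTm j).1 hj).2, Finset.sum_const, nsmul_eq_mul]
    rw [h2] at h1
    exact h1
  · refine lt_of_le_of_lt (Dk_le_of p J (T.card + 1) M hM0 hM x (T.card * m + m') ?_) (by linarith)
    intro A hA hAc
    have h1 : ∑ j ∈ A, p j x = ∑ j ∈ A ∩ T, p j x + ∑ j ∈ A \ T, p j x := by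
      rw [← Finset.sum_union]
      · congr 1
        ext j
        simp only [Finset.mem_union, Finset.mem_inter, Finset.mem_sdiff]
        tauto
      · rw [Finset.disjoint_left]
        intro j hj hj'
        exact (Finset.mem_sdiff.1 hj').2 (Finset.mem_inter.1 hj).2
    have h2 : ∑ j ∈ A ∩ T, p j x ≤ (A ∩ T).card * m := by
      have := Finset.sum_le_card_nsmul (A ∩ T) (fun j => p j x) m fun j hj =>
        hle j (hA (Finset.mem_inter.1 hj).1)
      rwa [nsmul_eq_mul] at this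
    have h3 : ∑ j ∈ A \ T, p j x ≤ (A \ T).card * m' := by
      have := Finset.sum_le_card_nsmul (A \ T) (fun j => p j x) m' fun j hj =>
        hm'3 j (hA (Finset.mem_sdiff.1 hj).1) (Finset.mem_sdiff.1 hj).2
      rwa [nsmul_eq_mul] at this
    have h4 : (A \ T).card + (A ∩ T).card = A.card := Finset.card_sdiff_add_card_inter A T
    have h5 : (A ∩ T).card ≤ T.card := Finset.card_le_card Finset.inter_subset_right
    have h6 : ((A \ T).card : ℝ) + (A ∩ T).card ≤ T.card + 1 := by exact_mod_cast h4 ▸ hAc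
    have h7 : ((A ∩ T).card : ℝ) ≤ T.card := by exact_mod_cast h5
    have h8 : (0 : ℝ) ≤ ((A \ T).card : ℝ) := by positivity
    rw [h1]
    nlinarith

end Pool.Agent.Helper55.TR
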