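import Pool.Agent.Helper55.TR.Defs
import Pool.Agent.Helper55.TR.ConvexSem
import Pool.Agent.Helper55.TR.Top
import Pool.Agent.Helper76.TwoSepH
set_option autoImplicit false

namespace Pool.Agent.Helper55.TR

open Pool.Agent.TwoSep

section pair

variable {X : Type*} [AddCommGroup X] [Module ℝ X] {I : Type*}

/-- The equality case for all indices. -/
theorem eq_case2 (p : I → Seminorm ℝ X) (P : Seminorm ℝ X)
    (h1 : ∀ x y, P x = 1 → P y = 1 → 2 ≤ P (x - y) → ∀ i, p i (x - y) ≠ 0 →
      p i x = p i y ∧ p i (x - y) = 2 * p i x)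
    (x y : X) (hx : P x = 1) (hy : P y = 1) (hxy : 2 ≤ P (x - y)) (i : I) :
    p i x = p i y ∧ p i (x - y) = 2 * p i x := by
  by_cases h : p i (x - y) = 0
  · have e0 : P (x - y) ≤ P x + P y := map_sub_le_add P x y
    have e1 : P (x - y) = 2 := le_antisymm (by linarith) hxy
    set z : X := (1 / 2 : ℝ) • (y - x) with hz
    have hPz : P z = 1 := by
      rw [hz, map_smul_eq_mul, map_sub_rev, e1, Real.norm_of_nonneg (by norm_num)]
      norm_num
    have hpz : p i z = 0 := by
      rw [hz, map_smul_eq_mul, map_sub_rev, h, mul_zero]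
    have e2 : (2 : ℝ) • (x - y) = (x - z) - ((3 / 2 : ℝ) • y - (1 / 2 : ℝ) • x) := by
      rw [hz]
      module
    have e3 : P ((2 : ℝ) • (x - y)) = 4 := by
      rw [map_smul_eq_mul, e1, Real.norm_of_nonneg (by norm_num)]
      norm_num
    have e4 : P ((3 / 2 : ℝ) • y - (1 / 2 : ℝ) • x) ≤ 2 := by
      refine (map_sub_le_add P _ _).trans (le_of_eq ?_)
      rw [map_smul_eq_mul, map_smul_eq_mul, hx, hy, Real.norm_of_nonneg (by norm_num),
        Real.norm_of_nonneg (by norm_num)]
      norm_num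
    have e5 : 2 ≤ P (x - z) := by
      have := map_sub_le_add P (x - z) ((3 / 2 : ℝ) • y - (1 / 2 : ℝ) • x)
      rw [← e2, e3] at this
      linarith
    have hpx : p i x = 0 := by
      by_contra hne
      have hpos : 0 < p i x := lt_of_le_of_ne (apply_nonneg _ _) (_root_.Ne.symm hne)
      have e6 : p i x ≤ p i (x - z) + p i z := by
        have := map_add_le_add (p i) (x - z) z
        rwa [sub_add_cancel] at this
      have e7 : p i (x - z) ≠ 0 := by
        rw [hpz, add_zero] at e6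
        exact (lt_of_lt_of_le hpos e6).ne'
      have e8 := (h1 x z hx hPz e5 i e7).1
      rw [hpz] at e8
      exact hne e8
    have hpy : p i y = 0 := by
      have e6 : p i y ≤ p i x + p i (x - y) := by
        have := map_sub_le_add (p i) x (x - y)
        rwa [sub_sub_cancel] at this
      rw [hpx, h, add_zero] at e6
      exact le_antisymm e6 (apply_nonneg _ _)
    rw [hpx, hpy, h]
    simp
  · exact h1 x y hx hy hxy i h

end pair

variable {N X I : Type*} [NormedAddCommGroup X] [NormedSpace ℝ X]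

/-- The transfer theorem. -/
theorem transfer (p : I → Seminorm ℝ X) (C : ℝ) (hC : ∀ i x, p i x ≤ C * ‖x‖)
    (hp : ∀ i, ¬ ∃ f : N → X, (∀ n, p i (f n) = 1) ∧ ∀ n m, n ≠ m → 2 ≤ p i (f n - f m))
    (J : ℕ → Set I)
    (hJ : ∀ i x, p i x ≠ 0 → ∃ n, i ∈ J n ∧ {j ∈ J n | p i x ≤ p j x}.Finite)
    (K : Submodule ℝ X) (hK : ∀ x, (∀ i, p i x = 0) → x ∈ K) (hNK : NoFam N K) : NoFam N X := by
  obtain ⟨p0, c0, C0, hc0, hk1, hk2, hk3⟩ := hNK
  set C1 : ℝ := max C0 1 with hC1
  have hC1pos : 0 < C1 := lt_of_lt_of_le one_pos (le_max_right _ _)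
  have hk2' : ∀ x, p0 x ≤ C1 * ‖x‖ := fun x =>
    (hk2 x).trans (mul_le_mul_of_nonneg_right (le_max_left _ _) (norm_nonneg _))
  obtain ⟨Ne, hN1, hN2, hN3⟩ := exists_ext K p0 c0 C1 hc0 hC1pos hk1 hk2'
  set c : ℝ := min c0 C1 with hc
  have hcpos : 0 < c := lt_min hc0 hC1pos
  set L : ℝ := |C| / c with hL
  have hL0 : 0 ≤ L := div_nonneg (abs_nonneg _) hcpos.le
  have hNe0 : ∀ x, 0 ≤ Ne x := fun x => apply_nonneg _ _
  set M : X → ℝ := fun x => L * Ne x with hM
  have hM0 : ∀ x, 0 ≤ M x := fun x => mul_nonneg hL0 (hNe0 x)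
  have hMp : ∀ j x, p j x ≤ M x := by
    intro j x
    have e1 := hN1 x
    have e2 : C * ‖x‖ ≤ |C| * ‖x‖ := mul_le_mul_of_nonneg_right (le_abs_self _) (norm_nonneg _)
    have e3 : M x = |C| * (Ne x / c) := by rw [hM, hL]; ring
    rw [e3]
    refine (hC j x).trans (e2.trans (mul_le_mul_of_nonneg_left ?_ (abs_nonneg _)))
    rw [le_div_iff₀ hcpos, mul_comm]
    exact e1
  -- the countable family
  let s : ℕ → NNReal := fun k => ⟨1 / (1 + k * L), by positivity⟩
  have hs : ∀ k, (0 : ℝ) < (s k : ℝ) := by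
    intro k
    change (0 : ℝ) < 1 / (1 + k * L)
    positivity
  let q : ℕ → Seminorm ℝ X := fun n => Nat.casesOn n Ne
    (fun m => s (Nat.unpair m).2 • Dk p (J (Nat.unpair m).1) (Nat.unpair m).2)
  have hq0 : q 0 = Ne := rfl
  have hqs : ∀ m x, q (m + 1) x = (s (Nat.unpair m).2 : ℝ) * Dk p (J (Nat.unpair m).1) (Nat.unpair m).2 x :=
    fun m x => rfl
  have hq : ∀ n x, q n x ≤ q 0 x := by
    intro n x
    rcases n with _ | m
    · exact le_rfl
    · rw [hqs, hq0]
      have e1 := Dk_le p (J (Nat.unpair m).1) (Nat.unpair m).2 M hM0 hMp x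
      have e2 : (s (Nat.unpair m).2 : ℝ) = 1 / (1 + (Nat.unpair m).2 * L) := rfl
      refine (mul_le_mul_of_nonneg_left e1 (hs _).le).trans ?_
      rw [e2, hM, one_div, inv_mul_le_iff₀ (by positivity)]
      have e3 := hNe0 x
      dsimp only
      nlinarith
  obtain ⟨P, hP1, hP2, hP3⟩ := convexSem q hq
  -- equality case
  have hD : ∀ x y, P x = 1 → P y = 1 → 2 ≤ P (x - y) → ∀ n k,
      Dk p (J n) k x = Dk p (J n) k y ∧ Dk p (J n) k (x - y) = Dk p (J n) k x + Dk p (J n) k y := by
    intro x y hx hy hxy n k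
    have e1 := hP3 x y hx hy hxy (Nat.pair n k + 1)
    rw [hqs, hqs, hqs, Nat.unpair_pair] at e1
    dsimp only at e1
    have e2 := (hs k).ne'
    refine ⟨mul_left_cancel₀ e2 e1.1, mul_left_cancel₀ e2 ?_⟩
    rw [mul_add]
    exact e1.2
  have key : ∀ x y, P x = 1 → P y = 1 → 2 ≤ P (x - y) → ∀ i,
      p i x = p i y ∧ p i (x - y) = 2 * p i x := by
    intro x y hx hy hxy i
    refine eq_case2 p P (fun x y hx hy hxy i hi => ?_) x y hx hy hxy i
    obtain ⟨n, hn, hfin⟩ := hJ i (x - y) hi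
    exact eq_case1 p (J n) M hM0 hMp x y (hD x y hx hy hxy n) i hn hfin
  refine ⟨P, c / 2, C1, by positivity, ?_, ?_, ?_⟩
  · intro x
    have e1 := hP1 x
    have e2 := hN1 x
    rw [hq0] at e1
    linarith
  · intro x
    have e1 := hP2 x
    rw [hq0] at e1
    exact e1.trans (hN2 x)
  · rintro ⟨f, hf1, hf2⟩
    by_cases hex : ∃ i n, p i (f n) ≠ 0
    · obtain ⟨i, n0, hne⟩ := hex
      have hpos : 0 < p i (f n0) := lt_of_le_of_ne (apply_nonneg _ _) (_root_.Ne.symm hne)
      have hb : ∀ n, p i (f n) = p i (f n0) := by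
        intro n
        by_cases h : n = n0
        · rw [h]
        · exact (key _ _ (hf1 n) (hf1 n0) (hf2 n n0 h) i).1
      set r := p i (f n0) with hr
      apply hp i
      refine ⟨fun n => r⁻¹ • f n, ?_, ?_⟩
      · intro n
        rw [map_smul_eq_mul, hb n, norm_inv, Real.norm_of_nonneg hpos.le, inv_mul_cancel₀ hpos.ne']
      · intro n m hnm
        rw [← smul_sub, map_smul_eq_mul, (key _ _ (hf1 n) (hf1 m) (hf2 n m hnm) i).2, hb n, norm_inv,
          Real.norm_of_nonneg hpos.le]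
        have : r⁻¹ * (2 * r) = 2 := by field_simp
        rw [this]
    · push Not at hex
      have hker : ∀ n, f n ∈ K := fun n => hK _ fun i => hex i n
      rcases isEmpty_or_nonempty N with hN | ⟨⟨n0⟩⟩
      · exact hk3 ⟨fun n => (hN.false n).elim, fun n => (hN.false n).elim,
          fun n => (hN.false n).elim⟩
      · have hb : ∀ n, Ne (f n) = Ne (f n0) := by
          intro n
          by_cases h : n = n0
          · rw [h]
          · have := (hP3 _ _ (hf1 n) (hf1 n0) (hf2 n n0 h) 0).1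
            rwa [hq0] at this
        have hpos : 0 < Ne (f n0) := by
          have e1 := hP2 (f n0)
          rw [hq0, hf1] at e1
          linarith
        set r := Ne (f n0) with hr
        apply hk3
        refine ⟨fun n => r⁻¹ • ⟨f n, hker n⟩, ?_, ?_⟩
        · intro n
          rw [map_smul_eq_mul, ← hN3]
          change ‖r⁻¹‖ * Ne (f n) = 1
          rw [hb n, norm_inv, Real.norm_of_nonneg hpos.le, inv_mul_cancel₀ hpos.ne']
        · intro n m hnm
          rw [← smul_sub, map_smul_eq_mul, ← hN3]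
          change 2 ≤ ‖r⁻¹‖ * Ne (f n - f m)
          have e1 := (hP3 _ _ (hf1 n) (hf1 m) (hf2 n m hnm) 0).2
          rw [hq0, hb n, hb m] at e1
          rw [e1, norm_inv, Real.norm_of_nonneg hpos.le]
          have : r⁻¹ * (r + r) = 2 := by field_simp; norm_num
          rw [this]

end Pool.Agent.Helper55.TR
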