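import Pool.Agent.Helper55.TR.Transfer
import Pool.Agent.Helper55.TR.Top2
set_option autoImplicit false

namespace Pool.Agent.Helper55.TR

open Pool.Agent.TwoSep

variable {N X I : Type*} [NormedAddCommGroup X] [NormedSpace ℝ X]

/-- The transfer theorem, isolated tops. -/
theorem transfer2 (p : I → Seminorm ℝ X) (C : ℝ) (hC : ∀ i x, p i x ≤ C * ‖x‖)
    (hp : ∀ i, ¬ ∃ f : N → X, (∀ n, p i (f n) = 1) ∧ ∀ n m, n ≠ m → 2 ≤ p i (f n - f m))
    (J : ℕ → Set I) (K : Submodule ℝ X)
    (hJ : ∀ x, x ∉ K → ∃ (n : ℕ) (η : ℝ), 0 ≤ η ∧ {j ∈ J n | η < p j x}.Finite ∧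
      {j ∈ J n | η < p j x}.Nonempty)
    (hNK : NoFam N K) : NoFam N X := by
  obtain ⟨p0, c0, C0, hc0, hk1, hk2, hk3⟩ := hNK
  set C1 : ℝ := max C0 1 with hC1
  have hC1pos : 0 < C1 := lt_of_lt_of_le one_pos (le_max_right _ _)
  have hk2' : ∀ x, p0 x ≤ C1 * ‖x‖ := fun x =>
    (hk2 x).trans (mul_le_mul_of_nonneg_right (le_max_left _ _) (norm_nonneg _))
  obtain ⟨Q, hN1, hN2, hN3⟩ := exists_ext K p0 c0 C1 hc0 hC1pos hk1 hk2'
  set c : ℝ := min c0 C1 with hc
  have hcpos : 0 < c := lt_min hc0 hC1pos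
  set L : ℝ := |C| / c with hL
  have hL0 : 0 ≤ L := div_nonneg (abs_nonneg _) hcpos.le
  have hQ0 : ∀ x, 0 ≤ Q x := fun x => apply_nonneg _ _
  set M : X → ℝ := fun x => L * Q x with hM
  have hM0 : ∀ x, 0 ≤ M x := fun x => mul_nonneg hL0 (hQ0 x)
  have hMp : ∀ j x, p j x ≤ M x := by
    intro j x
    have e1 := hN1 x
    have e2 : C * ‖x‖ ≤ |C| * ‖x‖ := mul_le_mul_of_nonneg_right (le_abs_self _) (norm_nonneg _)
    have e3 : M x = |C| * (Q x / c) := by rw [hM, hL]; ring
    rw [e3]
    refine (hC j x).trans (e2.trans (mul_le_mul_of_nonneg_left ?_ (abs_nonneg _)))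
    rw [le_div_iff₀ hcpos, mul_comm]
    exact e1
  -- the countable family
  let s : ℕ → NNReal := fun k => ⟨1 / (1 + k * L), by positivity⟩
  have hs : ∀ k, (0 : ℝ) < (s k : ℝ) := by
    intro k
    change (0 : ℝ) < 1 / (1 + k * L)
    positivity
  let q : ℕ → Seminorm ℝ X := fun n => Nat.casesOn n Q
    (fun m => s (Nat.unpair m).2 • Dk p (J (Nat.unpair m).1) (Nat.unpair m).2)
  have hq0 : q 0 = Q := rfl
  have hqs : ∀ m x, q (m + 1) x = (s (Nat.unpair m).2 : ℝ) * Dk p (J (Nat.unpair m).1) (Nat.unpair m).2 x :=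
    fun m x => rfl
  have hq : ∀ n x, q n x ≤ q 0 x := by
    intro n x
    rcases n with _ | m
    · exact le_rfl
    · rw [hqs, hq0]
      have e1 := Dk_le p (J (Nat.unpair m).1) (Nat.unpair m).2 M hM0 hMp x
      have e2 : (s (Nat.unpair m).2 : ℝ) = 1 / (1 + (Nat.unpair m).2 * L) := rfl
      refine (mul_le_mul_of_nonneg_left e1 (hs _).le).trans ?_
      rw [e2, hM, one_div, inv_mul_le_iff₀ (by positivity)]
      have e3 := hQ0 x
      dsimp only
      nlinarith
  obtain ⟨P, hP1, hP2, hP3⟩ := convexSem q hq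
  -- equality case
  have hD : ∀ x y, P x = 1 → P y = 1 → 2 ≤ P (x - y) → ∀ n k,
      Dk p (J n) k x = Dk p (J n) k y ∧ Dk p (J n) k (x - y) = Dk p (J n) k x + Dk p (J n) k y := by
    intro x y hx hy hxy n k
    have e1 := hP3 x y hx hy hxy (Nat.pair n k + 1)
    rw [hqs, hqs, hqs, Nat.unpair_pair] at e1
    dsimp only at e1
    have e2 := (hs k).ne'
    refine ⟨mul_left_cancel₀ e2 e1.1, mul_left_cancel₀ e2 ?_⟩
    rw [mul_add]
    exact e1.2
  refine ⟨P, c / 2, C1, by positivity, ?_, ?_, ?_⟩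
  · intro x
    have e1 := hP1 x
    have e2 := hN1 x
    rw [hq0] at e1
    linarith
  · intro x
    have e1 := hP2 x
    rw [hq0] at e1
    exact e1.trans (hN2 x)
  · rintro ⟨f, hf1, hf2⟩
    by_cases hex : ∃ a, f a ∉ K
    · obtain ⟨a0, ha0⟩ := hex
      obtain ⟨n, η, hη, hfin, hne⟩ := hJ _ ha0
      obtain ⟨s, m, hs0, hm0, t1, t2, t3⟩ := isolated p (J n) M hM0 hMp (f a0) η hη hfin hne
      -- all members of the family have the same values
      have hDa : ∀ a k, Dk p (J n) k (f a) = Dk p (J n) k (f a0) := by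
        intro a k
        by_cases h : a = a0
        · rw [h]
        · exact (hD _ _ (hf1 a) (hf1 a0) (hf2 a a0 h) n k).1
      have ht1 : ∀ a, ∀ j ∈ J n, p j (f a) ≤ m := by
        intro a j hj
        have e1 := le_Dk p (J n) 1 M hM0 hMp (f a) {j} (by simpa using hj) (by simp)
        rw [Finset.sum_singleton, hDa] at e1
        refine e1.trans (Dk_le_of p (J n) 1 M hM0 hMp (f a0) m fun A hA hAc => ?_)
        have e2 := Finset.sum_le_card_nsmul A (fun j => p j (f a0)) m fun j hj => t1 j (hA hj)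
        rw [nsmul_eq_mul] at e2
        have e3 : (A.card : ℝ) ≤ 1 := by exact_mod_cast hAc
        nlinarith
      choose R hR1 hR2 hR3 hR4 using fun a => top_set p (J n) M hM0 hMp (f a) s m hm0 (ht1 a)
        (by rw [hDa]; exact t2) (by rw [hDa]; exact t3)
      have hpair : ∀ a b, a ≠ b → R a = R b ∧ ∀ j ∈ R a, p j (f a - f b) = 2 * m := by
        intro a b hab
        have e1 := hD _ _ (hf1 a) (hf1 b) (hf2 a b hab) n
        obtain ⟨R', g1, g2, g3, g4⟩ := top_set p (J n) M hM0 hMp (f a - f b) s (2 * m) (by linarith)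
          (fun j hj => (map_sub_le_add (p j) _ _).trans (by
            have := ht1 a j hj
            have := ht1 b j hj
            linarith))
          (by rw [(e1 s).2, hDa a, hDa b]; linarith)
          (by rw [(e1 (s + 1)).2, hDa a, hDa b]; linarith)
        have h1 : ∀ j ∈ R', p j (f a) = m ∧ p j (f b) = m := by
          intro j hj
          have e2 := g3 j hj
          have e3 := map_sub_le_add (p j) (f a) (f b)
          have e4 := ht1 a j (g1 hj)
          have e5 := ht1 b j (g1 hj)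
          constructor <;> linarith
        have h2 : R' = R a := Finset.eq_of_subset_of_card_le
          (fun j hj => hR4 a j (g1 hj) (h1 j hj).1) (by rw [hR2, g2])
        have h3 : R' = R b := Finset.eq_of_subset_of_card_le
          (fun j hj => hR4 b j (g1 hj) (h1 j hj).2) (by rw [hR2, g2])
        refine ⟨by rw [← h2, ← h3], fun j hj => ?_⟩
        rw [← h2] at hj
        exact g3 j hj
      obtain ⟨i, hi⟩ : (R a0).Nonempty := by
        rw [← Finset.card_pos, hR2]
        exact hs0
      have hRa : ∀ a, R a = R a0 := by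
        intro a
        by_cases h : a = a0
        · rw [h]
        · exact (hpair a a0 h).1
      apply hp i
      refine ⟨fun a => m⁻¹ • f a, ?_, ?_⟩
      · intro a
        rw [map_smul_eq_mul, hR3 a i (by rw [hRa]; exact hi), norm_inv, Real.norm_of_nonneg hm0.le,
          inv_mul_cancel₀ hm0.ne']
      · intro a b hab
        rw [← smul_sub, map_smul_eq_mul, (hpair a b hab).2 i (by rw [hRa]; exact hi), norm_inv,
          Real.norm_of_nonneg hm0.le]
        have : m⁻¹ * (2 * m) = 2 := by field_simp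
        rw [this]
    · push Not at hex
      rcases isEmpty_or_nonempty N with hN | ⟨⟨n0⟩⟩
      · exact hk3 ⟨fun n => (hN.false n).elim, fun n => (hN.false n).elim,
          fun n => (hN.false n).elim⟩
      · have hb : ∀ n, Q (f n) = Q (f n0) := by
          intro n
          by_cases h : n = n0
          · rw [h]
          · have := (hP3 _ _ (hf1 n) (hf1 n0) (hf2 n n0 h) 0).1
            rwa [hq0] at this
        have hpos : 0 < Q (f n0) := by
          have e1 := hP2 (f n0)
          rw [hq0, hf1] at e1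
          linarith
        set r := Q (f n0) with hr
        apply hk3
        refine ⟨fun n => r⁻¹ • ⟨f n, hex n⟩, ?_, ?_⟩
        · intro n
          rw [map_smul_eq_mul, ← hN3]
          change ‖r⁻¹‖ * Q (f n) = 1
          rw [hb n, norm_inv, Real.norm_of_nonneg hpos.le, inv_mul_cancel₀ hpos.ne']
        · intro n m hnm
          rw [← smul_sub, map_smul_eq_mul, ← hN3]
          change 2 ≤ ‖r⁻¹‖ * Q (f n - f m)
          have e1 := (hP3 _ _ (hf1 n) (hf1 m) (hf2 n m hnm) 0).2
          rw [hq0, hb n, hb m] at e1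
          rw [e1, norm_inv, Real.norm_of_nonneg hpos.le]
          have : r⁻¹ * (r + r) = 2 := by field_simp; norm_num
          rw [this]

end Pool.Agent.Helper55.TR
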