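import Pool.Agent.Helper55.TR.Good
set_option autoImplicit false

open scoped Topology

namespace Pool.Agent.Helper55.TR

/-- `A` is stable for `L`: cutting off the coordinates outside `A` keeps the points of `L` in `L`. -/
def Stab {Γ : Type*} (L : Set (Γ → ℝ)) (A : Set Γ) : Prop := ∀ x ∈ L, A.indicator x ∈ L

section

variable {Γ : Type*} {L : Set (Γ → ℝ)}

theorem finite_dep2 [CompactSpace L] {W : Type*} [NormedAddCommGroup W]
    (f : C(L, W)) (ε : ℝ) (hε : 0 < ε) :
    ∃ F : Set Γ, F.Finite ∧ ∀ x y : L, (∀ i ∈ F, x.1 i = y.1 i) → ‖f x - f y‖ < ε := by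
  have h : ∀ x : L, ∃ F : Set Γ, F.Finite ∧ ∃ t : Γ → Set ℝ, (∀ i, t i ∈ 𝓝 (x.1 i)) ∧
      ∀ y : L, y.1 ∈ F.pi t → ‖f y - f x‖ < ε / 2 := by
    intro x
    have h1 : {y : L | ‖f y - f x‖ < ε / 2} ∈ 𝓝 x := by
      have := f.continuous.continuousAt.eventually (Metric.ball_mem_nhds (f x) (half_pos hε))
      filter_upwards [this] with y hy
      rwa [← dist_eq_norm]
    rw [nhds_subtype_eq_comap, Filter.mem_comap] at h1
    obtain ⟨t', ht', hs'⟩ := h1
    rw [nhds_pi, Filter.mem_pi] at ht'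
    obtain ⟨F, hF, t, ht, hs⟩ := ht'
    exact ⟨F, hF, t, ht, fun y hy => hs' (hs hy)⟩
  choose F hF t ht hs using h
  obtain ⟨T, hT⟩ := CompactSpace.elim_nhds_subcover
    (fun x : L => (Subtype.val : L → (Γ → ℝ)) ⁻¹' ((F x).pi (t x)))
    (fun x => continuous_subtype_val.continuousAt (set_pi_mem_nhds (hF x) fun i _ => ht x i))
  refine ⟨⋃ x ∈ T, F x, T.finite_toSet.biUnion fun x _ => hF x, fun x y hxy => ?_⟩
  have hx : x ∈ ⋃ z ∈ T, (Subtype.val : L → (Γ → ℝ)) ⁻¹' ((F z).pi (t z)) := by rw [hT]; trivial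
  simp only [Set.mem_iUnion] at hx
  obtain ⟨z, hz, hxz⟩ := hx
  have hyz : y.1 ∈ (F z).pi (t z) := by
    intro i hi
    rw [← hxy i (Set.mem_biUnion hz hi)]
    exact hxz i hi
  have e1 : ‖f x - f z‖ < ε / 2 := hs z x hxz
  have e2 : ‖f y - f z‖ < ε / 2 := hs z y hyz
  have e3 : ‖f x - f y‖ ≤ ‖f x - f z‖ + ‖f y - f z‖ := by
    have : f x - f y = (f x - f z) - (f y - f z) := by abel
    rw [this]
    exact norm_sub_le _ _
  linarith

/-- The retraction belonging to a stable set. -/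
noncomputable def rt (A : {A : Set Γ // Stab L A}) : C(L, L) :=
  ⟨fun x => ⟨A.1.indicator x.1, A.2 x.1 x.2⟩, by
    refine Continuous.subtype_mk (continuous_pi fun i => ?_) _
    by_cases h : i ∈ A.1
    · simp only [Set.indicator_of_mem h]
      exact (continuous_apply i).comp continuous_subtype_val
    · simp only [Set.indicator_of_notMem h]
      exact continuous_const⟩

theorem rt_of_mem (A : {A : Set Γ // Stab L A}) (x : L) (i : Γ) (h : i ∈ A.1) :
    (rt A x).1 i = x.1 i := Set.indicator_of_mem h _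

theorem rt_of_notMem (A : {A : Set Γ // Stab L A}) (x : L) (i : Γ) (h : i ∉ A.1) :
    (rt A x).1 i = 0 := Set.indicator_of_notMem h _

theorem rt_rt (A B : {A : Set Γ // Stab L A}) (h : A.1 ⊆ B.1) (x : L) :
    rt A (rt B x) = rt A x := by
  apply Subtype.ext
  funext i
  by_cases hi : i ∈ A.1
  · rw [rt_of_mem A _ i hi, rt_of_mem A _ i hi, rt_of_mem B _ i (h hi)]
  · rw [rt_of_notMem A _ i hi, rt_of_notMem A _ i hi]

/-- The functions that depend only on the coordinates in `A`. -/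
def YA (W : Type*) [NormedAddCommGroup W] [NormedSpace ℝ W] (A : {A : Set Γ // Stab L A}) :
    Submodule ℝ C(L, W) where
  carrier := {f | ∀ x, f (rt A x) = f x}
  zero_mem' := fun _ => rfl
  add_mem' := fun {f g} hf hg x => by
    simp only [ContinuousMap.add_apply]
    rw [hf x, hg x]
  smul_mem' := fun a f hf x => by
    simp only [ContinuousMap.smul_apply]
    rw [hf x]

variable {W : Type*} [NormedAddCommGroup W] [NormedSpace ℝ W] [CompactSpace L]
  {J : Type*} [LinearOrder J]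

theorem const_of2 (B0 : {A : Set Γ // Stab L A}) (B : J → {A : Set Γ // Stab L A})
    (hB0 : ∀ j, B0.1 ⊆ (B j).1) (hmono : ∀ i j, i ≤ j → (B i).1 ⊆ (B j).1)
    (U : {A : Set Γ // Stab L A}) (I' : Set J) (hU : U.1 = B0.1 ∪ ⋃ i ∈ I', (B i).1)
    (f : C(L, W)) (h : ∀ j ∈ I', ∀ x, f (rt (B j) x) = f (rt B0 x)) (x : L) :
    f (rt U x) = f (rt B0 x) := by
  classical
  by_contra hne
  obtain ⟨F, hF, hdep⟩ := finite_dep2 f _ (norm_pos_iff.2 (sub_ne_zero.2 hne))
  have hex : ∀ T : Finset Γ, (T : Set Γ) ⊆ U.1 → ∃ C : {A : Set Γ // Stab L A},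
      (C = B0 ∨ ∃ i ∈ I', C = B i) ∧ (T : Set Γ) ⊆ C.1 := by
    intro T
    induction T using Finset.induction_on with
    | empty => intro _; exact ⟨B0, Or.inl rfl, by simp⟩
    | insert γ T hγ ih =>
      intro hT
      rw [Finset.coe_insert, Set.insert_subset_iff] at hT
      obtain ⟨C, hC, hTC⟩ := ih hT.2
      have hB0C : B0.1 ⊆ C.1 := by
        rcases hC with h | ⟨i, -, h⟩
        · rw [h]
        · rw [h]; exact hB0 i
      have hγU := hT.1
      rw [hU] at hγU
      rcases hγU with hγ0 | hγi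
      · refine ⟨C, hC, ?_⟩
        rw [Finset.coe_insert, Set.insert_subset_iff]
        exact ⟨hB0C hγ0, hTC⟩
      · simp only [Set.mem_iUnion] at hγi
        obtain ⟨i, hi, hγi⟩ := hγi
        rcases hC with h | ⟨i', hi', h⟩
        · refine ⟨B i, Or.inr ⟨i, hi, rfl⟩, ?_⟩
          rw [Finset.coe_insert, Set.insert_subset_iff]
          exact ⟨hγi, fun z hz => hB0 i (h ▸ hTC hz)⟩
        · rcases le_total i i' with hii | hii
          · refine ⟨C, Or.inr ⟨i', hi', h⟩, ?_⟩
            rw [Finset.coe_insert, Set.insert_subset_iff]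
            exact ⟨by rw [h]; exact hmono _ _ hii hγi, hTC⟩
          · refine ⟨B i, Or.inr ⟨i, hi, rfl⟩, ?_⟩
            rw [Finset.coe_insert, Set.insert_subset_iff]
            exact ⟨hγi, fun z hz => hmono _ _ hii (h ▸ hTC hz)⟩
  obtain ⟨C, hC, hTC⟩ := hex (hF.subset (Set.inter_subset_left : F ∩ U.1 ⊆ F)).toFinset (by
    intro z hz
    rw [Set.Finite.coe_toFinset] at hz
    exact hz.2)
  rw [Set.Finite.coe_toFinset] at hTC
  have hCU : C.1 ⊆ U.1 := by
    rw [hU]
    rcases hC with h | ⟨i, hi, h⟩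
    · rw [h]; exact Set.subset_union_left
    · rw [h]
      exact fun z hz => Or.inr (Set.mem_biUnion hi hz)
  have hfC : f (rt C x) = f (rt B0 x) := by
    rcases hC with h' | ⟨i, hi, h'⟩
    · rw [h']
    · rw [h']; exact h i hi x
  have := hdep (rt U x) (rt C x) fun i hi => by
    by_cases hiU : i ∈ U.1
    · rw [rt_of_mem U x i hiU, rt_of_mem C x i (hTC ⟨hi, hiU⟩)]
    · rw [rt_of_notMem U x i hiU, rt_of_notMem C x i fun h' => hiU (hCU h')]
  rw [hfC] at this
  exact lt_irrefl _ this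

/-- The chain step. -/
theorem chain_step {N : Type*} [WellFoundedLT J] (B0 : {A : Set Γ // Stab L A})
    (B Bm : J → {A : Set Γ // Stab L A})
    (hB0 : ∀ j, B0.1 ⊆ (B j).1) (hmono : ∀ i j, i ≤ j → (B i).1 ⊆ (B j).1)
    (hBm : ∀ j, (Bm j).1 = B0.1 ∪ ⋃ i ∈ Set.Iio j, (B i).1)
    (A : {A : Set Γ // Stab L A}) (hA : A.1 = B0.1 ∪ ⋃ i ∈ (Set.univ : Set J), (B i).1)
    (h0 : NoFam N (YA W B0)) (hQ : ∀ j, NoFam N (YA W (B j))) : NoFam N (YA W A) := by
  have hBmB : ∀ j, (Bm j).1 ⊆ (B j).1 := by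
    intro j
    rw [hBm]
    refine Set.union_subset (hB0 j) (Set.iUnion₂_subset fun i hi => hmono i j (le_of_lt hi))
  have hmem : ∀ (j : J) (f : C(L, W)),
      f.comp (rt (B j)) - f.comp (rt (Bm j)) ∈ YA W (B j) := by
    intro j f x
    simp only [ContinuousMap.sub_apply, ContinuousMap.comp_apply]
    rw [rt_rt _ _ subset_rfl, rt_rt _ _ (hBmB j)]
  let S : ∀ j : J, (YA W A →ₗ[ℝ] YA W (B j)) := fun j =>
    { toFun := fun f => ⟨_, hmem j f.1⟩
      map_add' := fun f g => by
        ext x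
        change (f.1 + g.1) _ - (f.1 + g.1) _ = _
        simp only [ContinuousMap.add_apply]
        change _ = (f.1 _ - f.1 _) + (g.1 _ - g.1 _)
        abel
      map_smul' := fun a f => by
        ext x
        change (a • f.1) _ - (a • f.1) _ = _
        simp only [ContinuousMap.smul_apply]
        change _ = a • (f.1 _ - f.1 _)
        rw [smul_sub] }
  let K0 : Submodule ℝ (YA W A) :=
    { carrier := {f | ∀ x, f.1 (rt B0 x) = f.1 x}
      zero_mem' := fun x => rfl
      add_mem' := fun {f g} hf hg x => by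
        change f.1 _ + g.1 _ = f.1 x + g.1 x
        rw [hf x, hg x]
      smul_mem' := fun a f hf x => by
        change a • f.1 _ = a • f.1 x
        rw [hf x] }
  refine operators (W := fun j : J => YA W (B j)) S 2 ?_ hQ (fun _ => Set.univ) ?_ K0 ?_ ?_
  · intro j f
    have h1 : ∀ D : {A : Set Γ // Stab L A}, ‖f.1.comp (rt D)‖ ≤ ‖f.1‖ := by
      intro D
      rw [ContinuousMap.norm_le _ (norm_nonneg _)]
      intro x
      exact f.1.norm_coe_le_norm _
    calc ‖S j f‖ = ‖f.1.comp (rt (B j)) - f.1.comp (rt (Bm j))‖ := rfl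
      _ ≤ ‖f.1.comp (rt (B j))‖ + ‖f.1.comp (rt (Bm j))‖ := norm_sub_le _ _
      _ ≤ ‖f.1‖ + ‖f.1‖ := add_le_add (h1 _) (h1 _)
      _ = 2 * ‖f‖ := by rw [two_mul]; rfl
  · intro i f _
    refine ⟨0, trivial, fun ε hε => ?_⟩
    obtain ⟨F, hF, hdep⟩ := finite_dep2 f.1 (ε / 2) (half_pos hε)
    have hfin : (⋃ γ ∈ F, {j : J | γ ∈ (B j).1 ∧ γ ∉ (Bm j).1}).Finite := by
      refine hF.biUnion fun γ _ => Set.Subsingleton.finite ?_
      rintro j ⟨hj1, hj2⟩ j' ⟨hj1', hj2'⟩
      rcases lt_trichotomy j j' with h | h | h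
      · exact absurd (by rw [hBm]; exact Or.inr (Set.mem_biUnion (show j ∈ Set.Iio j' from h) hj1)) hj2'
      · exact h
      · exact absurd (by rw [hBm]; exact Or.inr (Set.mem_biUnion (show j' ∈ Set.Iio j from h) hj1')) hj2
    refine hfin.subset ?_
    rintro j ⟨-, hj⟩
    change ε ≤ ‖f.1.comp (rt (B j)) - f.1.comp (rt (Bm j))‖ at hj
    by_contra hcon
    simp only [Set.mem_iUnion, not_exists] at hcon
    have h1 : ‖f.1.comp (rt (B j)) - f.1.comp (rt (Bm j))‖ ≤ ε / 2 := by
      rw [ContinuousMap.norm_le _ (half_pos hε).le]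
      intro x
      refine (hdep (rt (B j) x) (rt (Bm j) x) fun γ hγ => ?_).le
      by_cases h : γ ∈ (B j).1
      · have hm : γ ∈ (Bm j).1 := by
          by_contra hm
          exact hcon γ hγ ⟨h, hm⟩
        rw [rt_of_mem _ x γ h, rt_of_mem _ x γ hm]
      · rw [rt_of_notMem _ x γ h, rt_of_notMem _ x γ fun h' => h (hBmB j h')]
    linarith
  · intro f hf
    have hj : ∀ j, ∀ x, f.1 (rt (B j) x) = f.1 (rt (Bm j) x) := by
      intro j x
      have := congrArg (fun g : YA W (B j) => g.1 x) (hf j)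
      change f.1 (rt (B j) x) - f.1 (rt (Bm j) x) = 0 at this
      exact sub_eq_zero.1 this
    have key : ∀ j, ∀ x, f.1 (rt (B j) x) = f.1 (rt B0 x) := by
      intro j
      induction j using WellFoundedLT.induction with
      | ind j ih =>
        intro x
        rw [hj]
        exact const_of2 B0 B hB0 hmono (Bm j) (Set.Iio j) (hBm j) f.1 (fun i hi => ih i hi) x
    intro x
    have h1 := const_of2 B0 B hB0 hmono A Set.univ hA f.1 (fun i _ => key i) x
    rw [← h1]
    exact f.2 x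
  · let T : K0 →ₗ[ℝ] YA W B0 :=
      { toFun := fun f => ⟨f.1.1, f.2⟩
        map_add' := fun f g => rfl
        map_smul' := fun a f => rfl }
    exact NoFam.of_embed T 1 1 one_pos (fun x => by rw [one_mul]; rfl) (fun x => by rw [one_mul]; rfl) h0

end

end Pool.Agent.Helper55.TR
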