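import Pool.Agent.Helper55.TR.Val1
set_option autoImplicit false

open scoped Topology Cardinal

namespace Pool.Agent.Helper55.TR

/-- Closed under a countable family of finitary operations. -/
def OpClosed {Γ : Type*} (op : ∀ n : ℕ, (Fin n → ℚ × ℚ) × ℕ → (Fin n → Γ) → Γ) (B : Set Γ) : Prop :=
  ∀ (n : ℕ) (F : (Fin n → ℚ × ℚ) × ℕ) (v : Fin n → Γ), (∀ i, v i ∈ B) → op n F v ∈ B

theorem exists_closure.{u} {Γ : Type u} (op : ∀ n : ℕ, (Fin n → ℚ × ℚ) × ℕ → (Fin n → Γ) → Γ) :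
    ∃ cl : Set Γ → Set Γ, (∀ A, A ⊆ cl A) ∧ (∀ A, OpClosed op (cl A)) ∧
      (∀ A B, A ⊆ B → OpClosed op B → cl A ⊆ B) ∧ (∀ A, #(cl A) ≤ max ℵ₀ #A) := by
  let Lg : FirstOrder.Language.{0, 0} := ⟨fun n => (Fin n → ℚ × ℚ) × ℕ, fun _ => Empty⟩
  letI : Lg.Structure Γ := { funMap := fun {n} F v => op n F v, RelMap := fun {n} r => r.elim }
  refine ⟨fun A => (FirstOrder.Language.Substructure.closure Lg A : Set Γ), ?_, ?_, ?_, ?_⟩
  · intro A
    exact FirstOrder.Language.Substructure.subset_closure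
  · intro A n F v hv
    exact (FirstOrder.Language.Substructure.closure Lg A).fun_mem (n := n) F v hv
  · intro A B hAB hB
    have h := (FirstOrder.Language.Substructure.closure_le (L := Lg) (s := A)
      (S := ⟨B, fun {n} F v hv => hB n F v hv⟩)).2 hAB
    exact h
  · intro A
    have h := FirstOrder.Language.Substructure.lift_card_closure_le (L := Lg) (s := A)
    have h2 : #(Σ i, Lg.Functions i) ≤ ℵ₀ := by
      have : Countable (Σ i : ℕ, (Fin i → ℚ × ℚ) × ℕ) := inferInstance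
      exact Cardinal.mk_le_aleph0_iff.2 this
    have h3 : Cardinal.lift.{u, 0} #(Σ i, Lg.Functions i) ≤ ℵ₀ := by
      rw [Cardinal.lift_le_aleph0]
      exact h2
    rw [Cardinal.lift_uzero, Cardinal.lift_uzero] at h
    refine h.trans (max_le (le_max_left _ _) ?_)
    rcases le_total #A ℵ₀ with h4 | h4
    · exact (Cardinal.add_le_aleph0.2 ⟨h4, h3⟩).trans (le_max_left _ _)
    · refine le_trans ?_ (le_max_right _ _)
      exact Cardinal.add_le_of_le h4 le_rfl (h3.trans h4)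

theorem dir_union {Γ J : Type*} [LinearOrder J] (B0 : Set Γ) (B : J → Set Γ)
    (hB0 : ∀ j, B0 ⊆ B j) (hmono : ∀ i j, i ≤ j → B i ⊆ B j) (I' : Set J) (T : Finset Γ)
    (hT : (T : Set Γ) ⊆ B0 ∪ ⋃ i ∈ I', B i) :
    ∃ C : Set Γ, (C = B0 ∨ ∃ i ∈ I', C = B i) ∧ (T : Set Γ) ⊆ C := by
  classical
  induction T using Finset.induction_on with
  | empty => exact ⟨B0, Or.inl rfl, by simp⟩
  | insert γ T hγ ih =>
    rw [Finset.coe_insert, Set.insert_subset_iff] at hT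
    obtain ⟨C, hC, hTC⟩ := ih hT.2
    have hB0C : B0 ⊆ C := by
      rcases hC with h | ⟨i, -, h⟩
      · rw [h]
      · rw [h]; exact hB0 i
    rcases hT.1 with hγ0 | hγi
    · refine ⟨C, hC, ?_⟩
      rw [Finset.coe_insert, Set.insert_subset_iff]
      exact ⟨hB0C hγ0, hTC⟩
    · simp only [Set.mem_iUnion] at hγi
      obtain ⟨i, hi, hγi⟩ := hγi
      rcases hC with h | ⟨i', hi', h⟩
      · refine ⟨B i, Or.inr ⟨i, hi, rfl⟩, ?_⟩
        rw [Finset.coe_insert, Set.insert_subset_iff]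
        exact ⟨hγi, fun z hz => hB0 i (h ▸ hTC hz)⟩
      · rcases le_total i i' with hii | hii
        · refine ⟨C, Or.inr ⟨i', hi', h⟩, ?_⟩
          rw [Finset.coe_insert, Set.insert_subset_iff]
          exact ⟨by rw [h]; exact hmono _ _ hii hγi, hTC⟩
        · refine ⟨B i, Or.inr ⟨i, hi, rfl⟩, ?_⟩
          rw [Finset.coe_insert, Set.insert_subset_iff]
          exact ⟨hγi, fun z hz => hmono _ _ hii (h ▸ hTC hz)⟩

theorem closed_union {Γ J : Type*} [LinearOrder J]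
    (op : ∀ n : ℕ, (Fin n → ℚ × ℚ) × ℕ → (Fin n → Γ) → Γ) (B0 : Set Γ) (B : J → Set Γ)
    (hB0 : ∀ j, B0 ⊆ B j) (hmono : ∀ i j, i ≤ j → B i ⊆ B j) (h0 : OpClosed op B0)
    (h1 : ∀ j, OpClosed op (B j)) (I' : Set J) : OpClosed op (B0 ∪ ⋃ i ∈ I', B i) := by
  classical
  intro n F v hv
  obtain ⟨C, hC, hTC⟩ := dir_union B0 B hB0 hmono I' (Finset.univ.image v) (by
    intro z hz
    rw [Finset.coe_image] at hz
    obtain ⟨k, -, rfl⟩ := hz
    exact hv k)
  have hvC : ∀ k, v k ∈ C := fun k => hTC (by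
    rw [Finset.coe_image]
    exact ⟨k, Finset.mem_coe.2 (Finset.mem_univ k), rfl⟩)
  rcases hC with h | ⟨i, hi, h⟩
  · rw [h] at hvC
    exact Or.inl (h0 n F v hvC)
  · rw [h] at hvC
    exact Or.inr (Set.mem_biUnion hi (h1 i n F v hvC))

/-- Rational boxes. -/
def box {Γ : Type*} (n : ℕ) (q : Fin n → ℚ × ℚ) (v : Fin n → Γ) : Set (Γ → ℝ) :=
  {x | ∀ i, ((q i).1 : ℝ) < x (v i) ∧ x (v i) < ((q i).2 : ℝ)}

theorem isOpen_box {Γ : Type*} (n : ℕ) (q : Fin n → ℚ × ℚ) (v : Fin n → Γ) :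
    IsOpen (box n q v) := by
  have : box n q v = ⋂ i, {x : Γ → ℝ | ((q i).1 : ℝ) < x (v i) ∧ x (v i) < ((q i).2 : ℝ)} := by
    ext x
    simp only [box, Set.mem_setOf_eq, Set.mem_iInter]
  rw [this]
  refine isOpen_iInter_of_finite fun i => ?_
  exact (isOpen_lt continuous_const (continuous_apply _)).inter
    (isOpen_lt (continuous_apply _) continuous_const)

/-- The choice of points and of enumerations of their supports. -/
theorem exists_points {Γ : Type*} [Nonempty Γ] (D : Set (Γ → ℝ))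
    (hD : ∀ x ∈ D, {i | x i ≠ 0}.Countable) :
    ∃ (y : ∀ n : ℕ, (Fin n → ℚ × ℚ) → (Fin n → Γ) → Γ → ℝ)
      (op : ∀ n : ℕ, (Fin n → ℚ × ℚ) × ℕ → (Fin n → Γ) → Γ),
      (∀ n q v, (∃ x ∈ D, x ∈ box n q v) → y n q v ∈ D ∧ y n q v ∈ box n q v) ∧
      ∀ n q v i, (∃ x ∈ D, x ∈ box n q v) → y n q v i ≠ 0 → ∃ k, op n (q, k) v = i := by
  have h : ∀ (n : ℕ) (q : Fin n → ℚ × ℚ) (v : Fin n → Γ), ∃ (y : Γ → ℝ) (e : ℕ → Γ),
      (∃ x ∈ D, x ∈ box n q v) → (y ∈ D ∧ y ∈ box n q v) ∧ ∀ i, y i ≠ 0 → ∃ k, e k = i := by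
    intro n q v
    by_cases hx : ∃ x ∈ D, x ∈ box n q v
    · obtain ⟨x, hxD, hxb⟩ := hx
      obtain ⟨γ0⟩ := ‹Nonempty Γ›
      have hc : (insert γ0 {i | x i ≠ 0}).Countable := (hD x hxD).insert γ0
      obtain ⟨e, he⟩ := hc.exists_eq_range ⟨γ0, Set.mem_insert _ _⟩
      refine ⟨x, e, fun _ => ⟨⟨hxD, hxb⟩, fun i hi => ?_⟩⟩
      have : i ∈ insert γ0 {i | x i ≠ 0} := Set.mem_insert_of_mem _ hi
      rw [he] at this
      exact this
    · obtain ⟨γ0⟩ := ‹Nonempty Γ›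
      exact ⟨0, fun _ => γ0, fun h => absurd h hx⟩
  choose y e hye using h
  refine ⟨y, fun n F v => e n F.1 v F.2, fun n q v hx => (hye n q v hx).1, fun n q v i hx hi => ?_⟩
  exact (hye n q v hx).2 i hi

section

variable {Γ : Type*} {L : Set (Γ → ℝ)} {D : Set (Γ → ℝ)}
  {y : ∀ n : ℕ, (Fin n → ℚ × ℚ) → (Fin n → Γ) → Γ → ℝ}
  {op : ∀ n : ℕ, (Fin n → ℚ × ℚ) × ℕ → (Fin n → Γ) → Γ}

theorem approx (hDL : D ⊆ L) (hLD : L ⊆ closure D)
    (hy : ∀ n q v, (∃ x ∈ D, x ∈ box n q v) → y n q v ∈ D ∧ y n q v ∈ box n q v)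
    (hop : ∀ n q v i, (∃ x ∈ D, x ∈ box n q v) → y n q v i ≠ 0 → ∃ k, op n (q, k) v = i)
    (A : Set Γ) (hA : OpClosed op A) (x : Γ → ℝ) (hx : x ∈ L) (s : Set (Γ → ℝ))
    (hs : s ∈ 𝓝 (A.indicator x)) :
    ∃ (n : ℕ) (q : Fin n → ℚ × ℚ) (v : Fin n → A), y n q (fun i => (v i : Γ)) ∈ L ∧
      y n q (fun i => (v i : Γ)) ∈ s ∧ ∀ i, i ∉ A → y n q (fun i => (v i : Γ)) i = 0 := by
  classical
  rw [nhds_pi, Filter.mem_pi] at hs
  obtain ⟨F, hF, t, ht, hFt⟩ := hs
  have hQ : ∀ i, ∃ q : ℚ × ℚ, (q.1 : ℝ) < A.indicator x i ∧ A.indicator x i < (q.2 : ℝ) ∧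
      Set.Ioo (q.1 : ℝ) (q.2 : ℝ) ⊆ t i := by
    intro i
    obtain ⟨δ, hδ, hball⟩ := Metric.mem_nhds_iff.1 (ht i)
    obtain ⟨q1, h1, h2⟩ := exists_rat_btwn (sub_lt_self (A.indicator x i) hδ)
    obtain ⟨q2, h3, h4⟩ := exists_rat_btwn (lt_add_of_pos_right (A.indicator x i) hδ)
    refine ⟨(q1, q2), h2, h3, fun z hz => hball ?_⟩
    rw [Metric.mem_ball, Real.dist_eq, abs_lt]
    have hz1 : (q1 : ℝ) < z := hz.1
    have hz2 : z < (q2 : ℝ) := hz.2
    constructor <;> linarith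
  choose Q hQ1 hQ2 hQ3 using hQ
  set T : Finset Γ := (hF.subset (Set.inter_subset_left : F ∩ A ⊆ F)).toFinset with hT
  have hTm : ∀ i, i ∈ T ↔ i ∈ F ∧ i ∈ A := by
    intro i
    rw [hT, Set.Finite.mem_toFinset]
    rfl
  let v : Fin T.card → A := fun k => ⟨(T.equivFin.symm k).1, ((hTm _).1 (T.equivFin.symm k).2).2⟩
  let q : Fin T.card → ℚ × ℚ := fun k => Q (v k)
  have hxbox : x ∈ box T.card q (fun i => (v i : Γ)) := by
    intro k
    have h1 : A.indicator x (v k : Γ) = x (v k : Γ) := Set.indicator_of_mem (v k).2 _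
    have h2 := hQ1 (v k : Γ)
    have h3 := hQ2 (v k : Γ)
    rw [h1] at h2 h3
    exact ⟨h2, h3⟩
  have hex : ∃ z ∈ D, z ∈ box T.card q (fun i => (v i : Γ)) := by
    obtain ⟨z, hz1, hz2⟩ := mem_closure_iff.1 (hLD hx) _ (isOpen_box _ _ _) hxbox
    exact ⟨z, hz2, hz1⟩
  obtain ⟨hyD, hybox⟩ := hy _ _ _ hex
  have hsupp : ∀ i, i ∉ A → y T.card q (fun i => (v i : Γ)) i = 0 := by
    intro i hi
    by_contra hne
    obtain ⟨k, hk⟩ := hop _ _ _ i hex hne
    exact hi (hk ▸ hA _ _ _ fun j => (v j).2)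
  refine ⟨T.card, q, v, hDL hyD, hFt ?_, hsupp⟩
  intro i hi
  by_cases hiA : i ∈ A
  · have hiT : i ∈ T := (hTm i).2 ⟨hi, hiA⟩
    have h1 := hybox (T.equivFin ⟨i, hiT⟩)
    have h2 : ((v (T.equivFin ⟨i, hiT⟩) : A) : Γ) = i := by
      change (T.equivFin.symm (T.equivFin ⟨i, hiT⟩)).1 = i
      rw [Equiv.symm_apply_apply]
    have h3 : q (T.equivFin ⟨i, hiT⟩) = Q i := by
      change Q (v (T.equivFin ⟨i, hiT⟩) : Γ) = Q i
      rw [h2]
    rw [h3] at h1
    apply hQ3 i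
    have h4 : (fun i => (v i : Γ)) (T.equivFin ⟨i, hiT⟩) = i := h2
    rw [h4] at h1
    exact h1
  · rw [hsupp i hiA]
    have h1 := mem_of_mem_nhds (ht i)
    rwa [Set.indicator_of_notMem hiA] at h1

theorem stab_of_closed (hL : IsClosed L) (hDL : D ⊆ L) (hLD : L ⊆ closure D)
    (hy : ∀ n q v, (∃ x ∈ D, x ∈ box n q v) → y n q v ∈ D ∧ y n q v ∈ box n q v)
    (hop : ∀ n q v i, (∃ x ∈ D, x ∈ box n q v) → y n q v i ≠ 0 → ∃ k, op n (q, k) v = i)
    (A : Set Γ) (hA : OpClosed op A) : Stab L A := by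
  intro x hx
  rw [← hL.closure_eq, mem_closure_iff_nhds]
  intro s hs
  obtain ⟨n, q, v, h1, h2, -⟩ := approx hDL hLD hy hop A hA x hx s hs
  exact ⟨_, h2, h1⟩

theorem countable_case {N W : Type*} [NormedAddCommGroup W] [NormedSpace ℝ W] [CompactSpace L]
    (hDL : D ⊆ L) (hLD : L ⊆ closure D)
    (hy : ∀ n q v, (∃ x ∈ D, x ∈ box n q v) → y n q v ∈ D ∧ y n q v ∈ box n q v)
    (hop : ∀ n q v i, (∃ x ∈ D, x ∈ box n q v) → y n q v i ≠ 0 → ∃ k, op n (q, k) v = i)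
    (A : {A : Set Γ // Stab L A}) (hA : OpClosed op A.1) (hc : A.1.Countable)
    (hW : NoFam N W) : NoFam N (YA W A) := by
  have hN : Nonempty N := hW.nonempty
  have : Countable A.1 := hc.to_subtype
  let I0 : Type _ := Σ n : ℕ, (Fin n → ℚ × ℚ) × (Fin n → A.1)
  let pt : I0 → Γ → ℝ := fun u => y u.1 u.2.1 (fun i => (u.2.2 i : Γ))
  have hc1 : Countable I0 := inferInstance
  let I1 : Type _ := {u : I0 // pt u ∈ L}
  have hc2 : Countable I1 := inferInstance
  obtain ⟨g, hg⟩ := exists_injective_nat I1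
  let S : I1 → (YA W A →ₗ[ℝ] W) := fun u =>
    { toFun := fun f => f.1 ⟨pt u.1, u.2⟩
      map_add' := fun f f' => rfl
      map_smul' := fun a f => rfl }
  refine operators (W := fun _ : I1 => W) S 1 ?_ (fun _ => hW) (fun n => {u | g u = n}) ?_ ⊥ ?_
    (NoFam.of_subsingleton fun x => Subsingleton.elim _ _)
  · intro u f
    rw [one_mul]
    exact f.1.norm_coe_le_norm _
  · intro u f _
    refine ⟨g u, rfl, fun ε _ => Set.Subsingleton.finite ?_⟩
    rintro a ⟨ha, -⟩ b ⟨hb, -⟩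
    exact hg (ha.trans hb.symm)
  · intro f hf
    rw [Submodule.mem_bot]
    apply Subtype.ext
    ext x
    change f.1 x = 0
    rw [← f.2 x]
    by_contra hne
    have hpos := norm_pos_iff.2 hne
    have h1 : {z : L | ‖f.1 z - f.1 (rt A x)‖ < ‖f.1 (rt A x)‖} ∈ 𝓝 (rt A x) := by
      have := f.1.continuous.continuousAt.eventually (Metric.ball_mem_nhds (f.1 (rt A x)) hpos)
      filter_upwards [this] with z hz
      rwa [← dist_eq_norm]
    rw [nhds_subtype_eq_comap, Filter.mem_comap] at h1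
    obtain ⟨t, ht, hts⟩ := h1
    obtain ⟨n, q, v, g1, g2, -⟩ := approx hDL hLD hy hop A.1 hA x.1 x.2 t ht
    have h2 : f.1 ⟨y n q (fun i => (v i : Γ)), g1⟩ = 0 := hf ⟨⟨n, q, v⟩, g1⟩
    have h3 : ‖f.1 ⟨y n q (fun i => (v i : Γ)), g1⟩ - f.1 (rt A x)‖ < ‖f.1 (rt A x)‖ := hts g2
    rw [h2, zero_sub, norm_neg] at h3
    exact lt_irrefl _ h3

end

theorem main_ind.{v, u} {N : Type v} {Γ : Type u} {L : Set (Γ → ℝ)} {D : Set (Γ → ℝ)}
    {y : ∀ n : ℕ, (Fin n → ℚ × ℚ) → (Fin n → Γ) → Γ → ℝ}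
    {op : ∀ n : ℕ, (Fin n → ℚ × ℚ) × ℕ → (Fin n → Γ) → Γ}
    {W : Type u} [NormedAddCommGroup W] [NormedSpace ℝ W] [CompactSpace L]
    (hDL : D ⊆ L) (hLD : L ⊆ closure D)
    (hy : ∀ n q v, (∃ x ∈ D, x ∈ box n q v) → y n q v ∈ D ∧ y n q v ∈ box n q v)
    (hop : ∀ n q v i, (∃ x ∈ D, x ∈ box n q v) → y n q v i ≠ 0 → ∃ k, op n (q, k) v = i)
    (hst : ∀ A, OpClosed op A → Stab L A) (hW : NoFam N W) :
    ∀ (κ : Cardinal.{u}) (A : Set Γ) (hA : OpClosed op A), #A = κ →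
      NoFam N (YA W ⟨A, hst A hA⟩) := by
  classical
  intro κ
  induction κ using WellFoundedLT.induction with
  | ind κ ih =>
    intro A hA hκ
    rcases le_or_gt #A ℵ₀ with hc | hc
    · exact countable_case hDL hLD hy hop _ hA (Cardinal.le_aleph0_iff_set_countable.1 hc) hW
    · obtain ⟨cl, cl1, cl2, cl3, cl4⟩ := exists_closure op
      obtain ⟨r, wo, hr⟩ := Cardinal.exists_ord_eq A
      letI : LinearOrder A := linearOrderOfSTO r
      have hlt : ∀ a b : A, a < b ↔ r a b := fun a b => Iff.rfl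
      haveI : WellFoundedLT A := ⟨wo.wf⟩
      let B0 : Set Γ := cl ∅
      let B : A → Set Γ := fun a => cl (Subtype.val '' Set.Iic a)
      have hB0 : ∀ a, B0 ⊆ B a := fun a => cl3 _ _ (Set.empty_subset _) (cl2 _)
      have hmono : ∀ a b, a ≤ b → B a ⊆ B b := fun a b hab =>
        cl3 _ _ ((Set.image_mono (Set.Iic_subset_Iic.2 hab)).trans (cl1 _)) (cl2 _)
      have hBA : ∀ a, B a ⊆ A := fun a => cl3 _ _ (by rintro _ ⟨b, -, rfl⟩; exact b.2) hA
      have hB0A : B0 ⊆ A := cl3 _ _ (Set.empty_subset _) hA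
      have hcard0 : #B0 < κ := by
        refine lt_of_le_of_lt (cl4 _) ?_
        rw [← hκ]
        refine lt_of_le_of_lt ?_ hc
        simp
      have hcard : ∀ a, #(B a) < κ := by
        intro a
        refine lt_of_le_of_lt (cl4 _) (max_lt (hκ ▸ hc) ?_)
        refine lt_of_le_of_lt Cardinal.mk_image_le ?_
        have h1 : Set.Iic a = insert a (Set.Iio a) := by
          ext b
          simp only [Set.mem_Iic, Set.mem_insert_iff, Set.mem_Iio]
          exact le_iff_eq_or_lt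
        rw [h1]
        refine lt_of_le_of_lt (Cardinal.mk_insert_le) ?_
        rw [← hκ]
        refine Cardinal.add_lt_of_lt hc.le ?_ (lt_of_lt_of_le Cardinal.one_lt_aleph0 hc.le)
        have h2 := Cardinal.card_typein_lt (r := r) a hr
        exact h2
      refine chain_step (J := A) ⟨B0, hst _ (cl2 _)⟩ (fun a => ⟨B a, hst _ (cl2 _)⟩)
        (fun a => ⟨B0 ∪ ⋃ i ∈ Set.Iio a, B i, hst _ (closed_union op B0 B hB0 hmono (cl2 _)
          (fun _ => cl2 _) _)⟩) hB0 hmono (fun _ => rfl) ⟨A, hst A hA⟩ ?_ ?_ ?_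
      · apply Set.Subset.antisymm
        · intro a ha
          refine Or.inr (Set.mem_biUnion (Set.mem_univ (⟨a, ha⟩ : A)) (cl1 _ ?_))
          exact ⟨⟨a, ha⟩, Set.mem_Iic.2 le_rfl, rfl⟩
        · exact Set.union_subset hB0A (Set.iUnion₂_subset fun i _ => hBA i)
      · exact ih _ hcard0 _ (cl2 _) rfl
      · intro a
        exact ih _ (hcard a) _ (cl2 _) rfl

theorem valdivia.{v, u} {N : Type v} (K : Type u) [TopologicalSpace K] [CompactSpace K]
    (h : IsValdivia K) : GoodSpace N K := by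
  intro W _ _ hW
  obtain ⟨Γ, e, he, hinj, hd⟩ := h
  have hN : Nonempty N := hW.nonempty
  have hT2 : T2Space K := T2Space.of_injective_continuous hinj he
  rcases isEmpty_or_nonempty Γ with hΓ | hΓ
  · have hsub : Subsingleton K := ⟨fun a b => hinj (Subsingleton.elim _ _)⟩
    rcases isEmpty_or_nonempty K with hK | ⟨⟨k0⟩⟩
    · exact NoFam.of_subsingleton fun f => by ext x; exact (hK.false x).elim
    · let T : C(K, W) →ₗ[ℝ] W :=
        { toFun := fun f => f k0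
          map_add' := fun f g => rfl
          map_smul' := fun a f => rfl }
      have hT : ∀ f, ‖T f‖ = ‖f‖ := by
        intro f
        apply le_antisymm
        · exact f.norm_coe_le_norm k0
        · rw [ContinuousMap.norm_le _ (norm_nonneg _)]
          intro x
          rw [Subsingleton.elim x k0]
          exact le_rfl
      exact NoFam.of_embed T 1 1 one_pos (fun x => by rw [hT, one_mul]) (fun x => by rw [hT, one_mul]) hW
  · let L : Set (Γ → ℝ) := Set.range e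
    have hLc : IsCompact L := isCompact_range he
    haveI : CompactSpace L := isCompact_iff_compactSpace.1 hLc
    let D : Set (Γ → ℝ) := e '' {x | {γ | e x γ ≠ 0}.Countable}
    have hDL : D ⊆ L := Set.image_subset_range _ _
    have hLD : L ⊆ closure D := by
      rintro _ ⟨x, rfl⟩
      exact image_closure_subset_closure_image he ⟨x, hd x, rfl⟩
    have hD : ∀ x ∈ D, {i | x i ≠ 0}.Countable := by
      rintro _ ⟨x, hx, rfl⟩
      exact hx
    obtain ⟨y, op, hy, hop⟩ := exists_points D hD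
    have hst := stab_of_closed hLc.isClosed hDL hLD hy hop
    have huniv : OpClosed op Set.univ := fun _ _ _ _ => trivial
    have hmain := main_ind (N := N) (W := W) hDL hLD hy hop hst hW _ Set.univ huniv rfl
    let φ : K ≃ₜ L := Continuous.homeoOfEquivCompactToT2 (f := Equiv.ofInjective e hinj)
      (Continuous.subtype_mk he _)
    let ψ : C(L, K) := ⟨φ.symm, φ.symm.continuous⟩
    let T : C(K, W) →ₗ[ℝ] YA W ⟨Set.univ, hst _ huniv⟩ :=
      { toFun := fun f => ⟨f.comp ψ, fun x => by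
          congr 1
          apply Subtype.ext
          exact Set.indicator_univ _⟩
        map_add' := fun f g => rfl
        map_smul' := fun a f => rfl }
    have hT : ∀ f, ‖T f‖ = ‖f‖ := by
      intro f
      apply le_antisymm
      · change ‖f.comp ψ‖ ≤ ‖f‖
        rw [ContinuousMap.norm_le _ (norm_nonneg _)]
        intro x
        exact f.norm_coe_le_norm _
      · change ‖f‖ ≤ ‖f.comp ψ‖
        rw [ContinuousMap.norm_le _ (norm_nonneg _)]
        intro x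
        have h1 := (f.comp ψ).norm_coe_le_norm (φ x)
        change ‖f (φ.symm (φ x))‖ ≤ _ at h1
        rwa [Homeomorph.symm_apply_apply] at h1
    exact NoFam.of_embed T 1 1 one_pos (fun x => by rw [hT, one_mul]) (fun x => by rw [hT, one_mul]) hmain

end Pool.Agent.Helper55.TR
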